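import Mathlib

set_option autoImplicit false

/-! Free groups on the natural numbers: subgroups generated by sets of letters. -/

namespace Pool.Agent.H668

/-- the free group on the natural numbers -/
abbrev Gm := FreeGroup ℕ

/-- the subgroup generated by the letters in `S` -/
def Sb (S : ℕ → Prop) : Subgroup Gm := Subgroup.closure (FreeGroup.of '' {a | S a})

theorem of_mem {S : ℕ → Prop} {a : ℕ} (h : S a) : FreeGroup.of a ∈ Sb S :=
  Subgroup.subset_closure ⟨a, h, rfl⟩

theorem Sb_mono {S S' : ℕ → Prop} (h : ∀ a, S a → S' a) {g : Gm} (hg : g ∈ Sb S) : g ∈ Sb S' :=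
  Subgroup.closure_mono (Set.image_mono fun a ha => h a ha) hg

theorem Sb_ind {S : ℕ → Prop} {p : Gm → Prop} (h1 : ∀ a, S a → p (FreeGroup.of a)) (h2 : p 1)
    (h3 : ∀ x y, x ∈ Sb S → y ∈ Sb S → p x → p y → p (x * y))
    (h4 : ∀ x, x ∈ Sb S → p x → p x⁻¹) {g : Gm} (hg : g ∈ Sb S) : p g := by
  refine Subgroup.closure_induction (p := fun x _ => p x) ?_ h2 h3 h4 hg
  rintro x ⟨a, ha, rfl⟩
  exact h1 a ha

open Classical in
/-- the homomorphism which kills the letters outside `S` -/
noncomputable def kill (S : ℕ → Prop) : Gm →* Gm :=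
  FreeGroup.lift fun a => if S a then FreeGroup.of a else 1

theorem kill_of {S : ℕ → Prop} {a : ℕ} (h : S a) : kill S (FreeGroup.of a) = FreeGroup.of a := by
  unfold kill
  rw [FreeGroup.lift_apply_of, if_pos h]

theorem kill_of' {S : ℕ → Prop} {a : ℕ} (h : ¬ S a) : kill S (FreeGroup.of a) = 1 := by
  unfold kill
  rw [FreeGroup.lift_apply_of, if_neg h]

theorem kill_mem' {S S' : ℕ → Prop} {g : Gm} (hg : g ∈ Sb S') :
    kill S g ∈ Sb fun a => S a ∧ S' a := by
  refine Sb_ind (p := fun g => kill S g ∈ Sb fun a => S a ∧ S' a) ?_ ?_ ?_ ?_ hg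
  · intro a ha
    by_cases h : S a
    · rw [kill_of h]; exact of_mem ⟨h, ha⟩
    · rw [kill_of' h]; exact one_mem _
  · rw [map_one]; exact one_mem _
  · intro x y _ _ h1 h2
    rw [map_mul]; exact mul_mem h1 h2
  · intro x _ h1
    rw [map_inv]; exact inv_mem h1

theorem mem_top (g : Gm) : g ∈ Sb fun _ => True := by
  refine FreeGroup.induction_on g (one_mem _) (fun a => of_mem trivial) (fun a h => inv_mem h)
    fun x y hx hy => mul_mem hx hy

theorem kill_mem (S : ℕ → Prop) (g : Gm) : kill S g ∈ Sb S :=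
  Sb_mono (fun _ h => h.1) (kill_mem' (mem_top g))

theorem kill_id {S : ℕ → Prop} {g : Gm} (hg : g ∈ Sb S) : kill S g = g := by
  refine Sb_ind (p := fun g => kill S g = g) (fun a ha => kill_of ha) (map_one _) ?_ ?_ hg
  · intro x y _ _ h1 h2; rw [map_mul, h1, h2]
  · intro x _ h1; rw [map_inv, h1]

theorem kill_congr {S S' S'' : ℕ → Prop} {g : Gm} (hg : g ∈ Sb S'')
    (h : ∀ a, S'' a → (S a ↔ S' a)) : kill S g = kill S' g := by
  refine Sb_ind (p := fun g => kill S g = kill S' g) ?_ (by rw [map_one, map_one]) ?_ ?_ hg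
  · intro a ha
    by_cases h1 : S a
    · rw [kill_of h1, kill_of ((h a ha).1 h1)]
    · rw [kill_of' h1, kill_of' fun h2 => h1 ((h a ha).2 h2)]
  · intro x y _ _ h1 h2; rw [map_mul, map_mul, h1, h2]
  · intro x _ h1; rw [map_inv, map_inv, h1]

theorem kill_one {S S' : ℕ → Prop} {g : Gm} (hg : g ∈ Sb S') (h : ∀ a, S' a → ¬ S a) :
    kill S g = 1 := by
  refine Sb_ind (p := fun g => kill S g = 1) (fun a ha => kill_of' (h a ha)) (map_one _) ?_ ?_ hg
  · intro x y _ _ h1 h2; rw [map_mul, h1, h2, mul_one]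
  · intro x _ h1; rw [map_inv, h1, inv_one]

theorem Sb_inf {S S' : ℕ → Prop} {g : Gm} (h : g ∈ Sb S) (h' : g ∈ Sb S') :
    g ∈ Sb fun a => S a ∧ S' a := by
  have := kill_mem' (S := S) h'
  rwa [kill_id h] at this

theorem map_mem {f : ℕ → ℕ} {S S' : ℕ → Prop} (h : ∀ a, S a → S' (f a)) {g : Gm}
    (hg : g ∈ Sb S) : FreeGroup.map f g ∈ Sb S' := by
  refine Sb_ind (p := fun g => FreeGroup.map f g ∈ Sb S') ?_ ?_ ?_ ?_ hg
  · intro a ha
    rw [FreeGroup.map.of]
    exact of_mem (h a ha)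
  · rw [map_one]; exact one_mem _
  · intro x y _ _ h1 h2
    rw [map_mul]; exact mul_mem h1 h2
  · intro x _ h1
    rw [map_inv]; exact inv_mem h1

theorem map_congr {f f' : ℕ → ℕ} {S : ℕ → Prop} (h : ∀ a, S a → f a = f' a) {g : Gm}
    (hg : g ∈ Sb S) : FreeGroup.map f g = FreeGroup.map f' g := by
  refine Sb_ind (p := fun g => FreeGroup.map f g = FreeGroup.map f' g) ?_ ?_ ?_ ?_ hg
  · intro a ha
    rw [FreeGroup.map.of, FreeGroup.map.of, h a ha]
  · rw [map_one, map_one]
  · intro x y _ _ h1 h2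
    rw [map_mul, map_mul, h1, h2]
  · intro x _ h1
    rw [map_inv, map_inv, h1]

theorem map_map' {f f' f'' : ℕ → ℕ} {S : ℕ → Prop} (h : ∀ a, S a → f (f' a) = f'' a) {g : Gm}
    (hg : g ∈ Sb S) : FreeGroup.map f (FreeGroup.map f' g) = FreeGroup.map f'' g := by
  refine Sb_ind (p := fun g => FreeGroup.map f (FreeGroup.map f' g) = FreeGroup.map f'' g)
    ?_ ?_ ?_ ?_ hg
  · intro a ha
    rw [FreeGroup.map.of, FreeGroup.map.of, FreeGroup.map.of, h a ha]
  · rw [map_one, map_one, map_one]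
  · intro x y _ _ h1 h2
    rw [map_mul, map_mul, map_mul, h1, h2]
  · intro x _ h1
    rw [map_inv, map_inv, map_inv, h1]

theorem map_id' {f : ℕ → ℕ} {S : ℕ → Prop} (h : ∀ a, S a → f a = a) {g : Gm}
    (hg : g ∈ Sb S) : FreeGroup.map f g = g := by
  refine Sb_ind (p := fun g => FreeGroup.map f g = g) ?_ ?_ ?_ ?_ hg
  · intro a ha
    rw [FreeGroup.map.of, h a ha]
  · rw [map_one]
  · intro x y _ _ h1 h2
    rw [map_mul, h1, h2]
  · intro x _ h1
    rw [map_inv, h1]

theorem map_one_of_inj {f : ℕ → ℕ} {S : ℕ → Prop}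
    (h : ∀ a b, S a → S b → f a = f b → a = b) {g : Gm} (hg : g ∈ Sb S)
    (h1 : FreeGroup.map f g = 1) : g = 1 := by
  classical
  let k : ℕ → ℕ := fun b => if hb : ∃ a, S a ∧ f a = b then hb.choose else 0
  have hk : ∀ a, S a → k (f a) = a := by
    intro a ha
    have hb : ∃ a', S a' ∧ f a' = f a := ⟨a, ha, rfl⟩
    show (if hb : ∃ a', S a' ∧ f a' = f a then hb.choose else 0) = a
    rw [dif_pos hb]
    exact h _ _ hb.choose_spec.1 ha hb.choose_spec.2
  have h2 := map_map' (f := k) (f' := f) (f'' := id) hk hg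
  rw [h1, map_one, map_id' (f := id) (fun _ _ => rfl) hg] at h2
  exact h2.symm

theorem kill_map {f : ℕ → ℕ} {S S' S'' : ℕ → Prop} (h : ∀ a, S'' a → (S' (f a) ↔ S a))
    {g : Gm} (hg : g ∈ Sb S'') :
    kill S' (FreeGroup.map f g) = FreeGroup.map f (kill S g) := by
  refine Sb_ind (p := fun g => kill S' (FreeGroup.map f g) = FreeGroup.map f (kill S g))
    ?_ ?_ ?_ ?_ hg
  · intro a ha
    rw [FreeGroup.map.of]
    by_cases h1 : S a
    · rw [kill_of h1, kill_of ((h a ha).2 h1), FreeGroup.map.of]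
    · rw [kill_of' h1, kill_of' fun h2 => h1 ((h a ha).1 h2), map_one]
  · rw [map_one, map_one, map_one, map_one]
  · intro x y _ _ h1 h2
    rw [map_mul, map_mul, map_mul, map_mul, h1, h2]
  · intro x _ h1
    rw [map_inv, map_inv, map_inv, map_inv, h1]

/-! ### words -/

theorem mk_mem {S : ℕ → Prop} {L : List (ℕ × Bool)} (h : ∀ x ∈ L, S x.1) :
    FreeGroup.mk L ∈ Sb S := by
  induction L with
  | nil => exact one_mem _
  | cons x l ih =>
    have h1 : FreeGroup.mk (x :: l) = FreeGroup.mk [x] * FreeGroup.mk l := by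
      rw [FreeGroup.mul_mk]; rfl
    rw [h1]
    refine mul_mem ?_ (ih fun y hy => h y (List.mem_cons_of_mem _ hy))
    have hx := h x List.mem_cons_self
    obtain ⟨a, b⟩ := x
    cases b with
    | true => exact of_mem hx
    | false =>
      have : (FreeGroup.mk [(a, false)] : Gm) = (FreeGroup.of a)⁻¹ := by
        rw [FreeGroup.of, FreeGroup.inv_mk]; rfl
      rw [this]
      exact inv_mem (of_mem hx)

/-- the letters of a word -/
def supp (g : Gm) (a : ℕ) : Prop := ∃ b, (a, b) ∈ g.toWord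

theorem mem_supp (g : Gm) : g ∈ Sb (supp g) := by
  have h : FreeGroup.mk g.toWord ∈ Sb (supp g) := mk_mem fun x hx => ⟨x.2, hx⟩
  rwa [FreeGroup.mk_toWord] at h

theorem mk_cons (x : ℕ × Bool) (l : List (ℕ × Bool)) :
    (FreeGroup.mk (x :: l) : Gm) = FreeGroup.mk [x] * FreeGroup.mk l := by
  rw [FreeGroup.mul_mk]; rfl

theorem mk_false (a : ℕ) : (FreeGroup.mk [(a, false)] : Gm) = (FreeGroup.of a)⁻¹ := by
  rw [FreeGroup.of, FreeGroup.inv_mk]; rfl

open Classical in
theorem kill_mk (S : ℕ → Prop) (L : List (ℕ × Bool)) :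
    kill S (FreeGroup.mk L) = FreeGroup.mk (L.filter fun x => S x.1) := by
  induction L with
  | nil => exact map_one _
  | cons x l ih =>
    rw [mk_cons, map_mul, ih]
    obtain ⟨a, b⟩ := x
    by_cases h : S a
    · have h1 : (List.filter (fun x : ℕ × Bool => (decide (S x.1))) ((a, b) :: l)) =
          (a, b) :: List.filter (fun x : ℕ × Bool => (decide (S x.1))) l := by
        rw [List.filter_cons_of_pos]
        simpa using h
      have h2 : kill S (FreeGroup.mk [(a, b)]) = FreeGroup.mk [(a, b)] := by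
        cases b with
        | true => exact kill_of h
        | false => rw [mk_false, map_inv, kill_of h]
      rw [h1, h2, ← mk_cons]
    · have h1 : (List.filter (fun x : ℕ × Bool => (decide (S x.1))) ((a, b) :: l)) =
          List.filter (fun x : ℕ × Bool => (decide (S x.1))) l := by
        rw [List.filter_cons_of_neg]
        simpa using h
      rw [h1]
      have h2 : kill S (FreeGroup.mk [(a, b)]) = 1 := by
        cases b with
        | true => exact kill_of' h
        | false => rw [mk_false, map_inv, kill_of' h, inv_one]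
      rw [h2, one_mul]

theorem supp_of_mem {S : ℕ → Prop} {g : Gm} (h : g ∈ Sb S) {a : ℕ} (ha : supp g a) : S a := by
  classical
  have h1 := kill_id h
  have h2 : kill S g = FreeGroup.mk (g.toWord.filter fun x => S x.1) := by
    rw [← kill_mk, FreeGroup.mk_toWord]
  rw [h2] at h1
  have h3 : g.toWord = FreeGroup.reduce (g.toWord.filter fun x => S x.1) := by
    conv_lhs => rw [← h1]
    rw [FreeGroup.toWord_mk]
  have h4 : (g.toWord).Sublist (g.toWord.filter fun x => S x.1) := by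
    conv_lhs => rw [h3]
    exact (FreeGroup.reduce.red (L := g.toWord.filter fun x => S x.1)).sublist
  obtain ⟨b, hb⟩ := ha
  have h5 := h4.subset hb
  simpa using (List.mem_filter.1 h5).2

theorem exists_bound (g : Gm) : ∃ N, g ∈ Sb fun a => a < N := by
  refine ⟨(g.toWord.map fun x => x.1 + 1).sum, Sb_mono ?_ (mem_supp g)⟩
  rintro a ⟨b, hb⟩
  have : a + 1 ≤ (g.toWord.map fun x => x.1 + 1).sum :=
    List.single_le_sum (fun _ _ => Nat.zero_le _) _ (List.mem_map.2 ⟨(a, b), hb, rfl⟩)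
  omega

theorem supp_map {f : ℕ → ℕ} {g : Gm} {b : ℕ} (h : supp (FreeGroup.map f g) b) :
    ∃ a, supp g a ∧ f a = b := by
  have h1 : FreeGroup.map f g ∈ Sb fun b => ∃ a, supp g a ∧ f a = b :=
    map_mem (fun a ha => ⟨a, ha, rfl⟩) (mem_supp g)
  exact supp_of_mem h1 h

end Pool.Agent.H668
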