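import Mathlib
import Pool.Graph.R_seed8.Helper941.Dim.Tree
import Pool.Agent.H668.FG

set_option autoImplicit false

namespace Pool.Agent.H668

open Encodable Denumerable Nat.Partrec Pool.Agent.Helper941 Pool.Agent.Helper941.IsoProb
open Pool.Agent.Helper941.Zeta Pool.Agent.Helper941.Dim

/-! ### ancestors -/

/-- `a` is an ancestor of `u` -/
def An (pa : ℕ → ℕ) (u a : ℕ) : Prop := ∃ n, pa^[n] u = a

section anc
variable {pa : ℕ → ℕ}

theorem An.refl (u : ℕ) : An pa u u := ⟨0, rfl⟩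

theorem An.step {u a : ℕ} (h : An pa u a) : An pa u (pa a) := by
  obtain ⟨n, rfl⟩ := h
  exact ⟨n + 1, Function.iterate_succ_apply' _ _ _⟩

theorem An.trans {u a b : ℕ} (h : An pa u a) (h' : An pa a b) : An pa u b := by
  obtain ⟨n, rfl⟩ := h
  obtain ⟨m, rfl⟩ := h'
  exact ⟨m + n, Function.iterate_add_apply _ _ _ _⟩

theorem An.le (hp : ∀ u, pa u ≤ u) {u a : ℕ} (h : An pa u a) : a ≤ u := by
  obtain ⟨n, rfl⟩ := h
  exact iterate_le hp _ _

theorem An.total (hp : ∀ u, pa u ≤ u) {u a b : ℕ} (h : An pa u a) (h' : An pa u b)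
    (hab : a ≤ b) : An pa b a := by
  obtain ⟨m, rfl⟩ := h
  obtain ⟨n, rfl⟩ := h'
  by_cases h1 : n ≤ m
  · obtain ⟨k, rfl⟩ : ∃ k, m = k + n := ⟨m - n, by omega⟩
    exact ⟨k, (Function.iterate_add_apply _ _ _ _).symm⟩
  · obtain ⟨k, rfl⟩ : ∃ k, n = k + m := ⟨n - m, by omega⟩
    have h2 : pa^[k + m] u ≤ pa^[m] u := by
      rw [Function.iterate_add_apply]
      exact iterate_le hp _ _
    have h3 : pa^[m] u = pa^[k + m] u := by omega
    rw [h3]
    exact An.refl _

/-- the ancestor of `u` next above the cut `c` -/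
def anc (pa : ℕ → ℕ) (c u : ℕ) : ℕ := Nat.rec u (fun _ x => if c < pa x then pa x else x) u

theorem anc_spec (hp : ∀ u, 1 ≤ u → pa u < u) {c u : ℕ} (h : c < u) :
    c < anc pa c u ∧ pa (anc pa c u) ≤ c ∧ An pa u (anc pa c u) := by
  have key : ∀ n : ℕ, c < (Nat.rec u (fun _ x => if c < pa x then pa x else x) n : ℕ) ∧
      An pa u (Nat.rec u (fun _ x => if c < pa x then pa x else x) n : ℕ) ∧
      (pa (Nat.rec u (fun _ x => if c < pa x then pa x else x) n : ℕ) ≤ c ∨
        (Nat.rec u (fun _ x => if c < pa x then pa x else x) n : ℕ) + n ≤ u) := by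
    intro n
    induction n with
    | zero => exact ⟨h, An.refl _, Or.inr (le_refl _)⟩
    | succ n ih =>
      set x : ℕ := (Nat.rec u (fun _ x => if c < pa x then pa x else x) n : ℕ) with hx
      have e : (Nat.rec u (fun _ x => if c < pa x then pa x else x) (n + 1) : ℕ) =
        if c < pa x then pa x else x := rfl
      rw [e]
      obtain ⟨h1, h2, h3⟩ := ih
      split_ifs with h4
      · have := hp x (by omega)
        refine ⟨h4, h2.step, ?_⟩
        rcases h3 with h3 | h3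
        · omega
        · right; omega
      · exact ⟨h1, h2, Or.inl (by omega)⟩
  obtain ⟨h1, h2, h3⟩ := key u
  refine ⟨h1, ?_, h2⟩
  rcases h3 with h3 | h3
  · exact h3
  · exfalso
    have : (Nat.rec u (fun _ x => if c < pa x then pa x else x) u : ℕ) ≤ 0 := by omega
    omega

theorem le_of_lt' (hp : ∀ u, 1 ≤ u → pa u < u) (h0 : pa 0 = 0) (u : ℕ) : pa u ≤ u := by
  by_cases h : 1 ≤ u
  · exact le_of_lt (hp u h)
  · have : u = 0 := by omega
    subst this
    rw [h0]

theorem anc_eq (hp : ∀ u, 1 ≤ u → pa u < u) (h0 : pa 0 = 0) {c u a : ℕ} (h : An pa u a)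
    (h1 : c < a) (h2 : pa a ≤ c) : anc pa c u = a := by
  have hle := le_of_lt' hp h0
  have hau := h.le hle
  obtain ⟨h3, h4, h5⟩ := anc_spec hp (show c < u by omega)
  set b := anc pa c u with hb
  have key : ∀ x y, An pa x y → pa x ≤ c → c < y → x = y := by
    rintro x y ⟨n, rfl⟩ hx hy
    cases n with
    | zero => rfl
    | succ n =>
      exfalso
      rw [Function.iterate_succ_apply] at hy
      have := iterate_le hle n (pa x)
      omega
  rcases Nat.le_total a b with h6 | h6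
  · exact key b a (h.total hle h5 h6) h4 h1
  · exact (key a b (h5.total hle h h6) h2 h3).symm

theorem anc_anc (hp : ∀ u, 1 ≤ u → pa u < u) (h0 : pa 0 = 0) {c c' u : ℕ} (h : c ≤ c')
    (hu : c' < u) : anc pa c (anc pa c' u) = anc pa c u := by
  obtain ⟨h1, h2, h3⟩ := anc_spec hp hu
  obtain ⟨h4, h5, h6⟩ := anc_spec hp (show c < anc pa c' u by omega)
  exact (anc_eq hp h0 (h3.trans h6) h4 h5).symm

theorem anc_desc (hp : ∀ u, 1 ≤ u → pa u < u) (h0 : pa 0 = 0) {c u w : ℕ} (h : An pa w u)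
    (hu : c < u) : anc pa c w = anc pa c u := by
  obtain ⟨h4, h5, h6⟩ := anc_spec hp hu
  exact anc_eq hp h0 (h.trans h6) h4 h5

end anc

/-! ### the data of the construction -/

/-- the data produced by the construction: outcomes, certificates, labels, parents and claims -/
structure Dt extends Dat where
  X : ℕ → ℕ

/-- `τ` witnesses that the node `u` is settled -/
def St (d : Dt) (u τ : ℕ) : Prop :=
  ∀ i < d.J u - 1, d.O u i = 1 → ∃ t < τ + 1, u < t ∧ agr d.toDat t u i ∧ d.O t i = 1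

/-- the code `l` of a letter is admissible at the cut `c` -/
def W (d : Dt) (c l : ℕ) : Prop :=
  ¬ d.J l.unpair.1 = 0 ∧ c < l.unpair.1 ∧ c ≤ len (d.X l.unpair.1) ∧ St d l.unpair.1 l.unpair.2

/-- equivalence of admissible codes at the cut `c` -/
def E (d : Dt) (c l l' : ℕ) : Prop :=
  anc d.pa c l.unpair.1 = anc d.pa c l'.unpair.1 ∧
    ∀ y < c, dig (d.X l.unpair.1) y = dig (d.X l'.unpair.1) y

theorem E.refl (d : Dt) (c l : ℕ) : E d c l l := ⟨rfl, fun _ _ => rfl⟩

theorem E.symm {d : Dt} {c l l' : ℕ} (h : E d c l l') : E d c l' l :=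
  ⟨h.1.symm, fun y hy => (h.2 y hy).symm⟩

theorem E.trans {d : Dt} {c l l' l'' : ℕ} (h : E d c l l') (h' : E d c l' l'') :
    E d c l l'' := ⟨h.1.trans h'.1, fun y hy => (h.2 y hy).trans (h'.2 y hy)⟩

/-- the parent function is a tree function -/
structure PT (d : Dt) : Prop where
  lt : ∀ u, 1 ≤ u → d.pa u < u
  zero : d.pa 0 = 0

theorem PT.le {d : Dt} (h : PT d) (u : ℕ) : d.pa u ≤ u := le_of_lt' h.lt h.zero u

theorem W.mono {d : Dt} {c c' l : ℕ} (h : W d c' l) (hc : c ≤ c') : W d c l := by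
  obtain ⟨h1, h2, h3, h4⟩ := h
  exact ⟨h1, by omega, by omega, h4⟩

theorem E.mono {d : Dt} (hd : PT d) {c c' l l' : ℕ} (h : E d c' l l') (hc : c ≤ c')
    (hl : W d c' l) (hl' : W d c' l') : E d c l l' := by
  refine ⟨?_, fun y hy => h.2 y (by omega)⟩
  rw [← anc_anc hd.lt hd.zero hc hl.2.1, ← anc_anc hd.lt hd.zero hc hl'.2.1, h.1]

/-- the least admissible code equivalent to `l` -/
noncomputable def rep (d : Dt) (c l : ℕ) : ℕ :=
  sInf {m | m = l ∨ (W d c l ∧ W d c m ∧ E d c l m)}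

theorem rep_spec (d : Dt) (c l : ℕ) :
    rep d c l = l ∨ (W d c l ∧ W d c (rep d c l) ∧ E d c l (rep d c l)) :=
  Nat.sInf_mem (s := {m | m = l ∨ (W d c l ∧ W d c m ∧ E d c l m)}) ⟨l, Or.inl rfl⟩

theorem rep_W {d : Dt} {c l : ℕ} (h : W d c l) : W d c (rep d c l) ∧ E d c l (rep d c l) := by
  rcases rep_spec d c l with h1 | h1
  · rw [h1]; exact ⟨h, E.refl _ _ _⟩
  · exact h1.2

theorem rep_le (d : Dt) (c l : ℕ) : rep d c l ≤ l :=
  Nat.sInf_le (s := {m | m = l ∨ (W d c l ∧ W d c m ∧ E d c l m)}) (Or.inl rfl)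

theorem rep_min {d : Dt} {c l m : ℕ} (h : W d c l) (hm : W d c m) (he : E d c l m) :
    rep d c l ≤ m :=
  Nat.sInf_le (s := {m | m = l ∨ (W d c l ∧ W d c m ∧ E d c l m)}) (Or.inr ⟨h, hm, he⟩)

theorem rep_eq {d : Dt} {c l m : ℕ} (h : W d c l) (hm : W d c m) (he : E d c l m) :
    rep d c l = rep d c m := by
  obtain ⟨h1, h2⟩ := rep_W h
  obtain ⟨h3, h4⟩ := rep_W hm
  refine le_antisymm (rep_min h h3 (he.trans h4)) (rep_min hm h1 (he.symm.trans h2))

theorem E_of_rep {d : Dt} {c l m : ℕ} (h : W d c l) (hm : W d c m)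
    (he : rep d c l = rep d c m) : E d c l m := by
  have h2 := (rep_W h).2
  rw [he] at h2
  exact h2.trans (rep_W hm).2.symm

/-- the letters at the cut `c` -/
def Lam (d : Dt) (c l : ℕ) : Prop := W d c l ∧ rep d c l = l

theorem rep_Lam {d : Dt} {c l : ℕ} (h : W d c l) : Lam d c (rep d c l) := by
  obtain ⟨h1, h2⟩ := rep_W h
  exact ⟨h1, (rep_eq h h1 h2).symm⟩

theorem rep_rep {d : Dt} (hd : PT d) {c c' l : ℕ} (h : W d c' l) (hc : c ≤ c') :
    rep d c (rep d c' l) = rep d c l := by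
  obtain ⟨h1, h2⟩ := rep_W h
  exact (rep_eq (h.mono hc) (h1.mono hc) (h2.mono hd hc h h1)).symm

/-- the words at the cut `c` -/
def Val (d : Dt) (c : ℕ) (w : Gm) : Prop := w ∈ Sb (Lam d c)

/-- the folding map -/
noncomputable def fold (d : Dt) (c : ℕ) (w : Gm) : Gm := FreeGroup.map (rep d c) w

theorem fold_mul (d : Dt) (c : ℕ) (w w' : Gm) : fold d c (w * w') = fold d c w * fold d c w' :=
  map_mul _ _ _

theorem fold_inv (d : Dt) (c : ℕ) (w : Gm) : fold d c w⁻¹ = (fold d c w)⁻¹ := map_inv _ _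

theorem fold_one (d : Dt) (c : ℕ) : fold d c 1 = 1 := map_one _

theorem Val.fold' {d : Dt} {c c' : ℕ} (hc : c ≤ c') {w : Gm} (h : Val d c' w) :
    Val d c (fold d c w) :=
  map_mem (fun _ ha => rep_Lam (ha.1.mono hc)) h

theorem Val.one (d : Dt) (c : ℕ) : Val d c 1 := one_mem _

theorem Val.mul {d : Dt} {c : ℕ} {w w' : Gm} (h : Val d c w) (h' : Val d c w') :
    Val d c (w * w') := mul_mem h h'

theorem Val.inv {d : Dt} {c : ℕ} {w : Gm} (h : Val d c w) : Val d c w⁻¹ := inv_mem h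

theorem Val.of {d : Dt} {c l : ℕ} (h : Lam d c l) : Val d c (FreeGroup.of l) := of_mem h

theorem fold_id {d : Dt} {c : ℕ} {w : Gm} (h : Val d c w) : fold d c w = w :=
  map_id' (fun _ ha => ha.2) h

theorem fold_fold {d : Dt} (hd : PT d) {c c' c'' : ℕ} (hc : c ≤ c') (hc' : c' ≤ c'') {w : Gm}
    (h : Val d c'' w) : fold d c (fold d c' w) = fold d c w :=
  map_map' (fun _ ha => rep_rep hd (ha.1.mono hc') hc) h

/-- folding a coherent sequence down -/
theorem fold_seq {d : Dt} (hd : PT d) {y : ℕ → Gm} {m0 M : ℕ} (hv : ∀ m, m0 ≤ m → m ≤ M →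
    Val d m (y m)) (hf : ∀ m, m0 ≤ m → m < M → fold d m (y (m + 1)) = y m) {m n : ℕ}
    (h0 : m0 ≤ m) (hmn : m ≤ n) (hn : n ≤ M) : fold d m (y n) = y m := by
  induction n, hmn using Nat.le_induction with
  | base => exact fold_id (hv m h0 hn)
  | succ n hmn ih =>
    rw [← fold_fold hd hmn (Nat.le_succ n) (hv (n + 1) (by omega) hn),
      hf n (by omega) (by omega)]
    exact ih (by omega)

/-- coherent families of words -/
structure Flw (d : Dt) (t : ℕ → Gm) : Prop where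
  val : ∀ c, Val d c (t c)
  fold : ∀ c, fold d c (t (c + 1)) = t c

theorem Flw.one (d : Dt) : Flw d fun _ => 1 := ⟨fun c => Val.one d c, fun c => fold_one d c⟩

theorem Flw.mul {d : Dt} {t t' : ℕ → Gm} (h : Flw d t) (h' : Flw d t') :
    Flw d fun c => t c * t' c :=
  ⟨fun c => (h.val c).mul (h'.val c), fun c => by rw [fold_mul, h.fold, h'.fold]⟩

theorem Flw.inv {d : Dt} {t : ℕ → Gm} (h : Flw d t) : Flw d fun c => (t c)⁻¹ :=
  ⟨fun c => (h.val c).inv, fun c => by rw [fold_inv, h.fold]⟩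

theorem Flw.pow {d : Dt} {t : ℕ → Gm} (h : Flw d t) (n : ℕ) : Flw d fun c => (t c) ^ n := by
  induction n with
  | zero => exact (Flw.one d)
  | succ n ih =>
    have := ih.mul h
    refine ⟨fun c => by rw [pow_succ]; exact this.val c, fun c => ?_⟩
    rw [pow_succ, pow_succ]
    exact this.fold c

theorem Flw.down {d : Dt} (hd : PT d) {t : ℕ → Gm} (h : Flw d t) {m n : ℕ} (hmn : m ≤ n) :
    H668.fold d m (t n) = t m :=
  fold_seq (M := n) hd (m0 := 0) (fun m _ _ => h.val m) (fun m _ _ => h.fold m) (Nat.zero_le m)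
    hmn (le_refl _)

/-! ### the degree and the action -/

variable {κ : ℕ}

/-- the states -/
abbrev Sta (κ : ℕ) := Fin (κ + 1) × Bool

/-- the translation given by the claims `a` -/
def tau (κ a : ℕ) : Equiv.Perm (Sta κ) where
  toFun s := (s.1, s.2 ^^ a.testBit s.1)
  invFun s := (s.1, s.2 ^^ a.testBit s.1)
  left_inv s := by
    obtain ⟨i, b⟩ := s
    show (i, ((b ^^ a.testBit i) ^^ a.testBit i)) = (i, b)
    cases b <;> cases a.testBit i <;> rfl
  right_inv s := by
    obtain ⟨i, b⟩ := s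
    show (i, ((b ^^ a.testBit i) ^^ a.testBit i)) = (i, b)
    cases b <;> cases a.testBit i <;> rfl

/-- the rotation -/
def shf (κ : ℕ) : Equiv.Perm (Sta κ) where
  toFun s := (s.1 + 1, s.2)
  invFun s := (s.1 - 1, s.2)
  left_inv s := by simp
  right_inv s := by simp

/-- the action of a letter with claims `a` -/
def sa (κ a : ℕ) : Equiv.Perm (Sta κ) := tau κ a * shf κ * tau κ a

theorem tau_tau (κ a : ℕ) : tau κ a * tau κ a = 1 := by
  refine Equiv.ext fun s => ?_
  exact (tau κ a).left_inv s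

theorem sa_apply (κ a : ℕ) (s : Sta κ) :
    sa κ a s = (s.1 + 1, (s.2 ^^ a.testBit s.1) ^^ a.testBit (s.1 + 1 : Fin (κ + 1))) := rfl

/-- the action of the words on the states, for given claims of the letters -/
def ac (κ : ℕ) (cl : ℕ → ℕ) : Gm →* Equiv.Perm (Sta κ) := FreeGroup.lift fun l => sa κ (cl l)

theorem ac_of (cl : ℕ → ℕ) (l : ℕ) : ac κ cl (FreeGroup.of l) = sa κ (cl l) := by
  unfold ac
  rw [FreeGroup.lift_apply_of]

/-- the degree of a word -/
def dg (κ : ℕ) : Gm →* Multiplicative (Fin (κ + 1)) :=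
  FreeGroup.lift fun _ => Multiplicative.ofAdd 1

theorem dg_of (l : ℕ) : dg κ (FreeGroup.of l) = Multiplicative.ofAdd 1 := by
  unfold dg
  rw [FreeGroup.lift_apply_of]

theorem ac_fst (cl : ℕ → ℕ) (w : Gm) (s : Sta κ) :
    (ac κ cl w s).1 = s.1 + Multiplicative.toAdd (dg κ w) := by
  have key : ∀ w ∈ Sb fun _ => True, ∀ s : Sta κ,
      (ac κ cl w s).1 = s.1 + Multiplicative.toAdd (dg κ w) := by
    intro w hw
    refine Sb_ind (p := fun w => ∀ s : Sta κ,
      (ac κ cl w s).1 = s.1 + Multiplicative.toAdd (dg κ w)) ?_ ?_ ?_ ?_ hw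
    · intro a _ s
      rw [ac_of, dg_of, sa_apply, toAdd_ofAdd]
    · intro s
      rw [map_one, map_one, toAdd_one, add_zero]
      rfl
    · intro x y _ _ h1 h2 s
      rw [map_mul, map_mul, toAdd_mul, Equiv.Perm.mul_apply, h1, h2]
      abel
    · intro x _ h1 s
      have h2 := h1 ((ac κ cl x)⁻¹ s)
      rw [← Equiv.Perm.mul_apply, mul_inv_cancel, Equiv.Perm.one_apply] at h2
      rw [map_inv, map_inv, toAdd_inv, h2]
      abel
  exact key w (mem_top w) s

theorem ac_congr {cl cl' : ℕ → ℕ} {S : ℕ → Prop} (h : ∀ l, S l → cl l = cl' l) {w : Gm}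
    (hw : w ∈ Sb S) : ac κ cl w = ac κ cl' w := by
  refine Sb_ind (p := fun w => ac κ cl w = ac κ cl' w) ?_ ?_ ?_ ?_ hw
  · intro a ha
    rw [ac_of, ac_of, h a ha]
  · rw [map_one, map_one]
  · intro x y _ _ h1 h2
    rw [map_mul, map_mul, h1, h2]
  · intro x _ h1
    rw [map_inv, map_inv, h1]

/-- the marked state of index `i` for the true claims `a` -/
def pt (κ a : ℕ) (i : Fin (κ + 1)) : Sta κ := (i, a.testBit i)

theorem sa_pt (a : ℕ) (i : Fin (κ + 1)) : sa κ a (pt κ a i) = pt κ a (i + 1) := by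
  rw [sa_apply]
  show (i + 1, ((a.testBit i ^^ a.testBit i) ^^ a.testBit (i + 1 : Fin (κ + 1)))) =
    (i + 1, a.testBit (i + 1 : Fin (κ + 1)))
  cases a.testBit i <;> simp

/-- a word all letters of which have the true claims moves the marked states -/
theorem ac_pt {cl : ℕ → ℕ} {S : ℕ → Prop} {a : ℕ} (h : ∀ l, S l → cl l = a) {w : Gm}
    (hw : w ∈ Sb S) (i : Fin (κ + 1)) :
    ac κ cl w (pt κ a i) = pt κ a (i + Multiplicative.toAdd (dg κ w)) := by
  have key : ∀ i : Fin (κ + 1),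
    ac κ cl w (pt κ a i) = pt κ a (i + Multiplicative.toAdd (dg κ w)) := by
    refine Sb_ind (p := fun w => ∀ i : Fin (κ + 1),
      ac κ cl w (pt κ a i) = pt κ a (i + Multiplicative.toAdd (dg κ w))) ?_ ?_ ?_ ?_ hw
    · intro l hl i
      rw [ac_of, h l hl, sa_pt, dg_of, toAdd_ofAdd]
    · intro i
      rw [map_one, map_one, toAdd_one, add_zero]
      rfl
    · intro x y _ _ h1 h2 i
      rw [map_mul, map_mul, toAdd_mul, Equiv.Perm.mul_apply, h2, h1]
      congr 1
      abel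
    · intro x _ h1 i
      have h2 := h1 (i + Multiplicative.toAdd (dg κ x⁻¹))
      rw [map_inv, Equiv.Perm.inv_eq_iff_eq, h2]
      congr 1
      rw [map_inv, toAdd_inv]
      abel
  exact key i

/-- powers of a letter -/
theorem ac_pow (cl : ℕ → ℕ) (l n : ℕ) (i : Fin (κ + 1)) (b : Bool) :
    ac κ cl (FreeGroup.of l ^ n) (i, b) = (i + n • (1 : Fin (κ + 1)),
      (b ^^ (cl l).testBit i) ^^ (cl l).testBit (i + n • (1 : Fin (κ + 1)) : Fin (κ + 1))) := by
  induction n with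
  | zero =>
    rw [pow_zero, map_one, zero_nsmul, add_zero]
    show (i, b) = (i, ((b ^^ (cl l).testBit i) ^^ (cl l).testBit i))
    cases b <;> cases (cl l).testBit i <;> rfl
  | succ n ih =>
    rw [pow_succ', map_mul, Equiv.Perm.mul_apply, ih, ac_of, sa_apply]
    have e : i + (n + 1) • (1 : Fin (κ + 1)) = i + n • (1 : Fin (κ + 1)) + 1 := by
      rw [succ_nsmul, add_assoc]
    rw [e]
    refine Prod.ext rfl ?_
    show ((((b ^^ (cl l).testBit i) ^^ (cl l).testBit (i + n • (1 : Fin (κ + 1)) :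
      Fin (κ + 1))) ^^ (cl l).testBit (i + n • (1 : Fin (κ + 1)) : Fin (κ + 1))) ^^ _) = _
    cases b <;> cases (cl l).testBit i <;>
      cases (cl l).testBit (i + n • (1 : Fin (κ + 1)) : Fin (κ + 1)) <;> rfl

theorem nsmul_one_fin (n : ℕ) (h : n < κ + 1) : n • (1 : Fin (κ + 1)) = ⟨n, h⟩ := by
  induction n with
  | zero => rw [zero_nsmul]; rfl
  | succ n ih =>
    rw [succ_nsmul, ih (by omega)]
    refine Fin.ext ?_
    rw [Fin.val_add_one_of_lt']
    exact h

/-! ### the structures on pairs -/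

/-- the relations: `(0, _)` is the predicate of the words of degree `i` at the cut `0`,
`(1, c)` is the sort `c`, `(2, l)` is the multiplication by the letter `l`, and `(3, _)` is the
folding map -/
def RelG (d : Dt) (i : Fin (κ + 1)) (sy c : ℕ) (w : Gm) (c' : ℕ) (w' : Gm) : Prop :=
  (sy.unpair.1 = 0 ∧ c = c' ∧ w = w' ∧ c = 0 ∧ dg κ w = Multiplicative.ofAdd i) ∨
  (sy.unpair.1 = 1 ∧ c = c' ∧ w = w' ∧ c = sy.unpair.2) ∨
  (sy.unpair.1 = 2 ∧ c = c' ∧ Lam d c sy.unpair.2 ∧ w' = w * FreeGroup.of sy.unpair.2) ∨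
  (sy.unpair.1 = 3 ∧ c = c' + 1 ∧ w' = fold d c' w)

theorem relG_zero {d : Dt} {i : Fin (κ + 1)} {x c c' : ℕ} {w w' : Gm} :
    RelG d i (Nat.pair 0 x) c w c' w' ↔
      c = c' ∧ w = w' ∧ c = 0 ∧ dg κ w = Multiplicative.ofAdd i := by
  unfold RelG
  simp [Nat.unpair_pair]

theorem relG_one {d : Dt} {i : Fin (κ + 1)} {x c c' : ℕ} {w w' : Gm} :
    RelG d i (Nat.pair 1 x) c w c' w' ↔ c = c' ∧ w = w' ∧ c = x := by
  unfold RelG
  simp [Nat.unpair_pair]

theorem relG_two {d : Dt} {i : Fin (κ + 1)} {x c c' : ℕ} {w w' : Gm} :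
    RelG d i (Nat.pair 2 x) c w c' w' ↔ c = c' ∧ Lam d c x ∧ w' = w * FreeGroup.of x := by
  unfold RelG
  simp [Nat.unpair_pair]

theorem relG_three {d : Dt} {i : Fin (κ + 1)} {x c c' : ℕ} {w w' : Gm} :
    RelG d i (Nat.pair 3 x) c w c' w' ↔ c = c' + 1 ∧ w' = fold d c' w := by
  unfold RelG
  simp [Nat.unpair_pair]

/-- an isomorphism from the structure of index `i` onto `B`, given on pairs -/
structure CI (d : Dt) (i : Fin (κ + 1)) (B : Str) (G : ℕ → Gm → ℕ) : Prop where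
  rel : ∀ sy c w c' w', Val d c w → Val d c' w' →
    (RelG d i sy c w c' w' ↔ B sy (G c w) (G c' w'))
  inj : ∀ c w c' w', Val d c w → Val d c' w' → G c w = G c' w' → c = c' ∧ w = w'
  surj : ∀ z, ∃ c w, Val d c w ∧ G c w = z

/-- left multiplication by a coherent family -/
theorem relG_shift {d : Dt} {t : ℕ → Gm} (ht : Flw d t) {i j : Fin (κ + 1)}
    (hij : i + Multiplicative.toAdd (dg κ (t 0)) = j) (sy c : ℕ) (w : Gm) (c' : ℕ) (w' : Gm) :
    RelG d i sy c w c' w' ↔ RelG d j sy c (t c * w) c' (t c' * w') := by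
  unfold RelG
  refine or_congr ?_ (or_congr ?_ (or_congr ?_ ?_))
  · refine and_congr Iff.rfl (and_congr_right fun h1 => ?_)
    subst h1
    rw [mul_right_inj]
    refine and_congr Iff.rfl (and_congr_right fun h1 => ?_)
    subst h1
    rw [map_mul, ← hij]
    constructor
    · intro h
      rw [h, mul_comm, ofAdd_add, ofAdd_toAdd]
    · intro h
      rw [ofAdd_add, ofAdd_toAdd, mul_comm] at h
      exact mul_right_cancel h
  · refine and_congr Iff.rfl (and_congr_right fun h1 => ?_)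
    subst h1
    rw [mul_right_inj]
  · refine and_congr Iff.rfl (and_congr_right fun h1 => ?_)
    subst h1
    rw [mul_assoc, mul_right_inj]
  · refine and_congr Iff.rfl (and_congr_right fun h1 => ?_)
    subst h1
    rw [fold_mul, ht.fold, mul_right_inj]

theorem CI.shift {d : Dt} {i j : Fin (κ + 1)} {B : Str} {G : ℕ → Gm → ℕ} (h : CI d j B G)
    {t : ℕ → Gm} (ht : Flw d t) (hij : i + Multiplicative.toAdd (dg κ (t 0)) = j) :
    CI d i B fun c w => G c (t c * w) where
  rel := fun sy c w c' w' hw hw' => by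
    rw [relG_shift ht hij]
    exact h.rel _ _ _ _ _ ((ht.val c).mul hw) ((ht.val c').mul hw')
  inj := fun c w c' w' hw hw' e => by
    obtain ⟨h1, h2⟩ := h.inj _ _ _ _ ((ht.val c).mul hw) ((ht.val c').mul hw') e
    subst h1
    exact ⟨rfl, mul_left_cancel h2⟩
  surj := fun z => by
    obtain ⟨c, w, h1, h2⟩ := h.surj z
    refine ⟨c, (t c)⁻¹ * w, (ht.val c).inv.mul h1, ?_⟩
    show G c (t c * ((t c)⁻¹ * w)) = z
    rw [mul_inv_cancel_left, h2]

end Pool.Agent.H668
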