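import Mathlib
import Pool.Agent.H668.Base

set_option autoImplicit false

namespace Pool.Agent.H668

open Encodable Denumerable Nat.Partrec Pool.Agent.Helper941 Pool.Agent.Helper941.IsoProb
open Pool.Agent.Helper941.Zeta Pool.Agent.Helper941.Dim

/-- the sequence `a` is an initial segment of the sequence `b` -/
def Pf (a b : ℕ) : Prop := len a ≤ len b ∧ ∀ y < len a, dig a y = dig b y

/-- lower bound for the length of the claims of a node with label `j` born at stage `s` -/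
def LB (d : Dt) (s j L : ℕ) : Prop := len j ≤ L ∧ ∀ t < s, lft d.toDat t s j → t < L

/-- `L` is the length of the claims of a node with label `j` born at stage `s` -/
def Lf (d : Dt) (s j L : ℕ) : Prop := LB d s j L ∧ ∀ L' < L, ¬ LB d s j L'

/-- the parameters of the construction: the tree of labels, and the claims -/
structure Pm where
  T : ℕ → Prop
  cq : ℕ → ℕ → ℕ
  Q : ℕ

/-- the claims `ξ` are consistent with the label `j` -/
def Cs (P : Pm) (j ξ : ℕ) : Prop :=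
  (∀ y < len j, dig ξ y = P.cq y (dig j y)) ∧ ∀ y < len ξ, dig ξ y < P.Q

/-- there is no current node with label `j` and claims `ξ` -/
def Miss (d : Dt) (P : Pm) (s j ξ : ℕ) : Prop :=
  P.T j ∧ Lf d s j (len ξ) ∧ Cs P j ξ ∧ ¬ ∃ v < s, on d.toDat v s j ∧ d.X v = ξ

/-- the cut of a certificate -/
def cM (c : ℕ) : ℕ := c.unpair.1
/-- the base points of a certificate -/
def cy (c i : ℕ) : ℕ := ent c.unpair.2.unpair.1 i
/-- the length of the path of a certificate -/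
def cl (c : ℕ) : ℕ := c.unpair.2.unpair.2.unpair.1
/-- the points of the path of a certificate -/
def cz (c i : ℕ) : ℕ := ent c.unpair.2.unpair.2.unpair.2.unpair.1 i
/-- the letters of the path of a certificate -/
def cw (c i : ℕ) : ℕ := ent c.unpair.2.unpair.2.unpair.2.unpair.2 i

def CertB (s e c : ℕ) : Prop :=
  (∀ i < cM c + 1, Fa e s (Nat.pair 1 i) (cy c i) (cy c i)) ∧
  ∀ i < cM c, Fa e s (Nat.pair 3 0) (cy c (i + 1)) (cy c i)

def CertC (d : Dt) (s e c : ℕ) : Prop :=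
  ∀ s' < s, prevr d.toDat s' s e → cM c = s' ∧
    cz c 0 = cy (d.C s' e - 1) (cM (d.C s' e - 1)) ∧
    cz c (cl c) = cy c (cM (d.C s' e - 1)) ∧
    ∀ i < cl c, Fa e s (Nat.pair 2 (cw c i)) (cz c i) (cz c (i + 1)) ∨
      Fa e s (Nat.pair 2 (cw c i)) (cz c (i + 1)) (cz c i)

/-- `c` is a certificate for a response of the `e`-th structure -/
def Cert (d : Dt) (s e c : ℕ) : Prop := CertB s e c ∧ CertC d s e c

/-- agreement of data up to level `e` of stage `s` -/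
structure DEq (d d' : Dt) (s e : ℕ) : Prop where
  O : ∀ s' < s, ∀ i, d.O s' i = d'.O s' i
  C : ∀ s' < s, ∀ i, d.C s' i = d'.C s' i
  J : ∀ s' < s, d.J s' = d'.J s'
  pa : ∀ s' < s, d.pa s' = d'.pa s'
  X : ∀ s' < s, d.X s' = d'.X s'
  cur : ∀ i < e, d.O s i = d'.O s i

variable {d d' : Dt} {s e : ℕ}

theorem DEq.symm (h : DEq d d' s e) : DEq d' d s e :=
  ⟨fun s' h1 i => (h.O s' h1 i).symm, fun s' h1 i => (h.C s' h1 i).symm,
    fun s' h1 => (h.J s' h1).symm, fun s' h1 => (h.pa s' h1).symm,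
    fun s' h1 => (h.X s' h1).symm, fun i h1 => (h.cur i h1).symm⟩

theorem DEq.old (h : DEq d d' s e) : Dim.DEq d.toDat d'.toDat s e :=
  ⟨h.O, h.C, h.J, h.pa, h.cur⟩

theorem DEq.mono (h : DEq d d' s e) {e' : ℕ} (he : e' ≤ e) : DEq d d' s e' :=
  ⟨h.O, h.C, h.J, h.pa, h.X, fun i hi => h.cur i (by omega)⟩

theorem DEq.certC (h : DEq d d' s e) {c : ℕ} (hh : CertC d s e c) : CertC d' s e c := by
  intro s' hs' h1
  have h2 := hh s' hs' (h.symm.old.prevr hs' h1)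
  rw [h.C s' hs'] at h2
  exact h2

theorem DEq.cert (h : DEq d d' s e) {c : ℕ} : Cert d s e c ↔ Cert d' s e c :=
  ⟨fun hh => ⟨hh.1, h.certC hh.2⟩, fun hh => ⟨hh.1, h.symm.certC hh.2⟩⟩

theorem DEq.lb (h : DEq d d' s e) {j L : ℕ} (hj : j ≤ e) (hh : LB d s j L) : LB d' s j L := by
  refine ⟨hh.1, fun t ht hl => hh.2 t ht ?_⟩
  exact h.symm.old.lft (by omega) (le_refl s) hj hl

theorem DEq.lf (h : DEq d d' s e) {j L : ℕ} (hj : j ≤ e) (hh : Lf d s j L) : Lf d' s j L :=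
  ⟨h.lb hj hh.1, fun L' hL' hl => hh.2 L' hL' (h.symm.lb hj hl)⟩

theorem DEq.miss' (h : DEq d d' s e) {P : Pm} {j ξ : ℕ} (hj : j ≤ e)
    (hh : Miss d P s j ξ) : Miss d' P s j ξ := by
  refine ⟨hh.1, h.lf hj hh.2.1, hh.2.2.1, fun ⟨v, hv, h1, h2⟩ => hh.2.2.2 ⟨v, hv, ?_, ?_⟩⟩
  · exact h.symm.old.on hv hj h1
  · rw [h.X v hv, h2]

theorem DEq.miss (h : DEq d d' s e) {P : Pm} {j ξ : ℕ} (hj : j ≤ e) :
    Miss d P s j ξ ↔ Miss d' P s j ξ :=
  ⟨h.miss' hj, h.symm.miss' hj⟩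

/-- the conditions on the parent `v` of a node with label `j` and claims `ξ` born at `s` -/
def Prt (d : Dt) (s j ξ v : ℕ) : Prop := on d.toDat v s (prn j) ∧ Pf (d.X v) ξ

/-- the specification of the construction -/
structure Spec (P : Pm) (d : Dt) : Prop where
  yes : ∀ s e, e < s → (∃ c < s, Cert d s e c) →
    ∃ c < s, Cert d s e c ∧ d.C s e = c + 1 ∧ d.O s e = 1
  no : ∀ s e, ¬ (e < s ∧ ∃ c < s, Cert d s e c) → d.C s e = 0 ∧ d.O s e = 2
  zero : d.J 0 = 1 ∧ d.pa 0 = 0 ∧ d.X 0 = 0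
  succ : ∀ s, 1 ≤ s → (∃ j ξ, Miss d P s j ξ ∧ j ≤ s ∧ ξ ≤ s ∧
      (∀ j' < j, ∀ ξ' ≤ s, ¬ Miss d P s j' ξ') ∧ (∀ ξ' < ξ, ¬ Miss d P s j ξ') ∧
      d.J s = j + 1 ∧ d.X s = ξ ∧
      (prn j < j → (∃ v < s, Prt d s j ξ v) → d.pa s < s ∧ Prt d s j ξ (d.pa s))) ∨
    ((∀ j ≤ s, ∀ ξ ≤ s, ¬ Miss d P s j ξ) ∧ d.J s = 0 ∧ d.pa s = 0)

end Pool.Agent.H668
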