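import Mathlib
import Pool.Graph.R_seed8.Helper941.Dim.Build
import Pool.Agent.H668.Cons

set_option autoImplicit false

namespace Pool.Agent.H668

open Encodable Denumerable Nat.Partrec Pool.Agent.Helper941 Pool.Agent.Helper941.IsoProb
open Pool.Agent.Helper941.Zeta Pool.Agent.Helper941.Dim

/-- the data coded by two lists of numbers -/
def dft (H K : List ℕ) : Dt where
  toDat := dof (getc H)
  X := getc K

/-- computable parameters -/
structure PmC (P : Pm) : Prop where
  T : ComputablePred P.T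
  cq : Computable fun p : ℕ × ℕ => P.cq p.1 p.2

variable {α : Type} [Primcodable α] {H K : α → List ℕ}

theorem c_X {s : α → ℕ} (hK : Computable K) (hs : Computable s) :
    Computable fun a => (dft (H a) (K a)).X (s a) := c_getc hK hs

theorem p_Pf {a b : α → ℕ} (ha : Computable a) (hb : Computable b) :
    ComputablePred fun x => Pf (a x) (b x) := by
  unfold Pf
  exact p_and (p_le (c_lenj ha) (c_lenj hb)) (p_ball (c_lenj ha)
    (p_eq (c_dig (c_l ha) c_r) (c_dig (c_l hb) c_r)))

theorem p_LB {s j L : α → ℕ} (hH : Computable H) (hs : Computable s) (hj : Computable j)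
    (hL : Computable L) : ComputablePred fun a => LB (dft (H a) (K a)) (s a) (j a) (L a) := by
  unfold LB
  have h1 := p_lft (α := α × ℕ) (G := fun p => H p.1) (c_l hH) c_r (c_l hs) (c_l hj)
  exact p_and (p_le (c_lenj hj) hL) (p_ball hs (p_imp h1 (p_lt c_r (c_l hL))))

theorem p_Lf {s j L : α → ℕ} (hH : Computable H) (hs : Computable s) (hj : Computable j)
    (hL : Computable L) : ComputablePred fun a => Lf (dft (H a) (K a)) (s a) (j a) (L a) := by
  unfold Lf
  have h1 := p_LB (α := α × ℕ) (H := fun p => H p.1) (K := fun p => K p.1) (c_l hH) (c_l hs)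
    (c_l hj) c_r
  exact p_and (p_LB hH hs hj hL) (p_ball hL (p_not h1))

theorem p_Cs {P : Pm} (hP : PmC P) {j ξ : α → ℕ} (hj : Computable j) (hξ : Computable ξ) :
    ComputablePred fun a => Cs P (j a) (ξ a) := by
  unfold Cs
  have h1 : Computable fun p : α × ℕ => P.cq p.2 (dig (j p.1) p.2) :=
    hP.cq.comp (c_pair c_r (c_dig (c_l hj) c_r))
  exact p_and (p_ball (c_lenj hj) (p_eq (c_dig (c_l hξ) c_r) h1))
    (p_ball (c_lenj hξ) (p_lt (c_dig (c_l hξ) c_r) (c_const _)))

theorem p_Miss {P : Pm} (hP : PmC P) {s j ξ : α → ℕ} (hH : Computable H) (hK : Computable K)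
    (hs : Computable s) (hj : Computable j) (hξ : Computable ξ) :
    ComputablePred fun a => Miss (dft (H a) (K a)) P (s a) (j a) (ξ a) := by
  unfold Miss
  have h1 := p_on (α := α × ℕ) (G := fun p => H p.1) (c_l hH) c_r (c_l hs) (c_l hj)
  have h2 : ComputablePred fun p : α × ℕ => (dft (H p.1) (K p.1)).X p.2 = ξ p.1 :=
    p_eq (c_X (H := fun p : α × ℕ => H p.1) (c_l hK) c_r) (c_l hξ)
  exact p_and (computablePred_comp hP.T hj) (p_and (p_Lf hH hs hj (c_lenj hξ))
    (p_and (p_Cs hP hj hξ) (p_not (p_bex hs (p_and h1 h2)))))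

theorem p_Prt {s j ξ v : α → ℕ} (hH : Computable H) (hK : Computable K)
    (hs : Computable s) (hj : Computable j) (hξ : Computable ξ) (hv : Computable v) :
    ComputablePred fun a => Prt (dft (H a) (K a)) (s a) (j a) (ξ a) (v a) := by
  unfold Prt
  have h1 := p_on (G := H) hH hv hs (c_prn.comp hj)
  exact p_and h1 (p_Pf (c_X (H := H) hK hv) hξ)

theorem c_cM {c : α → ℕ} (hc : Computable c) : Computable fun a => cM (c a) := c_up1 hc

theorem c_cy {c i : α → ℕ} (hc : Computable c) (hi : Computable i) :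
    Computable fun a => cy (c a) (i a) := c_ent (c_up1 (c_up2 hc)) hi

theorem c_cl {c : α → ℕ} (hc : Computable c) : Computable fun a => cl (c a) :=
  c_up1 (c_up2 (c_up2 hc))

theorem c_cz {c i : α → ℕ} (hc : Computable c) (hi : Computable i) :
    Computable fun a => cz (c a) (i a) := c_ent (c_up1 (c_up2 (c_up2 (c_up2 hc)))) hi

theorem c_cw {c i : α → ℕ} (hc : Computable c) (hi : Computable i) :
    Computable fun a => cw (c a) (i a) := c_ent (c_up2 (c_up2 (c_up2 (c_up2 hc)))) hi

theorem p_certB' {s e c : α → ℕ} (hs : Computable s) (he : Computable e) (hc : Computable c) :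
    ComputablePred fun a => CertB (s a) (e a) (c a) := by
  unfold CertB
  refine p_and (p_ball (c_succ (c_cM hc)) (p_Fa (c_l he) (c_l hs) (c_npair (c_const 1) c_r)
    (c_cy (c_l hc) c_r) (c_cy (c_l hc) c_r))) (p_ball (c_cM hc)
    (p_Fa (c_l he) (c_l hs) (c_const _) (c_cy (c_l hc) (c_succ c_r)) (c_cy (c_l hc) c_r)))

theorem p_certC' {s e c : α → ℕ} (hH : Computable H)
    (hs : Computable s) (he : Computable e) (hc : Computable c) :
    ComputablePred fun a => CertC (dft (H a) (K a)) (s a) (e a) (c a) := by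
  unfold CertC
  have h1 := p_prevr (α := α × ℕ) (G := fun p => H p.1) (c_l hH) c_r (c_l hs) (c_l he)
  have c1 : Computable fun p : α × ℕ => (dft (H p.1) (K p.1)).C p.2 (e p.1) - 1 :=
    c_sub (Dim.c_C (c_l hH) c_r (c_l he)) (c_const 1)
  have h2 : ComputablePred fun p : α × ℕ => cM (c p.1) = p.2 := p_eq (c_cM (c_l hc)) c_r
  have h3 : ComputablePred fun p : α × ℕ => cz (c p.1) 0 =
      cy ((dft (H p.1) (K p.1)).C p.2 (e p.1) - 1)
        (cM ((dft (H p.1) (K p.1)).C p.2 (e p.1) - 1)) :=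
    p_eq (c_cz (c_l hc) (c_const 0)) (c_cy c1 (c_cM c1))
  have h4 : ComputablePred fun p : α × ℕ => cz (c p.1) (cl (c p.1)) =
      cy (c p.1) (cM ((dft (H p.1) (K p.1)).C p.2 (e p.1) - 1)) :=
    p_eq (c_cz (c_l hc) (c_cl (c_l hc))) (c_cy (c_l hc) (c_cM c1))
  have z0 : Computable fun p : α × ℕ => cz (c p.1) p.2 := c_cz (c_l hc) c_r
  have z1 : Computable fun p : α × ℕ => cz (c p.1) (p.2 + 1) := c_cz (c_l hc) (c_succ c_r)
  have w0 : Computable fun p : α × ℕ => Nat.pair 2 (cw (c p.1) p.2) :=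
    c_npair (c_const 2) (c_cw (c_l hc) c_r)
  have h5 : ComputablePred fun a : α => ∀ i < cl (c a),
      Fa (e a) (s a) (Nat.pair 2 (cw (c a) i)) (cz (c a) i) (cz (c a) (i + 1)) ∨
      Fa (e a) (s a) (Nat.pair 2 (cw (c a) i)) (cz (c a) (i + 1)) (cz (c a) i) :=
    p_ball (c_cl hc) (p_or (p_Fa (c_l he) (c_l hs) w0 z0 z1) (p_Fa (c_l he) (c_l hs) w0 z1 z0))
  have h6 := computablePred_comp h5 (c_fst (c_id (α := α × ℕ)))
  exact p_ball hs (p_imp h1 (p_and h2 (p_and h3 (p_and h4 h6))))

theorem p_cert' {s e c : α → ℕ} (hH : Computable H)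
    (hs : Computable s) (he : Computable e) (hc : Computable c) :
    ComputablePred fun a => Cert (dft (H a) (K a)) (s a) (e a) (c a) := by
  unfold Cert
  exact p_and (p_certB' hs he hc) (p_certC' hH hs he hc)

end Pool.Agent.H668
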