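import Mathlib
import Pool.Agent.H668.Comp

set_option autoImplicit false

namespace Pool.Agent.H668

open Encodable Denumerable Nat.Partrec Pool.Agent.Helper941 Pool.Agent.Helper941.IsoProb
open Pool.Agent.Helper941.Zeta
open Pool.Agent.Helper941.Dim hiding entry row row_zero row_succ row_length row_get nxt hist
  hist_succ hist_length hist_get hh getc_hist con c_entry c_row c_nxt c_hist c_hh con_O con_C
  con_J con_pa hh_row con_ent con_ent' getc_ext getc_ext' entry_eq deq_con con_spec

variable {α : Type} [Primcodable α]

open Classical in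
/-- the entry of the opponent `w.length` at the stage `H.length` -/
noncomputable def entry (H w : List ℕ) : ℕ :=
  if lst H.length (Cert (dft (ext H w) []) H.length w.length) < H.length ∧
    w.length < H.length then
    Nat.pair 1 (lst H.length (Cert (dft (ext H w) []) H.length w.length) + 1)
  else 0

noncomputable def row (H : List ℕ) (n : ℕ) : List ℕ :=
  Nat.rec [] (fun _ w => w ++ [entry H w]) n

theorem row_succ (H : List ℕ) (n : ℕ) : row H (n + 1) = row H n ++ [entry H (row H n)] := rfl

theorem row_length (H : List ℕ) (n : ℕ) : (row H n).length = n := by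
  induction n with
  | zero => rfl
  | succ n ih => rw [row_succ, List.length_append, ih]; rfl

theorem row_get (H : List ℕ) {n i : ℕ} (h : i < n) :
    (row H n)[i]? = some (entry H (row H i)) := by
  induction n with
  | zero => omega
  | succ n ih =>
    rw [row_succ]
    by_cases h1 : i < n
    · rw [List.getElem?_append_left (by rw [row_length]; exact h1), ih h1]
    · have : i = n := by omega
      subst this
      rw [List.getElem?_append_right (by rw [row_length])]
      simp [row_length]

/-- the current data -/
noncomputable def DD (q : List ℕ × List ℕ) : Dt := dft (ext q.1 (row q.1 q.1.length)) q.2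

/-- the label of the new node -/
noncomputable def jj (P : Pm) (q : List ℕ × List ℕ) : ℕ :=
  lst (q.1.length + 1) fun j => ∃ ξ < q.1.length + 1, Miss (DD q) P q.1.length j ξ

/-- the claims of the new node -/
noncomputable def xj (P : Pm) (q : List ℕ × List ℕ) : ℕ :=
  lst (q.1.length + 1) fun ξ => Miss (DD q) P q.1.length (jj P q) ξ

/-- the parent of the new node -/
noncomputable def vj (P : Pm) (q : List ℕ × List ℕ) : ℕ :=
  lst q.1.length fun v => Prt (DD q) q.1.length (jj P q) (xj P q) v

open Classical in
noncomputable def nxt (P : Pm) (q : List ℕ × List ℕ) : ℕ × ℕ :=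
  if q.1.length = 0 then (Nat.pair 1 (Nat.pair 0 (encode (row q.1 q.1.length))), 0)
  else if jj P q < q.1.length + 1 then
    (Nat.pair (jj P q + 1) (Nat.pair (vj P q) (encode (row q.1 q.1.length))), xj P q)
  else (Nat.pair 0 (Nat.pair 0 (encode (row q.1 q.1.length))), 0)

noncomputable def hist (P : Pm) (n : ℕ) : List ℕ × List ℕ :=
  Nat.rec ([], []) (fun _ q => (q.1 ++ [(nxt P q).1], q.2 ++ [(nxt P q).2])) n

theorem hist_succ (P : Pm) (n : ℕ) : hist P (n + 1) =
    ((hist P n).1 ++ [(nxt P (hist P n)).1], (hist P n).2 ++ [(nxt P (hist P n)).2]) := rfl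

theorem hist_length (P : Pm) (n : ℕ) : (hist P n).1.length = n := by
  induction n with
  | zero => rfl
  | succ n ih => rw [hist_succ]; rw [List.length_append, ih]; rfl

theorem hist_length' (P : Pm) (n : ℕ) : (hist P n).2.length = n := by
  induction n with
  | zero => rfl
  | succ n ih => rw [hist_succ]; rw [List.length_append, ih]; rfl

theorem hist_get (P : Pm) {n i : ℕ} (h : i < n) :
    (hist P n).1[i]? = some (nxt P (hist P i)).1 := by
  induction n with
  | zero => omega
  | succ n ih =>
    rw [hist_succ]
    by_cases h1 : i < n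
    · rw [List.getElem?_append_left (by rw [hist_length]; exact h1), ih h1]
    · have : i = n := by omega
      subst this
      rw [List.getElem?_append_right (by rw [hist_length])]
      simp [hist_length]

theorem hist_get' (P : Pm) {n i : ℕ} (h : i < n) :
    (hist P n).2[i]? = some (nxt P (hist P i)).2 := by
  induction n with
  | zero => omega
  | succ n ih =>
    rw [hist_succ]
    by_cases h1 : i < n
    · rw [List.getElem?_append_left (by rw [hist_length']; exact h1), ih h1]
    · have : i = n := by omega
      subst this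
      rw [List.getElem?_append_right (by rw [hist_length'])]
      simp [hist_length']

noncomputable def hh (P : Pm) (s : ℕ) : ℕ := (nxt P (hist P s)).1

theorem getc_hist (P : Pm) {n i : ℕ} (h : i < n) : getc (hist P n).1 i = hh P i := by
  unfold getc hh
  rw [hist_get P h]
  rfl

theorem getc_hist' (P : Pm) {n i : ℕ} (h : i < n) :
    getc (hist P n).2 i = (nxt P (hist P i)).2 := by
  unfold getc
  rw [hist_get' P h]
  rfl

/-- the construction -/
noncomputable def con (P : Pm) : Dt where
  toDat := dof (hh P)
  X s := (nxt P (hist P s)).2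

/-! ### computability -/

open Classical in
theorem c_entry {G w : α → List ℕ} (hG : Computable G)
    (hw : Computable w) : Computable fun a => entry (G a) (w a) := by
  have hE : Computable fun a => ext (G a) (w a) := c_ext hG hw
  have hl : Computable fun a => lst (G a).length
      (Cert (dft (ext (G a) (w a)) []) (G a).length (w a).length) :=
    c_lst (c_len hG) (p_cert' (α := α × ℕ) (K := fun _ => []) (c_l hE) (c_l (c_len hG))
      (c_l (c_len hw)) c_r)
  unfold entry
  exact c_ite (p_and (p_lt hl (c_len hG)) (p_lt (c_len hw) (c_len hG)))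
    (c_npair (c_const 1) (c_succ hl)) (c_const 0)

theorem c_row {G : α → List ℕ} {n : α → ℕ}
    (hG : Computable G) (hn : Computable n) : Computable fun a => row (G a) (n a) := by
  unfold row
  refine Computable.nat_rec (f := n) (g := fun _ => ([] : List ℕ))
    (h := fun (a : α) (q : ℕ × List ℕ) => q.2 ++ [entry (G a) q.2]) hn (c_const []) ?_
  have h1 : Computable fun p : α × ℕ × List ℕ => p.2.2 := c_snd (c_snd c_id)
  have h2 : Computable fun p : α × ℕ × List ℕ => G p.1 := hG.comp (c_fst c_id)
  exact Computable.list_concat.comp h1 (c_entry h2 h1)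

theorem c_jj {P : Pm} (hP : PmC P) {q : α → List ℕ × List ℕ} (hq : Computable q) :
    Computable fun a => jj P (q a) := by
  have hG : Computable fun a => (q a).1 := c_fst hq
  have hK : Computable fun a => (q a).2 := c_snd hq
  have hE : Computable fun a => ext (q a).1 (row (q a).1 (q a).1.length) :=
    c_ext hG (c_row hG (c_len hG))
  unfold jj
  refine c_lst (c_succ (c_len hG)) (p_bex (c_succ (c_len (c_l hG))) ?_)
  exact p_Miss (α := (α × ℕ) × ℕ) hP (H := fun p => ext (q p.1.1).1 (row (q p.1.1).1
    (q p.1.1).1.length)) (K := fun p => (q p.1.1).2) (c_l (c_l hE)) (c_l (c_l hK))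
    (c_l (c_l (c_len hG))) (c_l c_r) c_r

theorem c_xj {P : Pm} (hP : PmC P) {q : α → List ℕ × List ℕ} (hq : Computable q) :
    Computable fun a => xj P (q a) := by
  have hG : Computable fun a => (q a).1 := c_fst hq
  have hK : Computable fun a => (q a).2 := c_snd hq
  have hE : Computable fun a => ext (q a).1 (row (q a).1 (q a).1.length) :=
    c_ext hG (c_row hG (c_len hG))
  unfold xj
  refine c_lst (c_succ (c_len hG)) ?_
  exact p_Miss (α := α × ℕ) hP (H := fun p => ext (q p.1).1 (row (q p.1).1
    (q p.1).1.length)) (K := fun p => (q p.1).2) (c_l hE) (c_l hK)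
    (c_l (c_len hG)) (c_l (c_jj hP hq)) c_r

theorem c_vj {P : Pm} (hP : PmC P) {q : α → List ℕ × List ℕ} (hq : Computable q) :
    Computable fun a => vj P (q a) := by
  have hG : Computable fun a => (q a).1 := c_fst hq
  have hK : Computable fun a => (q a).2 := c_snd hq
  have hE : Computable fun a => ext (q a).1 (row (q a).1 (q a).1.length) :=
    c_ext hG (c_row hG (c_len hG))
  unfold vj
  refine c_lst (c_len hG) ?_
  exact p_Prt (α := α × ℕ) (H := fun p => ext (q p.1).1 (row (q p.1).1
    (q p.1).1.length)) (K := fun p => (q p.1).2) (c_l hE) (c_l hK)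
    (c_l (c_len hG)) (c_l (c_jj hP hq)) (c_l (c_xj hP hq)) c_r

open Classical in
theorem c_nxt {P : Pm} (hP : PmC P) {q : α → List ℕ × List ℕ} (hq : Computable q) :
    Computable fun a => nxt P (q a) := by
  have hG : Computable fun a => (q a).1 := c_fst hq
  have he : Computable fun a => encode (row (q a).1 (q a).1.length) :=
    Computable.encode.comp (c_row hG (c_len hG))
  unfold nxt
  exact c_ite (p_eq (c_len hG) (c_const 0))
    (c_pair (c_npair (c_const 1) (c_npair (c_const 0) he)) (c_const 0))
    (c_ite (p_lt (c_jj hP hq) (c_succ (c_len hG)))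
      (c_pair (c_npair (c_succ (c_jj hP hq)) (c_npair (c_vj hP hq) he)) (c_xj hP hq))
      (c_pair (c_npair (c_const 0) (c_npair (c_const 0) he)) (c_const 0)))

theorem c_hist {P : Pm} (hP : PmC P) : Computable (hist P) := by
  unfold hist
  refine Computable.nat_rec (f := fun n : ℕ => n) (g := fun _ => (([], []) : List ℕ × List ℕ))
    (h := fun (_ : ℕ) (q : ℕ × List ℕ × List ℕ) =>
      (q.2.1 ++ [(nxt P q.2).1], q.2.2 ++ [(nxt P q.2).2])) c_id (c_const ([], [])) ?_
  have h1 : Computable fun p : ℕ × ℕ × List ℕ × List ℕ => p.2.2 := c_snd (c_snd c_id)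
  have h2 := c_nxt hP h1
  exact c_pair (Computable.list_concat.comp (c_fst h1) (c_fst h2))
    (Computable.list_concat.comp (c_snd h1) (c_snd h2))

/-- computable data -/
structure DtC (d : Dt) : Prop where
  O : Computable fun p : ℕ × ℕ => d.O p.1 p.2
  C : Computable fun p : ℕ × ℕ => d.C p.1 p.2
  J : Computable d.J
  pa : Computable d.pa
  X : Computable d.X

theorem con_comp {P : Pm} (hP : PmC P) : DtC (con P) := by
  have h1 : Computable (hh P) := c_fst (c_nxt hP (c_hist hP))
  have h2 : Computable fun p : ℕ × ℕ => hh P p.1 := h1.comp (c_fst c_id)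
  exact ⟨c_sub (c_const 2) (c_up1 (c_ent (c_up2 (c_up2 h2)) (c_snd c_id))),
    c_up2 (c_ent (c_up2 (c_up2 h2)) (c_snd c_id)), c_up1 h1, c_up1 (c_up2 h1),
    c_snd (c_nxt hP (c_hist hP))⟩

/-! ### the specification -/

theorem hh_row (P : Pm) (s : ℕ) :
    (hh P s).unpair.2.unpair.2 = encode (row (hist P s).1 s) := by
  unfold hh nxt
  rw [hist_length]
  split_ifs <;> simp

theorem con_ent (P : Pm) {s e : ℕ} (h : e < s) :
    ent (hh P s).unpair.2.unpair.2 e = entry (hist P s).1 (row (hist P s).1 e) := by
  unfold ent
  rw [hh_row, ofNat_encode, row_get _ h]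
  rfl

theorem con_ent' (P : Pm) {s e : ℕ} (h : s ≤ e) :
    ent (hh P s).unpair.2.unpair.2 e = 0 := by
  unfold ent
  rw [hh_row, ofNat_encode, List.getElem?_eq_none (by rw [row_length]; exact h)]
  rfl

theorem getc_ext (P : Pm) {s s' : ℕ} (h : s' < s) (w : List ℕ) :
    getc (ext (hist P s).1 w) s' = hh P s' := by
  rw [← getc_hist P h]
  unfold getc ext
  rw [List.getElem?_append_left (by rw [hist_length]; exact h)]

theorem getc_ext' (P : Pm) (s : ℕ) (w : List ℕ) :
    getc (ext (hist P s).1 w) s = Nat.pair 0 (Nat.pair 0 (encode w)) := by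
  unfold getc ext
  rw [List.getElem?_append_right (by rw [hist_length]), hist_length]
  simp

open Classical in
theorem entry_eq {H w : List ℕ} {s e : ℕ} (h1 : H.length = s)
    (h2 : w.length = e) : entry H w =
    if lst s (Cert (dft (ext H w) []) s e) < s ∧ e < s then
      Nat.pair 1 (lst s (Cert (dft (ext H w) []) s e) + 1) else 0 := by
  subst h1 h2
  rfl

theorem deq_con (P : Pm) {s e : ℕ} (he : e ≤ s) :
    DEq (dft (ext (hist P s).1 (row (hist P s).1 e)) (hist P s).2) (con P) s e where
  O := fun s' hs' i => by
    show dO (getc _ s') i = dO (hh P s') i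
    rw [getc_ext P hs']
  C := fun s' hs' i => by
    show dC (getc _ s') i = dC (hh P s') i
    rw [getc_ext P hs']
  J := fun s' hs' => by
    show dJ (getc _ s') = dJ (hh P s')
    rw [getc_ext P hs']
  pa := fun s' hs' => by
    show dP (getc _ s') = dP (hh P s')
    rw [getc_ext P hs']
  X := fun s' hs' => getc_hist' P hs'
  cur := fun i hi => by
    show dO (getc _ s) i = dO (hh P s) i
    rw [getc_ext']
    unfold dO
    rw [con_ent P (by omega : i < s)]
    simp only [Nat.unpair_pair]
    unfold ent
    rw [ofNat_encode, row_get _ hi]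
    rfl

theorem cert_dft {H K K' : List ℕ} {s e c : ℕ} :
    Cert (dft H K) s e c ↔ Cert (dft H K') s e c := Iff.rfl

theorem hh_eq (P : Pm) (s : ℕ) : hh P s = (nxt P (hist P s)).1 := rfl

theorem con_spec (P : Pm) : Spec P (con P) where
  yes := by
    intro s e hes ⟨c0, hc0, hC0⟩
    have hd := deq_con P (show e ≤ s by omega)
    set R := Cert (dft (ext (hist P s).1 (row (hist P s).1 e)) []) s e with hR
    have h0 : R c0 := hd.cert.2 hC0
    have hlt : lst s R < s := lt_of_le_of_lt (lst_le h0) hc0
    have hm : R (lst s R) := lst_prop hlt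
    have hm' : Cert (con P) s e (lst s R) := hd.cert.1 hm
    have hent : ent (hh P s).unpair.2.unpair.2 e =
        entry (hist P s).1 (row (hist P s).1 e) := con_ent P hes
    rw [entry_eq (hist_length P s) (row_length _ e), if_pos ⟨hlt, hes⟩] at hent
    refine ⟨lst s R, hlt, hm', ?_, ?_⟩
    · show dC (hh P s) e = _
      unfold dC
      rw [hent, Nat.unpair_pair]
    · show dO (hh P s) e = _
      unfold dO
      rw [hent, Nat.unpair_pair]
      rfl
  no := by
    intro s e hn
    have key : ent (hh P s).unpair.2.unpair.2 e = 0 := by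
      by_cases hes : e < s
      · rw [con_ent P hes]
        rw [entry_eq (hist_length P s) (row_length _ e), if_neg]
        rintro ⟨h1, h2⟩
        exact hn ⟨h2, _, h1, (deq_con P (show e ≤ s by omega)).cert.1
          (lst_prop (P := Cert (dft (ext (hist P s).1 (row (hist P s).1 e)) []) s e) h1)⟩
      · exact con_ent' P (by omega)
    constructor
    · show dC (hh P s) e = _
      unfold dC
      rw [key, unpair_zero']
    · show dO (hh P s) e = _
      unfold dO
      rw [key, unpair_zero']
      rfl
  zero := by
    have h0 : (hist P 0).1.length = 0 := rfl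
    refine ⟨?_, ?_, ?_⟩
    · show dJ (nxt P (hist P 0)).1 = _
      unfold nxt dJ
      rw [if_pos h0, Nat.unpair_pair]
    · show dP (nxt P (hist P 0)).1 = _
      unfold nxt dP
      rw [if_pos h0, Nat.unpair_pair, Nat.unpair_pair]
    · show (nxt P (hist P 0)).2 = _
      unfold nxt
      rw [if_pos h0]
  succ := by
    intro s hs
    have hd := deq_con P (le_refl s)
    have hDD : DD (hist P s) = dft (ext (hist P s).1 (row (hist P s).1 s)) (hist P s).2 := by
      unfold DD
      rw [hist_length]
    rw [← hDD] at hd
    have hval : nxt P (hist P s) = nxt P (hist P s) := rfl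
    conv_rhs at hval => unfold nxt
    rw [hist_length, if_neg (by omega)] at hval
    have hjd : jj P (hist P s) = lst (s + 1) fun j => ∃ ξ < s + 1,
        Miss (DD (hist P s)) P s j ξ := by unfold jj; rw [hist_length]
    have hxd : xj P (hist P s) = lst (s + 1) fun ξ =>
        Miss (DD (hist P s)) P s (jj P (hist P s)) ξ := by unfold xj; rw [hist_length]
    have hvd : vj P (hist P s) = lst s fun v =>
        Prt (DD (hist P s)) s (jj P (hist P s)) (xj P (hist P s)) v := by
      unfold vj; rw [hist_length]
    set j := jj P (hist P s) with hj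
    set ξ := xj P (hist P s) with hx
    by_cases hjs : j < s + 1
    · left
      rw [if_pos hjs] at hval
      obtain ⟨ξ0, hξ0, hM0⟩ : ∃ ξ < s + 1, Miss (DD (hist P s)) P s j ξ := by
        rw [hjd] at hjs ⊢
        exact lst_prop hjs
      have hξs : ξ < s + 1 := by
        rw [hxd]
        exact lt_of_le_of_lt (lst_le hM0) hξ0
      have hM : Miss (DD (hist P s)) P s j ξ := by
        rw [hxd] at hξs ⊢
        exact lst_prop hξs
      refine ⟨j, ξ, (hd.miss (by omega)).1 hM, by omega, by omega, ?_, ?_, ?_, ?_, ?_⟩
      · intro j' hj' ξ' hξ' hM'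
        rw [hjd] at hj'
        exact lst_not hj' ⟨ξ', by omega, (hd.miss (by
          have := lst_le (s := s + 1) (P := fun j => ∃ ξ < s + 1,
            Miss (DD (hist P s)) P s j ξ) ⟨ξ0, hξ0, hM0⟩
          omega)).2 hM'⟩
      · intro ξ' hξ' hM'
        rw [hxd] at hξ'
        exact lst_not hξ' ((hd.miss (by omega)).2 hM')
      · show dJ (nxt P (hist P s)).1 = _
        unfold dJ
        rw [hval, Nat.unpair_pair]
      · show (nxt P (hist P s)).2 = _
        rw [hval]
      · intro hpj ⟨v, hv, hv1, hv2⟩
        have hp : dP (nxt P (hist P s)).1 = lst s fun v =>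
            Prt (DD (hist P s)) s j ξ v := by
          unfold dP
          rw [hval, Nat.unpair_pair, Nat.unpair_pair, hvd]
        have hPv : Prt (DD (hist P s)) s j ξ v := by
          refine ⟨hd.symm.old.on hv (by omega) hv1, ?_⟩
          rw [hd.X v hv]; exact hv2
        have hlt : (lst s fun v => Prt (DD (hist P s)) s j ξ v) < s :=
          lt_of_le_of_lt (lst_le hPv) hv
        show dP (nxt P (hist P s)).1 < s ∧ Prt (con P) s j ξ (dP (nxt P (hist P s)).1)
        rw [hp]
        obtain ⟨h1, h2⟩ := lst_prop hlt
        refine ⟨hlt, hd.old.on hlt (by omega) h1, ?_⟩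
        rw [← hd.X _ hlt]; exact h2
    · right
      rw [if_neg hjs] at hval
      refine ⟨?_, ?_, ?_⟩
      · intro j' hj' ξ' hξ' hM'
        rw [hjd] at hjs
        exact lst_not (s := s + 1) (P := fun j => ∃ ξ < s + 1,
          Miss (DD (hist P s)) P s j ξ) (m := j') (by omega)
          ⟨ξ', by omega, (hd.miss (by omega)).2 hM'⟩
      · show dJ (nxt P (hist P s)).1 = _
        unfold dJ
        rw [hval, Nat.unpair_pair]
      · show dP (nxt P (hist P s)).1 = _
        unfold dP
        rw [hval, Nat.unpair_pair, Nat.unpair_pair]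

end Pool.Agent.H668
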