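import Mathlib
import Pool.Agent.H668.Cons

set_option autoImplicit false

namespace Pool.Agent.H668

open Encodable Denumerable Nat.Partrec Pool.Agent.Helper941 Pool.Agent.Helper941.IsoProb
open Pool.Agent.Helper941.Zeta Pool.Agent.Helper941.Dim

variable {d : Dt} {P : Pm} {g : ℕ → ℕ}

/-! ### sequences -/

theorem Pf.refl (a : ℕ) : Pf a a := ⟨le_refl _, fun _ _ => rfl⟩

theorem Pf.trans {a b c : ℕ} (h : Pf a b) (h' : Pf b c) : Pf a c :=
  ⟨h.1.trans h'.1, fun y hy => by rw [h.2 y hy, h'.2 y (by have := h.1; omega)]⟩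

theorem len_zero' : len 0 = 0 := by
  unfold len
  rw [seq_zero]
  rfl

theorem eq_zero_of_len {ξ : ℕ} (h : len ξ = 0) : ξ = 0 := by
  by_contra hc
  obtain ⟨a, l, hs⟩ := seq_pos (show 1 ≤ ξ by omega)
  unfold len at h
  rw [hs] at h
  simp at h

theorem nod_le_succ (f : ℕ → ℕ) (i : ℕ) : nod f i ≤ nod f (i + 1) := by
  have h := prn_lt (nod_pos f i)
  rw [prn_nod] at h
  exact le_of_lt h

theorem nod_mono (f : ℕ → ℕ) {i j : ℕ} (h : i ≤ j) : nod f i ≤ nod f j := by
  induction j, h using Nat.le_induction with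
  | base => exact le_refl _
  | succ j _ ih => exact le_trans ih (nod_le_succ f j)

theorem nod_dig (ξ : ℕ) : nod (dig ξ) (len ξ) = ξ := (nod_ext fun _ _ => rfl).symm

theorem nod_dig_le {ξ L : ℕ} (h : L ≤ len ξ) : nod (dig ξ) L ≤ ξ := by
  conv_rhs => rw [← nod_dig ξ]
  exact nod_mono _ h

theorem pf_nod {f : ℕ → ℕ} {L ξ : ℕ} (h : L ≤ len ξ) (h' : ∀ y < L, f y = dig ξ y) :
    Pf (nod f L) ξ := by
  refine ⟨by rw [len_nod]; exact h, fun y hy => ?_⟩
  rw [len_nod] at hy
  rw [dig_nod f hy]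
  exact h' y hy

theorem pf_prn {j : ℕ} (h : 1 ≤ j) : Pf (prn j) j := by
  have := len_prn h
  exact ⟨by omega, fun y hy => dig_prn h hy⟩

theorem pf_eq {a b : ℕ} (h : Pf a b) (h' : len a = len b) : a = b := by
  rw [← nod_dig b, ← h']
  exact nod_ext h.2

/-- a bound for the sequences of length `L` with entries less than `Q` -/
def bd (Q : ℕ) : ℕ → ℕ
  | 0 => 0
  | L + 1 => Nat.pair Q (bd Q L) + 1

theorem le_bd {Q : ℕ} : ∀ (L ξ : ℕ), len ξ = L → (∀ y < len ξ, dig ξ y < Q) → ξ ≤ bd Q L := by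
  intro L
  induction L with
  | zero =>
    intro ξ h _
    rw [eq_zero_of_len h]
    exact Nat.zero_le _
  | succ L ih =>
    intro ξ h hd
    have hξ : 1 ≤ ξ := by
      by_contra hc
      have : ξ = 0 := by omega
      rw [this, len_zero'] at h
      omega
    have h1 := len_prn hξ
    have h2 := ih (prn ξ) (by omega) fun y hy => by
      rw [dig_prn hξ hy]
      exact hd y (by omega)
    obtain ⟨a, l, hs⟩ := seq_pos hξ
    have h3 : dig ξ L = a := by
      unfold dig ent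
      show ((seq ξ)[len ξ - 1 - L]?).getD 0 = a
      rw [hs, h]
      simp
    have h4 := hd L (by omega)
    rw [h3] at h4
    have h5 : ξ = Nat.pair a (prn ξ) + 1 := by
      conv_lhs => rw [← encode_seq ξ]
      rw [hs, encode_list_cons]
      unfold prn
      rw [hs]
      rfl
    rw [h5]
    show Nat.pair a (prn ξ) + 1 ≤ Nat.pair Q (bd Q L) + 1
    have h6 : Nat.pair a (prn ξ) ≤ Nat.pair Q (prn ξ) :=
      le_of_lt (Nat.pair_lt_pair_left _ h4)
    have h7 : Nat.pair Q (prn ξ) ≤ Nat.pair Q (bd Q L) := by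
      rcases Nat.eq_or_lt_of_le h2 with h8 | h8
      · rw [h8]
      · exact le_of_lt (Nat.pair_lt_pair_right _ h8)
    omega

/-! ### lengths of claims -/

theorem lf_exists (d : Dt) (s j : ℕ) : ∃ L, Lf d s j L := by
  classical
  have h : ∃ L, LB d s j L := ⟨len j + s, by omega, fun t ht _ => by omega⟩
  exact ⟨Nat.find h, Nat.find_spec h, fun L' hL' => Nat.find_min h hL'⟩

theorem lf_uniq {s j L L' : ℕ} (h : Lf d s j L) (h' : Lf d s j L') : L = L' := by
  rcases lt_trichotomy L L' with h1 | h1 | h1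
  · exact (h'.2 L h1 h.1).elim
  · exact h1
  · exact (h.2 L' h1 h'.1).elim

theorem lf_congr {s s' j L : ℕ} (h : ∀ L, LB d s j L ↔ LB d s' j L) (h' : Lf d s j L) :
    Lf d s' j L := ⟨(h L).1 h'.1, fun L' hL' hl => h'.2 L' hL' ((h L').2 hl)⟩

theorem lft_irrefl {s j : ℕ} : ¬ lft d.toDat s s j := by
  rintro ⟨i, _, _, h⟩
  exact lt_irrefl _ h

theorem lb_iff {v s j : ℕ} (hv : v ≤ s) (ha : agr d.toDat v s j)
    (hl : ∀ t, v < t → t < s → ¬ lft d.toDat t v j) (L : ℕ) :
    LB d v j L ↔ LB d s j L := by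
  unfold LB
  refine and_congr Iff.rfl ⟨fun h t ht hlt => ?_, fun h t ht hlt => ?_⟩
  · have h1 : lft d.toDat t v j := hlt.congr ha.symm
    rcases lt_trichotomy t v with h2 | h2 | h2
    · exact h t h2 h1
    · rw [h2] at h1
      exact (lft_irrefl h1).elim
    · exact (hl t h2 ht h1).elim
  · exact h t (by omega) (hlt.congr ha)

/-! ### facts on the nodes -/

theorem Spec.O_cases (hS : Spec P d) (s e : ℕ) : d.O s e = 1 ∨ d.O s e = 2 := by
  by_cases h : e < s ∧ ∃ c < s, Cert d s e c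
  · obtain ⟨c, _, _, _, h1⟩ := hS.yes s e h.1 h.2
    exact Or.inl h1
  · exact Or.inr (hS.no s e h).2

theorem Spec.O_le (hS : Spec P d) (s e : ℕ) : d.O s e ≤ 2 := by
  rcases hS.O_cases s e with h | h <;> omega

theorem Spec.C_ne (hS : Spec P d) {s e : ℕ} (h : ¬ d.C s e = 0) :
    Cert d s e (d.C s e - 1) ∧ d.O s e = 1 ∧ d.C s e - 1 < s := by
  by_cases hc : e < s ∧ ∃ c < s, Cert d s e c
  · obtain ⟨c, h0, h1, h2, h3⟩ := hS.yes s e hc.1 hc.2
    have h4 : d.C s e - 1 = c := by omega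
    rw [h4]
    exact ⟨h1, h3, h0⟩
  · exact (h (hS.no s e hc).1).elim

theorem Spec.O_ne (hS : Spec P d) {s e : ℕ} (h : ¬ d.O s e = 2) : ¬ d.C s e = 0 := by
  by_cases hc : e < s ∧ ∃ c < s, Cert d s e c
  · obtain ⟨c, _, _, h2, _⟩ := hS.yes s e hc.1 hc.2
    omega
  · exact (h (hS.no s e hc).2).elim

theorem Spec.on_zero (hS : Spec P d) (s : ℕ) : on d.toDat 0 s 0 :=
  ⟨hS.zero.1, fun i hi => by omega, fun s' _ _ hl => by
    rw [hS.zero.1] at hl
    obtain ⟨i, hi, _⟩ := hl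
    omega⟩

theorem lf_zero {s L : ℕ} (h : Lf d s 0 L) : L = 0 := by
  by_contra hc
  refine h.2 0 (by omega) ⟨by rw [len_zero'], fun t _ hl => ?_⟩
  obtain ⟨i, hi, _⟩ := hl
  omega

theorem Spec.miss_pos (hS : Spec P d) {s j ξ : ℕ} (hs : 1 ≤ s) (h : Miss d P s j ξ) :
    1 ≤ j := by
  by_contra hc
  have h0 : j = 0 := by omega
  subst h0
  have h1 := eq_zero_of_len (lf_zero h.2.1)
  exact h.2.2.2 ⟨0, by omega, hS.on_zero s, by rw [hS.zero.2.2, h1]⟩

/-- the properties of the parent of a new node -/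
structure Child (P : Pm) (d : Dt) (u j : ℕ) : Prop where
  pos : 1 ≤ j
  T : P.T j
  lt : d.pa u < u
  on : on d.toDat (d.pa u) u (prn j)
  pf : Pf (d.X (d.pa u)) (d.X u)
  lf : Lf d u j (len (d.X u))
  cs : Cs P j (d.X u)
  new : ¬ ∃ v < u, Dim.on d.toDat v u j ∧ d.X v = d.X u
  miss : Miss d P u j (d.X u)

theorem Spec.child (hS : Spec P d) (hT : TH P.T prn) {u j : ℕ} (hu : 1 ≤ u)
    (hj : d.J u = j + 1) : Child P d u j := by
  rcases hS.succ u hu with ⟨k, ξ, h1, h2, h3, h4, h5, h6, h7, h8⟩ | ⟨_, h1, _⟩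
  · have hk : k = j := by omega
    subst hk
    have hk1 := hS.miss_pos hu h1
    have hlt := hT.lt k hk1
    have hex : ∃ v < u, Prt d u k ξ v := by
      by_contra hc
      obtain ⟨L', hL'⟩ := lf_exists d u (prn k)
      have hLle : L' ≤ len ξ := by
        by_contra hc'
        refine hL'.2 (len ξ) (by omega) ⟨?_, fun t ht hl => ?_⟩
        · have := len_prn hk1
          have := h1.2.1.1.1
          omega
        · exact h1.2.1.1.2 t ht (hl.mono (by omega))
      have hlp : len (prn k) ≤ L' := hL'.1.1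
      refine h4 (prn k) hlt (nod (dig ξ) L') (le_trans (nod_dig_le hLle) h3) ?_
      refine ⟨hT.up k hk1 h1.1, by rw [len_nod]; exact hL', ⟨fun y hy => ?_, fun y hy => ?_⟩,
        ?_⟩
      · rw [dig_nod _ (by omega), dig_prn hk1 hy]
        have := len_prn hk1
        exact h1.2.2.1.1 y (by omega)
      · rw [len_nod] at hy
        rw [dig_nod _ hy]
        exact h1.2.2.1.2 y (by omega)
      · rintro ⟨v, hv, hv1, hv2⟩
        refine hc ⟨v, hv, hv1, ?_⟩
        rw [hv2]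
        exact pf_nod hLle fun _ _ => rfl
    obtain ⟨h9, h10, h11⟩ := h8 hlt hex
    rw [← h7] at h1
    exact ⟨hk1, h1.1, h9, h10, by rw [h7]; exact h11, h1.2.1, h1.2.2.1, h1.2.2.2, h1⟩
  · omega

theorem Spec.leaf (hS : Spec P d) {u : ℕ} (hu : 1 ≤ u) (hj : d.J u = 0) : d.pa u = 0 := by
  rcases hS.succ u hu with ⟨k, ξ, h1, _, _, _, _, h4, _⟩ | ⟨_, _, h1⟩
  · omega
  · exact h1

theorem Spec.pt (hS : Spec P d) (hT : TH P.T prn) : PT d where
  lt u hu := by
    by_cases h : d.J u = 0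
    · rw [hS.leaf hu h]; omega
    · obtain ⟨j, hj⟩ : ∃ j, d.J u = j + 1 := ⟨d.J u - 1, by omega⟩
      exact (hS.child hT hu hj).lt
  zero := hS.zero.2.1

theorem Spec.uniq (hS : Spec P d) (hT : TH P.T prn) {v v' s j : ℕ} (hv : v ≤ s) (hv' : v' ≤ s)
    (h : on d.toDat v s j) (h' : on d.toDat v' s j) (hX : d.X v = d.X v') : v = v' := by
  have key : ∀ a b, a < b → b ≤ s → on d.toDat a s j → on d.toDat b s j → d.X a = d.X b →
      False := by
    intro a b hab hbs h1 h2 h0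
    have h3 := (hS.child hT (show 1 ≤ b by omega) h2.1).new
    exact h3 ⟨a, hab, ⟨h1.1, h1.2.1.trans h2.2.1.symm, h1.2.2.mono hbs⟩, h0⟩
  rcases lt_trichotomy v v' with h1 | h1 | h1
  · exact (key _ _ h1 hv' h h' hX).elim
  · exact h1
  · exact (key _ _ h1 hv h' h hX.symm).elim

/-- if `u` is a current node then so is its parent -/
theorem Spec.on_pa (hS : Spec P d) (hT : TH P.T prn) {u j s : ℕ} (hu : 1 ≤ u)
    (h : on d.toDat u s j) : on d.toDat (d.pa u) s (prn j) := by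
  have hc := hS.child hT hu h.1
  have hlt := hT.lt j hc.pos
  refine ⟨hc.on.1, hc.on.2.1.trans (h.2.1.mono (by omega)), ?_⟩
  intro s' hs' hlt' hl
  by_cases h5 : s' ≤ u
  · exact hc.on.2.2 s' (by omega) hlt' hl
  · refine h.2.2 s' hs' (by omega) ?_
    rw [hc.on.1] at hl
    rw [h.1]
    exact (hl.congr (hc.on.2.1.mono (by omega))).mono (by omega)

theorem Spec.lf_on (hS : Spec P d) (hT : TH P.T prn) {v s j : ℕ} (hv : v ≤ s)
    (h : on d.toDat v s j) : Lf d s j (len (d.X v)) := by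
  have hl : ∀ t, v < t → t < s → ¬ lft d.toDat t v j := by
    intro t h1 h2 h3
    refine h.2.2 t (by omega) h1 ?_
    rw [h.1]; exact h3
  have h1 := lb_iff hv h.2.1 hl
  refine lf_congr h1 ?_
  by_cases hv0 : 1 ≤ v
  · exact (hS.child hT hv0 h.1).lf
  · have hv1 : v = 0 := by omega
    subst hv1
    have hj : j = 0 := by
      have := h.1
      rw [hS.zero.1] at this
      omega
    subst hj
    rw [hS.zero.2.2, len_zero']
    exact ⟨⟨by rw [len_zero'], fun t ht => by omega⟩, fun L' hL' => by omega⟩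

/-- the ancestors of a current node -/
theorem Spec.on_an (hS : Spec P d) (hT : TH P.T prn) {u j s a : ℕ}
    (h : on d.toDat u s j) (ha : An d.pa u a) :
    ∃ k, k ≤ j ∧ on d.toDat a s k ∧ Pf (d.X a) (d.X u) ∧ Pf k j := by
  obtain ⟨n, rfl⟩ := ha
  induction n with
  | zero => exact ⟨j, le_refl _, h, Pf.refl _, Pf.refl _⟩
  | succ n ih =>
    rw [Function.iterate_succ_apply']
    obtain ⟨k, h1, h2, h3, h4⟩ := ih
    by_cases h5 : 1 ≤ d.pa^[n] u
    · have hc := hS.child hT h5 h2.1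
      have hlt := hT.lt k hc.pos
      exact ⟨prn k, by omega, hS.on_pa hT h5 h2, hc.pf.trans h3, (pf_prn hc.pos).trans h4⟩
    · have h6 : d.pa^[n] u = 0 := by omega
      rw [h6] at h2 h3 ⊢
      rw [hS.zero.2.1]
      exact ⟨k, h1, h2, h3, h4⟩

/-- every node is current at its own stage -/
theorem on_self {u : ℕ} (h : ¬ d.J u = 0) : on d.toDat u u (d.J u - 1) :=
  ⟨by omega, fun _ _ => rfl, fun s' h1 h2 => by omega⟩

/-! ### the true path -/

theorem lb_const {j N : ℕ} (hN : ∀ s, N ≤ s → ∀ i < j, vis d.toDat g s i → g i ≤ d.O s i)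
    {s s' : ℕ} (hs : N ≤ s) (hs' : N ≤ s') (hv : vis d.toDat g s j) (hv' : vis d.toDat g s' j)
    (L : ℕ) : LB d s j L ↔ LB d s' j L := by
  have key : ∀ s s' : ℕ, N ≤ s → N ≤ s' → vis d.toDat g s j → vis d.toDat g s' j →
      LB d s j L → LB d s' j L := by
    intro s s' hs hs' hv hv' h
    refine ⟨h.1, fun t ht hl => ?_⟩
    have h1 : t < N := by
      by_contra hc
      exact not_lft hN (by omega) hv' (le_refl j) hl
    exact h.2 t (by omega) (hl.congr (hv'.agr hv))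
  exact ⟨key s s' hs hs' hv hv', key s' s hs' hs hv' hv⟩

theorem exists_LL (hg : TP d.toDat g) (j : ℕ) :
    ∃ L N, ∀ s, N ≤ s → vis d.toDat g s j → Lf d s j L := by
  obtain ⟨N, hN⟩ := hg.stable j
  obtain ⟨s0, hs0, hv0⟩ := hg.inf j N
  obtain ⟨L, hL⟩ := lf_exists d s0 j
  exact ⟨L, N, fun s hs hv => lf_congr (lb_const hN hs0 hs hv0 hv) hL⟩

theorem no_miss (hS : Spec P d) (hg : TP d.toDat g) (j : ℕ) :
    ∃ N, ∀ s, N ≤ s → vis d.toDat g s j → ∀ ξ, ¬ Miss d P s j ξ := by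
  induction j using Nat.strong_induction_on with
  | _ j ih =>
    obtain ⟨N0, hN0⟩ := hg.stable j
    choose! Nf hNf using ih
    set N1 := N0 + j + 1 + ∑ i ∈ Finset.range j, Nf i with hN1
    have hNf' : ∀ i < j, ∀ s, N1 ≤ s → vis d.toDat g s i → ∀ ξ, ¬ Miss d P s i ξ := by
      intro i hi s hs hv
      refine hNf i hi s ?_ hv
      have : Nf i ≤ ∑ i ∈ Finset.range j, Nf i :=
        Finset.single_le_sum (f := Nf) (fun _ _ => Nat.zero_le _) (Finset.mem_range.2 hi)
      omega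
    have hlive : ∀ v s0 s, N1 ≤ s0 → s0 ≤ s → vis d.toDat g s0 j → vis d.toDat g s j →
        on d.toDat v s0 j → on d.toDat v s j := by
      intro v s0 s h0 h1 h2 h3 h4
      refine ⟨h4.1, h4.2.1.trans (h2.agr h3), fun s' h5 h6 h7 => ?_⟩
      by_cases h8 : s' ≤ s0
      · exact h4.2.2 s' (by omega) h6 h7
      · rw [h4.1] at h7
        exact not_lft hN0 (by omega) (h2.of_agr h4.2.1) (le_refl j) h7
    have hx : ∀ ξ, ∃ N, ∀ s, N ≤ s → vis d.toDat g s j → ¬ Miss d P s j ξ := by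
      intro ξ
      induction ξ using Nat.strong_induction_on with
      | _ ξ ihx =>
        choose! Nx hNx using ihx
        obtain ⟨s0, hs0, hv0⟩ := hg.inf j (N1 + ξ + 1 + ∑ i ∈ Finset.range ξ, Nx i)
        refine ⟨s0 + 1, fun s hs hv hM => ?_⟩
        have hLf : Lf d s0 j (len ξ) :=
          lf_congr (lb_const hN0 (by omega) (by omega) hv hv0) hM.2.1
        by_cases hex : ∃ v < s0, on d.toDat v s0 j ∧ d.X v = ξ
        · obtain ⟨v, h1, h2, h3⟩ := hex
          exact hM.2.2.2 ⟨v, by omega, hlive v s0 s (by omega) (by omega) hv0 hv h2, h3⟩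
        · have hM0 : Miss d P s0 j ξ := ⟨hM.1, hLf, hM.2.2.1, hex⟩
          rcases hS.succ s0 (by omega) with ⟨k, η, h1, h2, h3, h4, h5, h6, h7, _⟩ | ⟨h1, _⟩
          · have hkj : k = j := by
              rcases lt_trichotomy k j with h8 | h8 | h8
              · exact (hNf' k h8 s0 (by omega) (hv0.mono (by omega)) η h1).elim
              · exact h8
              · exact (h4 j h8 ξ (by omega) hM0).elim
            subst hkj
            have hη : η = ξ := by
              rcases lt_trichotomy η ξ with h8 | h8 | h8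
              · have : Nx η ≤ ∑ i ∈ Finset.range ξ, Nx i :=
                  Finset.single_le_sum (f := Nx) (fun _ _ => Nat.zero_le _)
                    (Finset.mem_range.2 h8)
                exact (hNx η h8 s0 (by omega) hv0 h1).elim
              · exact h8
              · exact (h5 ξ h8 hM0).elim
            subst hη
            refine hM.2.2.2 ⟨s0, by omega, ?_, h7⟩
            refine hlive s0 s0 s (by omega) (by omega) hv0 hv ?_
            have := on_self (d := d) (u := s0) (by omega)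
            rwa [h6, Nat.add_sub_cancel] at this
          · exact h1 j (by omega) ξ (by omega) hM0
    choose Nx hNx using hx
    obtain ⟨s1, hs1, hv1⟩ := hg.inf j N1
    obtain ⟨L, hL⟩ := lf_exists d s1 j
    refine ⟨N1 + ∑ i ∈ Finset.range (bd P.Q L + 1), Nx i, fun s hs hv ξ hM => ?_⟩
    have hLf : Lf d s j L := lf_congr (lb_const hN0 (by omega) (by omega) hv1 hv) hL
    have hlen := lf_uniq hM.2.1 hLf
    have hle := le_bd L ξ hlen hM.2.2.1.2
    have : Nx ξ ≤ ∑ i ∈ Finset.range (bd P.Q L + 1), Nx i :=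
      Finset.single_le_sum (f := Nx) (fun _ _ => Nat.zero_le _)
        (Finset.mem_range.2 (by omega))
    exact hNx ξ s (by omega) hv hM

/-- existence of the true nodes -/
theorem pers_ex (hS : Spec P d) (hg : TP d.toDat g) {j L : ℕ} (hTj : P.T j)
    (hL : ∃ N, ∀ s, N ≤ s → vis d.toDat g s j → Lf d s j L) {ξ : ℕ} (hξ : len ξ = L)
    (hcs : Cs P j ξ) : ∃ v, Pers d.toDat g v j ∧ d.X v = ξ := by
  obtain ⟨N0, hN0⟩ := hg.stable j
  obtain ⟨N1, hN1⟩ := no_miss hS hg j
  obtain ⟨N2, hN2⟩ := hL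
  obtain ⟨s, hs, hv⟩ := hg.inf j (N0 + N1 + N2)
  have h1 := hN1 s (by omega) hv ξ
  have h2 : ∃ v < s, on d.toDat v s j ∧ d.X v = ξ := by
    by_contra hc
    exact h1 ⟨hTj, by rw [hξ]; exact hN2 s (by omega) hv, hcs, hc⟩
  obtain ⟨v, hvs, h3, h4⟩ := h2
  refine ⟨v, ⟨h3.1, hv.of_agr h3.2.1, fun s' hs' hl => ?_⟩, h4⟩
  by_cases h5 : s' ≤ s
  · refine h3.2.2 s' (by omega) hs' ?_
    rw [h3.1]; exact hl
  · exact not_lft hN0 (by omega) (hv.of_agr h3.2.1) (le_refl j) hl

theorem pers_uniq (hS : Spec P d) (hT : TH P.T prn) (hg : TP d.toDat g) {a a' j : ℕ}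
    (h : Pers d.toDat g a j) (h' : Pers d.toDat g a' j) (hX : d.X a = d.X a') : a = a' := by
  obtain ⟨s, hs, hv⟩ := hg.inf j (a + a')
  exact hS.uniq hT (by omega) (by omega) (h.on hv) (h'.on hv) hX

theorem pers_lf (hS : Spec P d) (hT : TH P.T prn) {a j s : ℕ}
    (h : Pers d.toDat g a j) (hs : a ≤ s) (hv : vis d.toDat g s j) :
    Lf d s j (len (d.X a)) := hS.lf_on hT hs (h.on hv)

theorem pers_pa (hS : Spec P d) (hT : TH P.T prn) {a j : ℕ} (h : Pers d.toDat g a j)
    (hj : 1 ≤ j) : 1 ≤ a ∧ Pers d.toDat g (d.pa a) (prn j) := by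
  have ha : 1 ≤ a := by
    by_contra hc
    have h0 : a = 0 := by omega
    have := h.1
    rw [h0, hS.zero.1] at this
    omega
  have hc := hS.child hT ha h.1
  have hlt := hT.lt j hj
  refine ⟨ha, hc.on.1, (h.2.1.mono (by omega)).of_agr hc.on.2.1, fun s hs hl => ?_⟩
  by_cases h5 : s ≤ a
  · refine hc.on.2.2 s (by omega) hs ?_
    rw [hc.on.1]; exact hl
  · exact h.2.2 s (by omega) ((hl.congr hc.on.2.1).mono (by omega))

theorem pers_zero' (hS : Spec P d) : Pers d.toDat g 0 0 :=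
  ⟨hS.zero.1, fun i hi => by omega, fun s _ ⟨i, hi, _⟩ => by omega⟩

/-- the true nodes with labels at most `e` are bounded -/
theorem uu_bound (hS : Spec P d) (hT : TH P.T prn) (hg : TP d.toDat g) (e : ℕ) :
    ∃ m0, ∀ v, UU d.toDat g e v → v < m0 := by
  choose N hN using fun j => no_miss hS hg j
  refine ⟨1 + ∑ j ∈ Finset.range (e + 1), N j, fun v hv => ?_⟩
  obtain ⟨j, hj, h1⟩ := hv
  have h2 : N j ≤ ∑ j ∈ Finset.range (e + 1), N j :=
    Finset.single_le_sum (f := N) (fun _ _ => Nat.zero_le _) (Finset.mem_range.2 (by omega))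
  by_contra hc
  have hc' := hS.child hT (show 1 ≤ v by omega) h1.1
  exact hN j v (by omega) h1.2.1 _ hc'.miss

/-- true nodes become settled -/
theorem pers_St (hg : TP d.toDat g) {v j : ℕ} (h : Pers d.toDat g v j) :
    ∃ τ, ∀ τ', τ ≤ τ' → St d v τ' := by
  have h1 : ∀ i < j, ∃ t, v < t ∧ vis d.toDat g t (i + 1) := fun i _ => by
    obtain ⟨t, h2, h3⟩ := hg.inf (i + 1) (v + 1)
    exact ⟨t, by omega, h3⟩
  choose! t ht using h1
  refine ⟨∑ i ∈ Finset.range j, t i, fun τ' hτ i hi hO => ?_⟩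
  rw [h.1, Nat.add_sub_cancel] at hi
  obtain ⟨h2, h3⟩ := ht i hi
  have h4 : t i ≤ ∑ i ∈ Finset.range j, t i :=
    Finset.single_le_sum (f := t) (fun _ _ => Nat.zero_le _) (Finset.mem_range.2 hi)
  refine ⟨t i, by omega, h2, ?_, ?_⟩
  · exact (h3.mono (by omega)).agr (h.2.1.mono (by omega))
  · rw [h3 i (by omega), ← h.2.1 i hi, hO]

end Pool.Agent.H668
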