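import Mathlib
import Pool.Agent.H668.Path

set_option autoImplicit false

namespace Pool.Agent.H668

open Encodable Denumerable Nat.Partrec Pool.Agent.Helper941 Pool.Agent.Helper941.IsoProb
open Pool.Agent.Helper941.Zeta Pool.Agent.Helper941.Dim

variable {d : Dt} {P : Pm} {g : ℕ → ℕ} {e N m0 : ℕ}

/-- the response stages -/
def Rs (d : Dt) (g : ℕ → ℕ) (e N s : ℕ) : Prop := N ≤ s ∧ vis d.toDat g s e ∧ d.O s e = 1

/-- stage `N` is large -/
structure Lrg (d : Dt) (g : ℕ → ℕ) (e N m0 : ℕ) : Prop where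
  stab : ∀ s, N ≤ s → ∀ i < e, vis d.toDat g s i → g i ≤ d.O s i
  uu : ∀ v, UU d.toDat g e v → v < m0
  le : N ≤ m0

theorem rt_desc (hS : Spec P d) (hT : TH P.T prn) {a u : ℕ} (h : Rt d.toDat g e a)
    (hu : ¬ d.J u = 0) (ha : An d.pa u a) : Rt d.toDat g e u := by
  obtain ⟨k, h1, h2, _, _⟩ := hS.on_an hT (on_self hu) ha
  have h3 := h.2.2
  have h4 := h2.1
  have h5 : e < k := by
    have : d.toDat.J a = k + 1 := h4
    omega
  refine ⟨(h.1).of_agr (h2.2.1.symm.mono (by omega)), ?_, ?_⟩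
  · rw [← h2.2.1 e h5]; exact h.2.1
  · show e + 1 < d.J u
    omega

theorem tri (L : Lrg d g e N m0) {s' v u j : ℕ} (hO : ∀ s i, d.O s i = 1 ∨ d.O s i = 2)
    (hR : Rs d g e N s') (hv : v ≤ s') (hu : s' ≤ u) (hon : on d.toDat v u j) :
    UU d.toDat g e v ∨ Rt d.toDat g e v := by
  obtain ⟨h1, h2, h3⟩ := hon
  obtain ⟨hs', hvs, hOs⟩ := hR
  have h4 : ∀ i, i ≤ j → i ≤ e → vis d.toDat g v i := by
    intro i
    induction i with
    | zero => intro _ _ k hk; omega
    | succ i ih =>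
      intro hij hie
      have h5 := ih (by omega) (by omega)
      intro k hk
      by_cases hki : k < i
      · exact h5 k hki
      · have hk' : k = i := by omega
        subst hk'
        rcases lt_trichotomy (d.O v k) (g k) with h6 | h6 | h6
        · exfalso
          have h7 := L.stab u (by omega) k (by omega) (h5.of_agr (h2.symm.mono (by omega)))
          have h8 : d.O v k = d.O u k := h2 k (by omega)
          omega
        · exact h6
        · exfalso
          by_cases hvs' : v = s'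
          · have := hvs k (by omega)
            rw [hvs'] at h6
            have h9 : d.O s' k = g k := this
            omega
          · refine h3 s' (by omega) (by omega) ⟨k, ?_, ?_, ?_⟩
            · rw [h1]; omega
            · exact (hvs.mono (by omega)).agr h5
            · rw [hvs k (by omega)]; exact h6
  by_cases hje : j ≤ e
  · left
    have h5 := h4 j (le_refl j) hje
    refine ⟨j, hje, h1, h5, fun x hx hl => ?_⟩
    by_cases hxu : x ≤ u
    · refine h3 x (by omega) hx ?_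
      rw [h1]; exact hl
    · exact not_lft L.stab (by omega) h5 hje hl
  · right
    have h5 := h4 e (by omega) (le_refl e)
    refine ⟨h5, ?_, by rw [h1]; omega⟩
    rcases hO v e with h8 | h8
    · exact h8
    · exfalso
      have hne : v ≠ s' := by
        intro hc
        rw [hc] at h8
        omega
      refine h3 s' (by omega) (by omega) ⟨e, ?_, hvs.agr h5, ?_⟩
      · rw [h1]; omega
      · show d.O s' e < d.O v e
        omega

theorem rt_anc (hS : Spec P d) (hT : TH P.T prn) (L : Lrg d g e N m0) {m u : ℕ}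
    (hm : m0 ≤ m) (hu : m < u) (hJ : ¬ d.J u = 0) (h : Rt d.toDat g e u) :
    Rt d.toDat g e (anc d.pa m u) := by
  have hp := hS.pt hT
  obtain ⟨h1, h2, h3⟩ := anc_spec hp.lt hu
  set a := anc d.pa m u with ha
  obtain ⟨k, h4, h5, _, _⟩ := hS.on_an hT (on_self hJ) h3
  by_cases hk : k ≤ e
  · exfalso
    have h6 : UU d.toDat g e a := by
      refine ⟨k, hk, h5.1, (h.1.mono hk).of_agr h5.2.1, fun s hs hl => ?_⟩
      by_cases hsu : s ≤ u
      · refine h5.2.2 s (by omega) hs ?_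
        rw [h5.1]; exact hl
      · have := L.le
        exact not_lft L.stab (by omega) ((h.1.mono hk).of_agr h5.2.1) hk hl
    have := L.uu a h6
    omega
  · refine ⟨h.1.of_agr (h5.2.1.mono (by omega)), ?_, by rw [h5.1]; omega⟩
    rw [h5.2.1 e (by omega)]; exact h.2.1

/-- new irrelevant nodes have long claims -/
theorem long (hS : Spec P d) (hT : TH P.T prn) (L : Lrg d g e N m0) {s' v : ℕ}
    (hR : Rs d g e N s') (hm : m0 ≤ s') (hv : s' < v) (hJ : ¬ d.J v = 0)
    (hn : ¬ Rt d.toDat g e v) : s' < len (d.X v) := by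
  obtain ⟨j, hj⟩ : ∃ j, d.J v = j + 1 := ⟨d.J v - 1, by omega⟩
  have hc := hS.child hT (show 1 ≤ v by omega) hj
  refine hc.lf.1.2 s' hv ?_
  obtain ⟨hs', hvs, hOs⟩ := hR
  by_contra hl
  have h4 : ∀ i, i ≤ j → i ≤ e → vis d.toDat g v i := by
    intro i
    induction i with
    | zero => intro _ _ k hk; omega
    | succ i ih =>
      intro hij hie
      have h5 := ih (by omega) (by omega)
      intro k hk
      by_cases hki : k < i
      · exact h5 k hki
      · have hk' : k = i := by omega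
        subst hk'
        have h7 := L.stab v (by omega) k (by omega) h5
        by_contra hne
        refine hl ⟨k, by omega, (hvs.mono (by omega)).agr h5, ?_⟩
        rw [hvs k (by omega)]
        have : d.toDat.O v k = d.O v k := rfl
        omega
  by_cases hje : j ≤ e
  · have h5 := h4 j (le_refl j) hje
    have h6 : UU d.toDat g e v :=
      ⟨j, hje, hj, h5, fun x hx => not_lft L.stab (by omega) h5 hje⟩
    have := L.uu v h6
    omega
  · have h5 := h4 e (by omega) (le_refl e)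
    rcases hS.O_cases v e with h8 | h8
    · exact hn ⟨h5, h8, by show e + 1 < d.J v; omega⟩
    · refine hl ⟨e, by omega, hvs.agr h5, ?_⟩
      show d.O s' e < d.O v e
      omega

/-- the new irrelevant letters -/
def Kl (d : Dt) (g : ℕ → ℕ) (e s' m l : ℕ) : Prop :=
  Lam d m l ∧ ¬ Rt d.toDat g e l.unpair.1 ∧ s' < anc d.pa m l.unpair.1

theorem lett (hS : Spec P d) (hT : TH P.T prn) (L : Lrg d g e N m0) {s' m l l' : ℕ}
    (hR : Rs d g e N s') (hm0 : m0 ≤ m) (_hm : m ≤ s') (hl : W d m l) (hl' : W d s' l')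
    (hE : E d m l l') : Rt d.toDat g e l.unpair.1 ∨ s' < anc d.pa m l.unpair.1 := by
  have hp := hS.pt hT
  by_cases h : s' < anc d.pa m l.unpair.1
  · exact Or.inr h
  · left
    have h1 := hE.1
    obtain ⟨h2, h3, h4⟩ := anc_spec hp.lt hl.2.1
    obtain ⟨h5, h6, h7⟩ := anc_spec hp.lt (show m < l'.unpair.1 by have := hl'.2.1; omega)
    rw [← h1] at h7
    obtain ⟨k, h8, h9, _, _⟩ := hS.on_an hT (on_self hl'.1) h7
    have h10 := tri L hS.O_cases hR (by omega) (by have := hl'.2.1; omega) h9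
    rcases h10 with h10 | h10
    · have := L.uu _ h10
      omega
    · exact rt_desc hS hT h10 hl.1 h4

theorem kl_pa (hS : Spec P d) (hT : TH P.T prn) (L : Lrg d g e N m0) {s' m l : ℕ}
    (hR : Rs d g e N s') (hm0 : m0 ≤ m) (hm : m ≤ s') (hl : Kl d g e s' m l) :
    anc d.pa m0 l.unpair.1 = anc d.pa m l.unpair.1 ∧
      ∀ y < m, dig (d.X l.unpair.1) y = dig (d.X (anc d.pa m l.unpair.1)) y := by
  have hp := hS.pt hT
  obtain ⟨h1, h2, h3⟩ := hl
  obtain ⟨h4, h5, h6⟩ := anc_spec hp.lt h1.1.2.1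
  set v := anc d.pa m l.unpair.1 with hv
  have hvu := h6.le hp.le
  obtain ⟨k, _, h9, h10, _⟩ := hS.on_an hT (on_self h1.1.1) h6
  obtain ⟨k', _, h11, _, _⟩ := hS.on_an hT (on_self h1.1.1) h6.step
  constructor
  · rcases tri L hS.O_cases hR (show d.pa v ≤ s' by omega) (by omega) h11 with h12 | h12
    · have := L.uu _ h12
      exact anc_eq hp.lt hp.zero h6 (by omega) (by omega)
    · exact (h2 (rt_desc hS hT h12 h1.1.1 h6.step)).elim
  · intro y hy
    have h13 := long hS hT L hR (by omega) h3 (by have : d.J v = k + 1 := h9.1; omega)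
      fun h => h2 (rt_desc hS hT h h1.1.1 h6)
    exact (h10.2 y (by omega)).symm

theorem kl_inj (hS : Spec P d) (hT : TH P.T prn) (L : Lrg d g e N m0) {s' m l l' : ℕ}
    (hR : Rs d g e N s') (hm0 : m0 ≤ m) (hm : m ≤ s') (hl : Kl d g e s' m l)
    (hl' : Kl d g e s' m l') (h : rep d m0 l = rep d m0 l') : l = l' := by
  obtain ⟨h1, h2⟩ := kl_pa hS hT L hR hm0 hm hl
  obtain ⟨h3, h4⟩ := kl_pa hS hT L hR hm0 hm hl'
  have h5 := E_of_rep (hl.1.1.mono hm0) (hl'.1.1.mono hm0) h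
  have h6 : E d m l l' := by
    refine ⟨by rw [← h1, ← h3, h5.1], fun y hy => ?_⟩
    rw [h2 y hy, h4 y hy, ← h1, ← h3, h5.1]
  have h7 := rep_eq hl.1.1 hl'.1.1 h6
  rwa [hl.1.2, hl'.1.2] at h7

/-- relevance is preserved by folding -/
theorem rt_rep (hS : Spec P d) (hT : TH P.T prn) (L : Lrg d g e N m0) {m l : ℕ}
    (hm : m0 ≤ m) (hl : W d m l) :
    Rt d.toDat g e (rep d m l).unpair.1 ↔ Rt d.toDat g e l.unpair.1 := by
  have hp := hS.pt hT
  have key : ∀ a b, W d m a → W d m b → E d m a b → Rt d.toDat g e a.unpair.1 →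
      Rt d.toDat g e b.unpair.1 := by
    intro a b ha hb hE h
    have h1 := rt_anc hS hT L hm ha.2.1 ha.1 h
    rw [hE.1] at h1
    exact rt_desc hS hT h1 hb.1 (anc_spec hp.lt hb.2.1).2.2
  obtain ⟨h1, h2⟩ := rep_W hl
  exact ⟨key _ _ h1 hl h2.symm, key _ _ hl h1 h2⟩

/-- the abstract properties of the responses of an opponent -/
structure Rsp (d : Dt) (g : ℕ → ℕ) (e N : ℕ) (M : ℕ → ℕ) (y : ℕ → ℕ → Gm) : Prop where
  inf : ∀ n, ∃ s, n ≤ s ∧ Rs d g e N s
  cut : ∀ s' s, pv (Rs d g e N) s' s → M s = s'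
  val : ∀ s m, Rs d g e N s → m ≤ M s → Val d m (y s m)
  coh : ∀ s m, Rs d g e N s → m < M s → fold d m (y s (m + 1)) = y s m
  tr : ∀ s' s, pv (Rs d g e N) s' s → ∃ n ∈ Sb (fun l => Lam d (M s') l ∧ l < s),
    y s (M s') = y s' (M s') * n

section
variable (hS : Spec P d) (hT : TH P.T prn) (L : Lrg d g e N m0) {M : ℕ → ℕ} {y : ℕ → ℕ → Gm}
  (H : Rsp d g e N M y)

theorem rs_of {s' t : ℕ} (h : Rs d g e N s') (ht : s' ≤ t) (ha : agr d.toDat t s' e)
    (hO : d.O t e = 1) : Rs d g e N t := ⟨by have := h.1; omega, h.2.1.of_agr ha, hO⟩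

include H in
/-- the transition words have no relevant letters -/
theorem no_rt {s'' s' s : ℕ} (h1 : pv (Rs d g e N) s'' s') (h2 : pv (Rs d g e N) s' s) {n : Gm}
    (hn : n ∈ Sb (fun l => Lam d (M s') l ∧ l < s)) :
    n ∈ Sb fun l => Lam d s'' l ∧ ¬ Rt d.toDat g e l.unpair.1 := by
  refine Sb_mono ?_ hn
  rintro l ⟨hl, hls⟩
  rw [H.cut s'' s' h1] at hl
  refine ⟨hl, fun hr => ?_⟩
  have hu := Nat.unpair_left_le l
  have hτ := Nat.unpair_right_le l
  have h3 : Rs d g e N l.unpair.1 := ⟨by have := h1.1.1; have := hl.1.2.1; omega, hr.1, hr.2.1⟩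
  have h4 : l.unpair.1 = s' := by
    rcases lt_trichotomy l.unpair.1 s' with h5 | h5 | h5
    · exact (h1.2.2.2 _ hl.1.2.1 h5 h3).elim
    · exact h5
    · exact (h2.2.2.2 _ h5 (by omega) h3).elim
  obtain ⟨t, ht1, ht2, ht3, ht4⟩ := hl.1.2.2.2 e (by
    have : e + 1 < d.J l.unpair.1 := hr.2.2
    omega) hr.2.1
  exact h2.2.2.2 t (by omega) (by omega) (rs_of h3 (le_of_lt ht2) ht3 ht4)

include hS hT H in
theorem y_fold {s' s m : ℕ} (h1 : pv (Rs d g e N) s' s) {m' : ℕ} (hm : m ≤ m')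
    (hm' : m' ≤ s') : fold d m (y s m') = y s m := by
  have hc := H.cut s' s h1
  refine fold_seq (M := M s) (m0 := 0) (hS.pt hT) (fun k _ hk => H.val s k h1.2.1 hk)
    (fun k _ hk => H.coh s k h1.2.1 hk) (Nat.zero_le _) hm (by omega)

include hS hT L H in
theorem y_step {s'' s' s m : ℕ} (h1 : pv (Rs d g e N) s'' s') (h2 : pv (Rs d g e N) s' s)
    (hm0 : m0 ≤ m) (hm : m ≤ s'') :
    ∃ n ∈ Sb (fun l => Lam d m l ∧ ¬ Rt d.toDat g e l.unpair.1), y s m = y s' m * n := by
  obtain ⟨n, hn, h3⟩ := H.tr s' s h2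
  have h4 := no_rt H h1 h2 hn
  rw [H.cut s'' s' h1] at h3
  refine ⟨fold d m n, ?_, ?_⟩
  · refine map_mem ?_ h4
    rintro l ⟨hl, hr⟩
    exact ⟨rep_Lam (hl.1.mono hm), fun h => hr ((rt_rep hS hT L hm0 (hl.1.mono hm)).1 h)⟩
  · have h5 := h1.2.2.1
    have h6 := h2.2.2.1
    rw [← y_fold hS hT H h2 hm (by omega), h3, fold_mul, y_fold hS hT H h1 hm (le_refl _)]

include hS hT L H in
theorem y_steps {r' r m : ℕ} (h1 : pv (Rs d g e N) r' r) (hm0 : m0 ≤ m) (hm : m ≤ r') (s : ℕ)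
    (hs : Rs d g e N s) (hrs : r ≤ s) :
    ∃ n ∈ Sb (fun l => Lam d m l ∧ ¬ Rt d.toDat g e l.unpair.1), y s m = y r m * n := by
  induction s using Nat.strong_induction_on with
  | _ s ih =>
    by_cases h : s = r
    · rw [h]
      exact ⟨1, one_mem _, by rw [mul_one]⟩
    · obtain ⟨s0, h2, h3⟩ := exists_pv h1.2.1 hs (by omega)
      obtain ⟨n, hn, h4⟩ := ih s0 h2.2.2.1 h2.1 h3
      have h5 : ∃ s'', pv (Rs d g e N) s'' s0 ∧ m ≤ s'' := by
        by_cases h6 : s0 = r
        · rw [h6]; exact ⟨r', h1, hm⟩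
        · obtain ⟨s'', h7, h8⟩ := exists_pv h1.2.1 h2.1 (by omega)
          have := h1.2.2.1
          exact ⟨s'', h7, by omega⟩
      obtain ⟨s'', h7, h8⟩ := h5
      obtain ⟨n', hn', h9⟩ := y_step hS hT L H h7 h2 hm0 h8
      exact ⟨n * n', mul_mem hn hn', by rw [h9, h4, mul_assoc]⟩

include hS hT L H in
theorem y_lett {s' t m : ℕ} (h1 : pv (Rs d g e N) s' t) (hm0 : m0 ≤ m) (hm : m ≤ s') :
    y t m ∈ Sb fun l => Lam d m l ∧ (Rt d.toDat g e l.unpair.1 ∨
      s' < anc d.pa m l.unpair.1) := by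
  rw [← y_fold hS hT H h1 hm (le_refl _)]
  have hc := H.cut s' t h1
  refine map_mem ?_ (H.val t s' h1.2.1 (by omega))
  intro l hl
  have h2 := rep_Lam (hl.1.mono hm)
  refine ⟨h2, lett hS hT L h1.1 hm0 hm h2.1 hl.1 ?_⟩
  exact (rep_W (hl.1.mono hm)).2.symm

include hS hT L H in
theorem y_kill {r' r s' s m : ℕ} (h1 : pv (Rs d g e N) r' r) (h2 : pv (Rs d g e N) s' s)
    (hm0 : m0 ≤ m) (hm : m ≤ r') (hm' : m ≤ s') :
    kill (fun l => Rt d.toDat g e l.unpair.1) (y r m) =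
      kill (fun l => Rt d.toDat g e l.unpair.1) (y s m) := by
  have key : ∀ {r' r s' s : ℕ}, pv (Rs d g e N) r' r → pv (Rs d g e N) s' s → m ≤ r' →
      m ≤ s' → r ≤ s → kill (fun l => Rt d.toDat g e l.unpair.1) (y r m) =
      kill (fun l => Rt d.toDat g e l.unpair.1) (y s m) := by
    intro r' r s' s h1 h2 hm hm' hrs
    obtain ⟨n, hn, h3⟩ := y_steps hS hT L H h1 hm0 hm s h2.2.1 hrs
    rw [h3, map_mul, kill_one hn fun l hl => hl.2, mul_one]
  rcases Nat.le_total r s with h | h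
  · exact key h1 h2 hm hm' h
  · exact (key h2 h1 hm' hm h).symm

include hS hT L H in
/-- the irrelevant part of the coordinates -/
theorem y_kappa {s' t m : ℕ} (h1 : pv (Rs d g e N) s' t) (hm0 : m0 ≤ m) (hm : m ≤ s') :
    ∃ κ ∈ Sb (Kl d g e s' m), y t m =
      kill (fun l => Rt d.toDat g e l.unpair.1) (y t m) * κ := by
  obtain ⟨B, hB⟩ := exists_bound (y t m)
  have hval : Val d m (y t m) := by
    have := H.cut s' t h1
    exact H.val t m h1.2.1 (by omega)
  -- a later response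
  obtain ⟨a, ha1, ha2⟩ := H.inf (t + B + 1)
  obtain ⟨b, hb1, hb2⟩ := H.inf (a + 1)
  obtain ⟨a', ha', haa⟩ := exists_pv ha2 hb2 (by omega)
  obtain ⟨n, hn, h2⟩ := y_steps hS hT L H h1 hm0 hm b hb2 (by omega)
  set S : ℕ → Prop := fun l => Rt d.toDat g e l.unpair.1 ∨ anc d.pa m l.unpair.1 ≤ B with hSd
  have hp := hS.pt hT
  have h3 : kill S (y t m) = y t m := by
    refine kill_id (Sb_mono ?_ (Sb_inf hval hB))
    rintro l ⟨hl, hlB⟩
    right
    have h4 := (anc_spec hp.lt hl.1.2.1).2.2.le hp.le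
    have := Nat.unpair_left_le l
    omega
  have h4 : kill S (y b m) = kill (fun l => Rt d.toDat g e l.unpair.1) (y b m) := by
    refine kill_congr (y_lett hS hT L H ha' hm0 (by have := h1.2.2.1; omega)) ?_
    rintro l ⟨_, hl⟩
    constructor
    · rintro (h | h)
      · exact h
      · rcases hl with hl | hl
        · exact hl
        · omega
    · exact fun h => Or.inl h
  have h5 := y_kill hS hT L H h1 ha' hm0 hm (by have := h1.2.2.1; omega)
  have h6 : kill (fun l => Rt d.toDat g e l.unpair.1) (y t m) = y t m * kill S n := by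
    rw [h5, ← h4, h2, map_mul, h3]
  set κ : Gm := (kill (fun l => Rt d.toDat g e l.unpair.1) (y t m))⁻¹ * y t m with hκ
  have h7 : κ = (kill S n)⁻¹ := by
    rw [hκ, h6]
    group
  refine ⟨κ, ?_, by rw [hκ, mul_inv_cancel_left]⟩
  have h8 : κ ∈ Sb fun l => Lam d m l ∧ ¬ Rt d.toDat g e l.unpair.1 := by
    rw [h7]
    exact inv_mem (Sb_mono (fun _ h => h.2) (kill_mem' hn))
  have h9 : κ ∈ Sb fun l => Rt d.toDat g e l.unpair.1 ∨ s' < anc d.pa m l.unpair.1 := by
    rw [hκ]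
    refine mul_mem (inv_mem ?_) ?_
    · exact Sb_mono (fun _ h => Or.inl h) (kill_mem _ _)
    · exact Sb_mono (fun _ h => h.2) (y_lett hS hT L H h1 hm0 hm)
  refine Sb_mono ?_ (Sb_inf h8 h9)
  rintro l ⟨⟨h10, h11⟩, h12⟩
  exact ⟨h10, h11, h12.resolve_left h11⟩

include hS hT L H in
/-- the limit flow -/
theorem exists_flow : ∃ F : ℕ → Gm, Flw d F ∧ ∀ s' t m, pv (Rs d g e N) s' t → m0 ≤ m →
    m ≤ s' → ∃ κ ∈ Sb (Kl d g e s' m), y t m = F m * κ := by
  have hp := hS.pt hT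
  have hgood : ∀ m, ∃ s' t, pv (Rs d g e N) s' t ∧ m ≤ s' := by
    intro m
    obtain ⟨a, ha1, ha2⟩ := H.inf m
    obtain ⟨b, hb1, hb2⟩ := H.inf (a + 1)
    obtain ⟨a', ha', haa⟩ := exists_pv ha2 hb2 (by omega)
    exact ⟨a', b, ha', by omega⟩
  choose s' t hst hms using hgood
  set ρ : Gm → Gm := fun w => kill (fun l => Rt d.toDat g e l.unpair.1) w with hρ
  let F1 : ℕ → Gm := fun m => ρ (y (t m) m)
  have hF1 : ∀ {s'' t' m}, pv (Rs d g e N) s'' t' → m0 ≤ m → m ≤ s'' → ρ (y t' m) = F1 m := by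
    intro s'' t' m h1 h2 h3
    exact y_kill hS hT L H h1 (hst m) h2 h3 (hms m)
  have hv1 : ∀ m, Val d m (F1 m) := by
    intro m
    refine Sb_mono (fun _ h => h.2) (kill_mem' (S' := Lam d m) ?_)
    have := H.cut _ _ (hst m)
    have := hms m
    exact H.val (t m) m (hst m).2.1 (by omega)
  have hf1 : ∀ m, m0 ≤ m → fold d m (F1 (m + 1)) = F1 m := by
    intro m hm
    have h1 := hst (m + 1)
    have h2 := hms (m + 1)
    have hc := H.cut _ _ h1
    rw [← hF1 h1 hm (by omega), ← y_fold hS hT H h1 (Nat.le_succ m) h2]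
    refine (kill_map (S'' := Lam d (m + 1)) ?_ (H.val _ (m + 1) h1.2.1 (by omega))).symm
    intro l hl
    exact rt_rep hS hT L hm (hl.1.mono (Nat.le_succ m))
  let F : ℕ → Gm := fun m => if m0 ≤ m then F1 m else fold d m (F1 m0)
  have hFge : ∀ m, m0 ≤ m → F m = F1 m := fun m hm => if_pos hm
  have hFlt : ∀ m, m < m0 → F m = fold d m (F1 m0) := fun m hm => if_neg (by omega)
  refine ⟨F, ⟨fun m => ?_, fun m => ?_⟩, fun s'' t' m h1 h2 h3 => ?_⟩
  · by_cases hm : m0 ≤ m
    · rw [hFge m hm]; exact hv1 m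
    · rw [hFlt m (by omega)]
      exact (hv1 m0).fold' (by omega)
  · by_cases hm : m0 ≤ m
    · rw [hFge m hm, hFge (m + 1) (by omega)]; exact hf1 m hm
    · rw [hFlt m (by omega)]
      by_cases hm1 : m + 1 = m0
      · rw [hFge (m + 1) (by omega), hm1]
      · rw [hFlt (m + 1) (by omega)]
        exact fold_fold hp (Nat.le_succ m) (by omega) (hv1 m0)
  · rw [hFge m h2, ← hF1 h1 h2 h3]
    exact y_kappa hS hT L H h1 h2 h3

end

end Pool.Agent.H668
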