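import Mathlib
import Pool.Agent.H668.Build
import Pool.Agent.H668.Resp

set_option autoImplicit false

namespace Pool.Agent.H668

open Encodable Denumerable Nat.Partrec Pool.Agent.Helper941 Pool.Agent.Helper941.IsoProb
open Pool.Agent.Helper941.Zeta
open Pool.Agent.Helper941.Dim hiding entry row row_zero row_succ row_length row_get nxt hist
  hist_succ hist_length hist_get hh getc_hist con c_entry c_row c_nxt c_hist c_hh con_O con_C
  con_J con_pa hh_row con_ent con_ent' getc_ext getc_ext' entry_eq deq_con con_spec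
  el idx el_valid idx_el el_idx c_idx c_el As as_comp

/-! ### codes of words -/

/-- the signed letter coded by `x` -/
def dl (x : ℕ) : ℕ × Bool := (x / 2, x % 2 == 1)

/-- the code of a signed letter -/
def ce (x : ℕ × Bool) : ℕ := 2 * x.1 + (if x.2 = true then 1 else 0)

theorem dl_ce (x : ℕ × Bool) : dl (ce x) = x := by
  obtain ⟨n, b⟩ := x
  unfold dl ce
  cases b
  · simp
  · refine Prod.ext ?_ ?_
    · show (2 * n + 1) / 2 = n
      omega
    · show ((2 * n + 1) % 2 == 1) = true
      have : (2 * n + 1) % 2 = 1 := by omega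
      rw [this]; rfl

theorem ce_dl (x : ℕ) : ce (dl x) = x := by
  unfold dl ce
  show 2 * (x / 2) + (if (x % 2 == 1) = true then 1 else 0) = x
  split_ifs with h
  · have : x % 2 = 1 := by simpa using h
    omega
  · have : ¬ x % 2 = 1 := by simpa using h
    omega

/-- the list of signed letters coded by `q` -/
def lw (q : ℕ) : List (ℕ × Bool) := (ofNat (List ℕ) q).map dl

/-- the code of a list of signed letters -/
def cwd (L : List (ℕ × Bool)) : ℕ := encode (L.map ce)

theorem lw_cwd (L : List (ℕ × Bool)) : lw (cwd L) = L := by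
  unfold lw cwd
  rw [ofNat_encode, List.map_map]
  have : dl ∘ ce = id := funext dl_ce
  rw [this, List.map_id]

theorem cwd_lw (q : ℕ) : cwd (lw q) = q := by
  unfold lw cwd
  rw [List.map_map]
  have : ce ∘ dl = id := funext ce_dl
  rw [this, List.map_id, encode_ofNat]

/-- the word coded by `q` -/
def wd (q : ℕ) : Gm := FreeGroup.mk (lw q)

/-- `p` is the code of a pair of a cut and a word -/
def Vd (d : Dt) (p : ℕ) : Prop :=
  FreeGroup.reduce (lw p.unpair.2) = lw p.unpair.2 ∧ ∀ x ∈ lw p.unpair.2, Lam d p.unpair.1 x.1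

/-- the code of a pair of a cut and a word -/
def cd (c : ℕ) (w : Gm) : ℕ := Nat.pair c (cwd w.toWord)

theorem wd_cd (c : ℕ) (w : Gm) : wd (cd c w).unpair.2 = w := by
  unfold wd cd
  rw [Nat.unpair_pair]
  show FreeGroup.mk (lw (cwd w.toWord)) = w
  rw [lw_cwd, FreeGroup.mk_toWord]

theorem cd_fst (c : ℕ) (w : Gm) : (cd c w).unpair.1 = c := by
  unfold cd
  rw [Nat.unpair_pair]

theorem vd_val {d : Dt} {p : ℕ} (h : Vd d p) : Val d p.unpair.1 (wd p.unpair.2) := mk_mem h.2

theorem val_vd {d : Dt} {c : ℕ} {w : Gm} (h : Val d c w) : Vd d (cd c w) := by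
  unfold Vd cd
  rw [Nat.unpair_pair]
  show FreeGroup.reduce (lw (cwd w.toWord)) = lw (cwd w.toWord) ∧
    ∀ x ∈ lw (cwd w.toWord), Lam d c x.1
  rw [lw_cwd]
  exact ⟨FreeGroup.reduce_toWord w, fun x hx => supp_of_mem h ⟨x.2, hx⟩⟩

theorem cd_wd {d : Dt} {p : ℕ} (h : Vd d p) : cd p.unpair.1 (wd p.unpair.2) = p := by
  unfold cd wd
  rw [FreeGroup.toWord_mk, h.1, cwd_lw, Nat.pair_unpair]

theorem vd_inj {d : Dt} {p q : ℕ} (hp : Vd d p) (hq : Vd d q)
    (h1 : p.unpair.1 = q.unpair.1) (h2 : wd p.unpair.2 = wd q.unpair.2) : p = q := by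
  rw [← cd_wd hp, ← cd_wd hq, h1, h2]

theorem vd_inf (d : Dt) : {p | Vd d p}.Infinite := by
  refine Set.infinite_of_injective_forall_mem (f := fun c : ℕ => cd c 1) ?_ ?_
  · intro c c' h
    have : (cd c 1).unpair.1 = (cd c' 1).unpair.1 := congrArg (fun p => p.unpair.1) h
    rwa [cd_fst, cd_fst] at this
  · intro c
    exact val_vd (Val.one d c)

/-! ### enumeration of the codes -/

open Classical in
/-- the number of valid codes below `p` -/
noncomputable def idx (d : Dt) (p : ℕ) : ℕ := Nat.count (Vd d) p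

/-- the `n`-th valid code -/
noncomputable def el (d : Dt) (n : ℕ) : ℕ := Nat.nth (Vd d) n

theorem el_vd (d : Dt) (n : ℕ) : Vd d (el d n) := Nat.nth_mem_of_infinite (vd_inf d) n

theorem idx_el (d : Dt) (n : ℕ) : idx d (el d n) = n := by
  classical
  unfold idx el
  convert Nat.count_nth_of_infinite (p := Vd d) (vd_inf d) n

theorem el_idx {d : Dt} {p : ℕ} (h : Vd d p) : el d (idx d p) = p := by
  classical
  unfold idx el
  convert Nat.nth_count (p := Vd d) h

/-- the cut of the element `n` -/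
noncomputable def ec (d : Dt) (n : ℕ) : ℕ := (el d n).unpair.1

/-- the word of the element `n` -/
noncomputable def ew (d : Dt) (n : ℕ) : Gm := wd (el d n).unpair.2

/-- the element with given cut and word -/
noncomputable def em (d : Dt) (c : ℕ) (w : Gm) : ℕ := idx d (cd c w)

theorem ec_em {d : Dt} {c : ℕ} {w : Gm} (h : Val d c w) : ec d (em d c w) = c := by
  unfold ec em
  rw [el_idx (val_vd h), cd_fst]

theorem ew_em {d : Dt} {c : ℕ} {w : Gm} (h : Val d c w) : ew d (em d c w) = w := by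
  unfold ew em
  rw [el_idx (val_vd h), wd_cd]

theorem em_ec (d : Dt) (n : ℕ) : em d (ec d n) (ew d n) = n := by
  unfold em ec ew
  rw [cd_wd (el_vd d n), idx_el]

theorem e_val (d : Dt) (n : ℕ) : Val d (ec d n) (ew d n) := vd_val (el_vd d n)

variable {κ : ℕ}

/-- the structure of index `i` on the natural numbers -/
def As (d : Dt) (i : Fin (κ + 1)) : Str := fun sy m n =>
  RelG d i sy (ec d m) (ew d m) (ec d n) (ew d n)

theorem ci_of_iso {d : Dt} {i : Fin (κ + 1)} {B : Str} {f : ℕ ≃ ℕ}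
    (h : IsIso (As d i) B f) : CI d i B fun c w => f (em d c w) where
  rel := fun sy c w c' w' hw hw' => by
    rw [← h]
    show _ ↔ RelG d i sy _ _ _ _
    rw [ec_em hw, ew_em hw, ec_em hw', ew_em hw']
  inj := fun c w c' w' hw hw' e => by
    have := f.injective e
    exact ⟨by rw [← ec_em hw, ← ec_em hw', this], by rw [← ew_em hw, ← ew_em hw', this]⟩
  surj := fun z => ⟨ec d (f.symm z), ew d (f.symm z), e_val d _, by simp [em_ec]⟩

theorem CI.toIso {d : Dt} {i : Fin (κ + 1)} {B : Str} {G : ℕ → Gm → ℕ} (h : CI d i B G) :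
    ∃ f : ℕ ≃ ℕ, IsIso (As d i) B f ∧ ∀ n, f n = G (ec d n) (ew d n) := by
  refine ⟨Equiv.ofBijective (fun n => G (ec d n) (ew d n)) ⟨?_, ?_⟩, ?_, ?_⟩
  · intro m n e
    obtain ⟨h1, h2⟩ := h.inj _ _ _ _ (e_val d m) (e_val d n) e
    rw [← em_ec d m, ← em_ec d n, h1, h2]
  · intro z
    obtain ⟨c, w, h1, h2⟩ := h.surj z
    exact ⟨em d c w, by show G (ec d (em d c w)) (ew d (em d c w)) = z; rw [ec_em h1, ew_em h1, h2]⟩
  · intro sy x y
    exact h.rel sy _ _ _ _ (e_val d x) (e_val d y)
  · intro n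
    rfl

/-! ### computability -/

theorem pr_dl : Primrec dl := by
  have h1 : Primrec fun x : ℕ => x / 2 := Primrec.nat_div.comp Primrec.id (Primrec.const 2)
  have h2 : Primrec fun x : ℕ => x % 2 == 1 :=
    Primrec.beq.comp (Primrec.nat_mod.comp Primrec.id (Primrec.const 2)) (Primrec.const 1)
  exact Primrec.pair h1 h2

theorem pr_ce : Primrec ce := by
  have h1 : Primrec fun x : ℕ × Bool => 2 * x.1 :=
    Primrec.nat_mul.comp (Primrec.const 2) Primrec.fst
  have h2 : Primrec fun x : ℕ × Bool => (if x.2 = true then 1 else 0 : ℕ) :=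
    Primrec.ite (Primrec.eq.comp Primrec.snd (Primrec.const true)) (Primrec.const 1)
      (Primrec.const 0)
  exact Primrec.nat_add.comp h1 h2

theorem pr_lw : Primrec lw :=
  Primrec.list_map (Primrec.ofNat (List ℕ)) (pr_dl.comp Primrec.snd)

theorem pr_cwd : Primrec cwd :=
  Primrec.encode.comp (Primrec.list_map Primrec.id (pr_ce.comp Primrec.snd))

/-- one step of the reduction -/
def rst (x : ℕ × Bool) (l : List (ℕ × Bool)) : List (ℕ × Bool) :=
  List.casesOn l [x] fun y t => if x.1 = y.1 ∧ x.2 = !y.2 then t else x :: y :: t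

theorem reduce_foldr (L : List (ℕ × Bool)) : FreeGroup.reduce L = L.foldr rst [] := by
  induction L with
  | nil => rfl
  | cons x l ih =>
    rw [List.foldr_cons, ← ih]
    rfl

theorem pr_rst : Primrec₂ rst := by
  have h1 : Primrec fun p : ((ℕ × Bool) × List (ℕ × Bool)) × ((ℕ × Bool) × List (ℕ × Bool)) =>
      if p.1.1.1 = p.2.1.1 ∧ p.1.1.2 = !p.2.1.2 then p.2.2 else p.1.1 :: p.2.1 :: p.2.2 := by
    have x : Primrec fun p : ((ℕ × Bool) × List (ℕ × Bool)) ×
        ((ℕ × Bool) × List (ℕ × Bool)) => p.1.1 := Primrec.fst.comp Primrec.fst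
    have y : Primrec fun p : ((ℕ × Bool) × List (ℕ × Bool)) ×
        ((ℕ × Bool) × List (ℕ × Bool)) => p.2.1 := Primrec.fst.comp Primrec.snd
    have t : Primrec fun p : ((ℕ × Bool) × List (ℕ × Bool)) ×
        ((ℕ × Bool) × List (ℕ × Bool)) => p.2.2 := Primrec.snd.comp Primrec.snd
    exact Primrec.ite ((Primrec.eq.comp (Primrec.fst.comp x) (Primrec.fst.comp y)).and
      (Primrec.eq.comp (Primrec.snd.comp x) (Primrec.not.comp (Primrec.snd.comp y)))) t
      (Primrec.list_cons.comp x (Primrec.list_cons.comp y t))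
  have h2 : Primrec fun p : (ℕ × Bool) × List (ℕ × Bool) => (List.casesOn p.2 [p.1]
      fun y t => if p.1.1 = y.1 ∧ p.1.2 = !y.2 then t else p.1 :: y :: t :
      List (ℕ × Bool)) :=
    Primrec.list_casesOn (f := fun p : (ℕ × Bool) × List (ℕ × Bool) => p.2)
      (g := fun p => [p.1])
      (h := fun p q => if p.1.1 = q.1.1 ∧ p.1.2 = !q.1.2 then q.2 else p.1 :: q.1 :: q.2)
      Primrec.snd (Primrec.list_cons.comp Primrec.fst (Primrec.const [])) h1
  exact h2

theorem pr_reduce : Primrec (FreeGroup.reduce : List (ℕ × Bool) → List (ℕ × Bool)) := by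
  have h : Primrec fun L : List (ℕ × Bool) => L.foldr rst [] :=
    Primrec.list_foldr (f := fun L : List (ℕ × Bool) => L) (g := fun _ => [])
      (h := fun _ q => rst q.1 q.2) Primrec.id (Primrec.const [])
      (pr_rst.comp (Primrec.fst.comp Primrec.snd) (Primrec.snd.comp Primrec.snd))
  exact h.of_eq fun L => (reduce_foldr L).symm

variable {α : Type} [Primcodable α]

/-- the `i`-th signed letter of a list -/
def gl (L : List (ℕ × Bool)) (i : ℕ) : ℕ × Bool := (L[i]?).getD (0, false)

theorem c_gl {L : α → List (ℕ × Bool)} {i : α → ℕ} (hL : Computable L) (hi : Computable i) :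
    Computable fun a => gl (L a) (i a) := by
  unfold gl
  exact (Primrec.option_getD.to_comp).comp (Computable.list_getElem?.comp hL hi)
    (Computable.const (0, false))

theorem gl_of_lt {L : List (ℕ × Bool)} {i : ℕ} (h : i < L.length) : gl L i = L[i] := by
  unfold gl
  rw [List.getElem?_eq_getElem h]
  rfl

theorem p_lall {L : α → List (ℕ × Bool)} {R : α → ℕ → Prop} (hL : Computable L)
    (hR : ComputablePred fun p : α × ℕ => R p.1 p.2) :
    ComputablePred fun a => ∀ x ∈ L a, R a x.1 := by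
  have h : ComputablePred fun a => ∀ i < (L a).length, R a (gl (L a) i).1 :=
    p_ball (Computable.list_length.comp hL) (computablePred_comp hR
      (c_pair (c_fst c_id) (c_fst (c_gl (c_l hL) c_r))))
  refine h.of_eq fun a => ⟨fun h x hx => ?_, fun h i hi => ?_⟩
  · obtain ⟨i, hi, rfl⟩ := List.mem_iff_getElem.1 hx
    have := h i hi
    rwa [gl_of_lt hi] at this
  · rw [gl_of_lt hi]
    exact h _ (List.getElem_mem hi)

theorem c_lmap {L : α → List (ℕ × Bool)} {f : α → ℕ → ℕ} (hL : Computable L)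
    (hf : Computable fun p : α × ℕ => f p.1 p.2) :
    Computable fun a => (L a).map fun x => (f a x.1, x.2) := by
  have h : Computable fun a => (List.range (L a).length).map
      fun i => (f a (gl (L a) i).1, (gl (L a) i).2) :=
    c_tab (Computable.list_length.comp hL) (c_pair (hf.comp (c_pair (c_fst c_id)
      (c_fst (c_gl (c_l hL) c_r)))) (c_snd (c_gl (c_l hL) c_r)))
  refine h.of_eq fun a => ?_
  refine List.ext_getElem (by simp) fun i h1 h2 => ?_
  simp only [List.length_map, List.length_range] at h1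
  simp only [List.getElem_map, List.getElem_range]
  rw [gl_of_lt h1]

section
variable {d : Dt} (hd : DtC d)

include hd in
theorem d_agr {s s' e : α → ℕ} (hs : Computable s) (hs' : Computable s') (he : Computable e) :
    ComputablePred fun a => agr d.toDat (s a) (s' a) (e a) := by
  unfold agr
  exact p_ball he (p_eq (hd.O.comp (c_pair (c_l hs) c_r)) (hd.O.comp (c_pair (c_l hs') c_r)))

include hd in
theorem d_St {u τ : α → ℕ} (hu : Computable u) (hτ : Computable τ) :
    ComputablePred fun a => St d (u a) (τ a) := by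
  unfold St
  have h1 : ComputablePred fun p : (α × ℕ) × ℕ => u p.1.1 < p.2 := p_lt (c_l (c_l hu)) c_r
  have h2 : ComputablePred fun p : (α × ℕ) × ℕ => agr d.toDat p.2 (u p.1.1) p.1.2 :=
    d_agr hd c_r (c_l (c_l hu)) (c_l c_r)
  have h3 : ComputablePred fun p : (α × ℕ) × ℕ => d.O p.2 p.1.2 = 1 :=
    p_eq (hd.O.comp (c_pair c_r (c_l c_r))) (c_const 1)
  have h4 : ComputablePred fun p : α × ℕ => d.O (u p.1) p.2 = 1 :=
    p_eq (hd.O.comp (c_pair (c_l hu) c_r)) (c_const 1)
  exact p_ball (c_sub (hd.J.comp hu) (c_const 1)) (p_imp h4 (p_bex (c_succ (c_l hτ))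
    (p_and h1 (p_and h2 h3))))

include hd in
theorem d_W {c l : α → ℕ} (hc : Computable c) (hl : Computable l) :
    ComputablePred fun a => W d (c a) (l a) := by
  unfold W
  exact p_and (p_not (p_eq (hd.J.comp (c_up1 hl)) (c_const 0))) (p_and (p_lt hc (c_up1 hl))
    (p_and (p_le hc (c_lenj (hd.X.comp (c_up1 hl)))) (d_St hd (c_up1 hl) (c_up2 hl))))

include hd in
theorem d_anc {c u : α → ℕ} (hc : Computable c) (hu : Computable u) :
    Computable fun a => anc d.pa (c a) (u a) := by
  unfold anc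
  refine Computable.nat_rec (f := u) (g := u)
    (h := fun (a : α) (q : ℕ × ℕ) => if c a < d.pa q.2 then d.pa q.2 else q.2) hu hu ?_
  have h1 : Computable fun p : α × ℕ × ℕ => d.pa p.2.2 := hd.pa.comp (c_snd (c_snd c_id))
  have h2 : Computable fun p : α × ℕ × ℕ => c p.1 := hc.comp (c_fst c_id)
  exact c_ite (p_lt h2 h1) h1 (c_snd (c_snd c_id))

include hd in
theorem d_E {c l l' : α → ℕ} (hc : Computable c) (hl : Computable l) (hl' : Computable l') :
    ComputablePred fun a => E d (c a) (l a) (l' a) := by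
  unfold E
  have h1 : Computable fun p : α × ℕ => dig (d.X (l p.1).unpair.1) p.2 :=
    c_dig (hd.X.comp (c_up1 (c_l hl))) c_r
  have h2 : Computable fun p : α × ℕ => dig (d.X (l' p.1).unpair.1) p.2 :=
    c_dig (hd.X.comp (c_up1 (c_l hl'))) c_r
  exact p_and (p_eq (d_anc hd hc (c_up1 hl)) (d_anc hd hc (c_up1 hl')))
    (p_ball hc (p_eq h1 h2))

include hd in
theorem d_rep {c l : α → ℕ} (hc : Computable c) (hl : Computable l) :
    Computable fun a => rep d (c a) (l a) := by
  have h := c_least (α := α) (P := fun a m => m = l a ∨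
      (W d (c a) (l a) ∧ W d (c a) m ∧ E d (c a) (l a) m))
    (p_or (p_eq c_r (c_l hl)) (p_and (d_W hd (c_l hc) (c_l hl)) (p_and
      (d_W hd (c_l hc) c_r) (d_E hd (c_l hc) (c_l hl) c_r)))) fun a => ⟨l a, Or.inl rfl⟩
  exact h

include hd in
theorem d_Lam {c l : α → ℕ} (hc : Computable c) (hl : Computable l) :
    ComputablePred fun a => Lam d (c a) (l a) := by
  unfold Lam
  exact p_and (d_W hd hc hl) (p_eq (d_rep hd hc hl) hl)

include hd in
theorem d_Vd : ComputablePred (Vd d) := by
  have h1 : Computable fun p : ℕ => lw p.unpair.2 := pr_lw.to_comp.comp (c_up2 c_id)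
  unfold Vd
  refine p_and (eq_comp (pr_reduce.to_comp.comp h1) h1) (p_lall (R := fun p l =>
    Lam d p.unpair.1 l) h1 (d_Lam hd (c_up1 (c_l c_id)) c_r))

include hd in
theorem c_idx : Computable (idx d) := by
  classical
  have h : Computable fun p : ℕ =>
      (Nat.rec 0 (fun n b => b + (if Vd d n then 1 else 0)) p : ℕ) := by
    refine Computable.nat_rec (f := fun p : ℕ => p) (g := fun _ => 0)
      (h := fun (_ : ℕ) (q : ℕ × ℕ) => (q.2 + (if Vd d q.1 then 1 else 0) : ℕ)) Computable.id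
      (Computable.const _) ?_
    refine c_add (c_snd (c_snd c_id)) (c_ite ?_ (c_const 1) (c_const 0))
    exact computablePred_comp (d_Vd hd) (c_fst (c_snd c_id))
  refine h.of_eq fun p => ?_
  unfold idx
  induction p with
  | zero => rfl
  | succ p ih =>
    rw [Nat.count_succ, ← ih]

include hd in
theorem c_el : Computable (el d) := by
  have h := c_least (P := fun n m : ℕ => Vd d m ∧ idx d m = n)
    (p_and (computablePred_comp (d_Vd hd) (c_snd c_id))
      (p_eq ((c_idx hd).comp (c_snd c_id)) (c_fst c_id)))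
    (fun n => ⟨el d n, el_vd d n, idx_el d n⟩)
  refine h.of_eq fun n => ?_
  have : {m | Vd d m ∧ idx d m = n} = {el d n} := by
    ext m
    rw [Set.mem_singleton_iff]
    show Vd d m ∧ idx d m = n ↔ _
    constructor
    · rintro ⟨h1, h2⟩
      rw [← h2, el_idx h1]
    · rintro rfl
      exact ⟨el_vd d n, idx_el d n⟩
  rw [this, csInf_singleton]

/-- the degree of a list -/
def ld (κ : ℕ) (L : List (ℕ × Bool)) : Fin (κ + 1) :=
  L.foldr (fun x s => if x.2 = true then s + 1 else s - 1) 0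

theorem ld_eq (L : List (ℕ × Bool)) :
    dg κ (FreeGroup.mk L) = Multiplicative.ofAdd (ld κ L) := by
  induction L with
  | nil => exact map_one _
  | cons x l ih =>
    rw [mk_cons, map_mul, ih]
    obtain ⟨a, b⟩ := x
    cases b with
    | true =>
      have h1 : (FreeGroup.mk [(a, true)] : Gm) = FreeGroup.of a := rfl
      rw [h1, dg_of, ← ofAdd_add, add_comm (1 : Fin (κ + 1)) (ld κ l)]
      rfl
    | false =>
      rw [mk_false, map_inv, dg_of, ← ofAdd_neg, ← ofAdd_add, neg_add_eq_sub]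
      rfl

theorem pr_ld (κ : ℕ) : Primrec (ld κ) := by
  have h1 : Primrec fun q : Bool × Fin (κ + 1) =>
      if q.1 = true then q.2 + 1 else q.2 - 1 := Primrec.dom_finite _
  have h2 : Primrec₂ fun (_ : List (ℕ × Bool)) (q : (ℕ × Bool) × Fin (κ + 1)) =>
      if q.1.2 = true then q.2 + 1 else q.2 - 1 :=
    h1.comp (Primrec.pair (Primrec.snd.comp (Primrec.fst.comp Primrec.snd))
      (Primrec.snd.comp Primrec.snd))
  exact Primrec.list_foldr (f := fun L : List (ℕ × Bool) => L) (g := fun _ => 0)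
    (h := fun _ q => if q.1.2 = true then q.2 + 1 else q.2 - 1) Primrec.id
    (Primrec.const 0) h2

/-- equality of words in terms of codes -/
theorem lw_iff (d : Dt) (n : ℕ) (L : List (ℕ × Bool)) :
    lw (el d n).unpair.2 = FreeGroup.reduce L ↔ ew d n = FreeGroup.mk L := by
  have hvn := el_vd d n
  unfold ew wd
  constructor
  · intro h
    rw [h, FreeGroup.reduce.self]
  · intro h
    have := congrArg FreeGroup.toWord h
    rwa [FreeGroup.toWord_mk, FreeGroup.toWord_mk, hvn.1] at this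

theorem el_iff (d : Dt) (m n : ℕ) :
    el d m = el d n ↔ ec d m = ec d n ∧ ew d m = ew d n := by
  constructor
  · intro h
    unfold ec ew
    rw [h]
    exact ⟨rfl, rfl⟩
  · rintro ⟨h1, h2⟩
    exact vd_inj (el_vd d m) (el_vd d n) h1 h2

theorem dg_ew (d : Dt) (m : ℕ) (i : Fin (κ + 1)) :
    ld κ (lw (el d m).unpair.2) = i ↔ dg κ (ew d m) = Multiplicative.ofAdd i := by
  unfold ew wd
  rw [ld_eq]
  exact Multiplicative.ofAdd.injective.eq_iff.symm

theorem ew_mul (d : Dt) (m n l : ℕ) :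
    lw (el d n).unpair.2 = FreeGroup.reduce (lw (el d m).unpair.2 ++ [(l, true)]) ↔
      ew d n = ew d m * FreeGroup.of l := by
  rw [lw_iff, ← FreeGroup.mul_mk]
  rfl

theorem ew_fold (d : Dt) (m n c : ℕ) :
    lw (el d n).unpair.2 = FreeGroup.reduce ((lw (el d m).unpair.2).map fun x =>
      (rep d c x.1, x.2)) ↔ ew d n = fold d c (ew d m) := by
  rw [lw_iff]
  rfl

include hd in
theorem c_ec : Computable (ec d) := c_up1 (c_el hd)

include hd in
theorem c_lel : Computable fun n => lw (el d n).unpair.2 := pr_lw.to_comp.comp (c_up2 (c_el hd))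

include hd in
theorem as_comp1 : ComputablePred fun q : ℕ × ℕ => el d q.1 = el d q.2 :=
  p_eq ((c_el hd).comp (c_fst c_id)) ((c_el hd).comp (c_snd c_id))

include hd in
theorem as_comp2 : ComputablePred fun q : ℕ × ℕ × ℕ =>
    Lam d (ec d q.2.1) q.1 ∧ ew d q.2.2 = ew d q.2.1 * FreeGroup.of q.1 := by
  have h1 : Computable fun q : ℕ × ℕ × ℕ => q.1 := c_fst c_id
  have h2 : Computable fun q : ℕ × ℕ × ℕ => ec d q.2.1 := (c_ec hd).comp (c_fst (c_snd c_id))
  have h3 : Computable fun q : ℕ × ℕ × ℕ => lw (el d q.2.1).unpair.2 :=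
    (c_lel hd).comp (c_fst (c_snd c_id))
  have h4 : Computable fun q : ℕ × ℕ × ℕ => lw (el d q.2.2).unpair.2 :=
    (c_lel hd).comp (c_snd (c_snd c_id))
  have h5 : Computable fun q : ℕ × ℕ × ℕ =>
      FreeGroup.reduce (lw (el d q.2.1).unpair.2 ++ [(q.1, true)]) :=
    pr_reduce.to_comp.comp (Computable.list_concat.comp h3 (c_pair h1 (c_const true)))
  have h6 : ComputablePred fun q : ℕ × ℕ × ℕ => lw (el d q.2.2).unpair.2 =
      FreeGroup.reduce (lw (el d q.2.1).unpair.2 ++ [(q.1, true)]) := eq_comp h4 h5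
  have h7 := h6.of_eq fun q => ew_mul d q.2.1 q.2.2 q.1
  exact p_and (d_Lam hd h2 h1) h7

include hd in
theorem as_comp3 : ComputablePred fun q : ℕ × ℕ =>
    ew d q.2 = fold d (ec d q.2) (ew d q.1) := by
  have h3 : Computable fun q : ℕ × ℕ => lw (el d q.1).unpair.2 := (c_lel hd).comp (c_fst c_id)
  have h4 : Computable fun q : ℕ × ℕ => lw (el d q.2).unpair.2 := (c_lel hd).comp (c_snd c_id)
  have h5 : Computable fun q : ℕ × ℕ =>
      (lw (el d q.1).unpair.2).map fun x => (rep d (ec d q.2) x.1, x.2) :=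
    c_lmap (f := fun (q : ℕ × ℕ) l => rep d (ec d q.2) l) h3
      (d_rep hd (c_l ((c_ec hd).comp (c_snd c_id))) c_r)
  have h6 : ComputablePred fun q : ℕ × ℕ => lw (el d q.2).unpair.2 =
      FreeGroup.reduce ((lw (el d q.1).unpair.2).map fun x => (rep d (ec d q.2) x.1, x.2)) :=
    eq_comp h4 (pr_reduce.to_comp.comp h5)
  exact h6.of_eq fun q => ew_fold d q.1 q.2 (ec d q.2)

include hd in
theorem as_comp4 (i : Fin (κ + 1)) : ComputablePred fun m : ℕ =>
    dg κ (ew d m) = Multiplicative.ofAdd i := by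
  have h1 : ComputablePred fun m : ℕ => ld κ (lw (el d m).unpair.2) = i :=
    eq_comp ((pr_ld κ).to_comp.comp (c_lel hd)) (c_const i)
  exact h1.of_eq fun m => dg_ew d m i

include hd in
theorem as_comp (i : Fin (κ + 1)) : IsComp (As d i) := by
  have sy : Computable fun q : ℕ × ℕ × ℕ => q.1 := c_fst c_id
  have m : Computable fun q : ℕ × ℕ × ℕ => q.2.1 := c_fst (c_snd c_id)
  have n : Computable fun q : ℕ × ℕ × ℕ => q.2.2 := c_snd (c_snd c_id)
  have hm : Computable fun q : ℕ × ℕ × ℕ => ec d q.2.1 := (c_ec hd).comp m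
  have hn : Computable fun q : ℕ × ℕ × ℕ => ec d q.2.2 := (c_ec hd).comp n
  have e1 : ComputablePred fun q : ℕ × ℕ × ℕ => ec d q.2.1 = ec d q.2.2 ∧
      ew d q.2.1 = ew d q.2.2 :=
    (computablePred_comp (as_comp1 hd) (c_pair m n)).of_eq fun q => el_iff d q.2.1 q.2.2
  have e2 : ComputablePred fun q : ℕ × ℕ × ℕ => Lam d (ec d q.2.1) q.1.unpair.2 ∧
      ew d q.2.2 = ew d q.2.1 * FreeGroup.of q.1.unpair.2 :=
    computablePred_comp (P := fun q : ℕ × ℕ × ℕ =>
    Lam d (ec d q.2.1) q.1 ∧ ew d q.2.2 = ew d q.2.1 * FreeGroup.of q.1) (as_comp2 hd)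
      (c_pair (c_up2 sy) (c_pair m n))
  have e3 : ComputablePred fun q : ℕ × ℕ × ℕ =>
      ew d q.2.2 = fold d (ec d q.2.2) (ew d q.2.1) :=
    computablePred_comp (as_comp3 hd) (c_pair m n)
  have e4 : ComputablePred fun q : ℕ × ℕ × ℕ => dg κ (ew d q.2.1) = Multiplicative.ofAdd i :=
    computablePred_comp (as_comp4 hd i) m
  have key := p_or (p_and (p_eq (c_up1 sy) (c_const 0)) (p_and e1 (p_and
      (p_eq hm (c_const 0)) e4)))
    (p_or (p_and (p_eq (c_up1 sy) (c_const 1)) (p_and e1 (p_eq hm (c_up2 sy))))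
    (p_or (p_and (p_eq (c_up1 sy) (c_const 2)) (p_and (p_eq hm hn) e2))
    (p_and (p_eq (c_up1 sy) (c_const 3)) (p_and (p_eq hm (c_succ hn)) e3))))
  refine key.of_eq fun q => ?_
  unfold As RelG
  simp only [and_assoc]

end

end Pool.Agent.H668
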