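import Mathlib

set_option autoImplicit false

/-! Constructivizations and degree spectra of relations. -/

namespace Pool.Agent.H668

/-- A constructivization of the algebraic system with carrier `A` and one ternary relation
`S`: a surjection `nu` from the natural numbers onto `A` under which the equality and the
relation `S` are computable. -/
structure Constr {A : Type} (S : A → A → A → Prop) where
  nu : ℕ → A
  surj : Function.Surjective nu
  eq_comp : ComputablePred fun p : ℕ × ℕ => nu p.1 = nu p.2
  rel_comp : ComputablePred fun q : ℕ × ℕ × ℕ => S (nu q.1) (nu q.2.1) (nu q.2.2)

open Classical in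
/-- the characteristic function of a set of natural numbers -/
noncomputable def ch (X : ℕ → Prop) (n : ℕ) : ℕ := if X n then 1 else 0

/-- the Turing degree of a set of natural numbers -/
noncomputable def deg (X : ℕ → Prop) : TuringDegree :=
  toAntisymmetrization TuringReducible (fun z => Part.some (ch X z))

/-- The degree spectrum of the relation `R` on the algebraic system `(A; S)`: the set of the
Turing degrees of the preimages of `R` under the constructivizations of the system. -/
def DgSp {A : Type} (S : A → A → A → Prop) (R : A → Prop) : Set TuringDegree :=
  {a | ∃ c : Constr S, a = deg fun n => R (c.nu n)}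

/-- The `Σ⁰_n` predicates on a coded type: level `0` consists of the computable predicates,
and a predicate is at level `n + 1` when it has the form `∃ y, ¬ Q (a, y)` with `Q` at
level `n`. -/
def Sig : ℕ → ∀ {α : Type} [Primcodable α], (α → Prop) → Prop
  | 0, _, _, X => ComputablePred X
  | n + 1, α, _, X => ∃ Q : α × ℕ → Prop, Sig n Q ∧ ∀ a, X a ↔ ∃ y, ¬ Q (a, y)

end Pool.Agent.H668
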