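import Mathlib
import Pool.Graph.R_seed8.Helper941.Dim.Iso
import Pool.Agent.H668.Code

set_option autoImplicit false

namespace Pool.Agent.H668

open Encodable Denumerable Nat.Partrec Pool.Agent.Helper941 Pool.Agent.Helper941.IsoProb
open Pool.Agent.Helper941.Zeta
open Pool.Agent.Helper941.Dim hiding entry row row_zero row_succ row_length row_get nxt hist
  hist_succ hist_length hist_get hh getc_hist con c_entry c_row c_nxt c_hist c_hh con_O con_C
  con_J con_pa hh_row con_ent con_ent' getc_ext getc_ext' entry_eq deq_con con_spec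
  el idx el_valid idx_el el_idx c_idx c_el As as_comp

variable {d : Dt} {κ : ℕ} {i : Fin (κ + 1)} {B : Str} {G : ℕ → Gm → ℕ} {F : ℕ → Gm}

theorem take_succ' {L : List (ℕ × Bool)} {n : ℕ} (h : n < L.length) :
    (FreeGroup.mk (L.take (n + 1)) : Gm) =
      FreeGroup.mk (L.take n) * FreeGroup.mk [gl L n] := by
  rw [FreeGroup.mul_mk, gl_of_lt h, List.take_succ_eq_append_getElem h]

/-- walking along the letters of a word -/
theorem walk (hd : DtC d) (hBc : IsComp B) (hG : CI d i B G) (hF : Flw d F)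
    (hZ : Computable fun c => G c (F c)) :
    Computable fun n => G (ec d n) (F (ec d n) * ew d n) := by
  let L : ℕ → List (ℕ × Bool) := fun n => lw (el d n).unpair.2
  have hL : Computable L := c_lel hd
  let Q : ℕ → ℕ → Prop := fun n m => ent m 0 = G (ec d n) (F (ec d n)) ∧
    ∀ k < (L n).length,
      ((gl (L n) k).2 = true → B (Nat.pair 2 (gl (L n) k).1) (ent m k) (ent m (k + 1))) ∧
      ((gl (L n) k).2 = false → B (Nat.pair 2 (gl (L n) k).1) (ent m (k + 1)) (ent m k))
  have hQ : ComputablePred fun p : ℕ × ℕ => Q p.1 p.2 := by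
    have e0 : Computable fun p : (ℕ × ℕ) × ℕ => ent p.1.2 p.2 :=
      c_ent (c_snd (c_fst c_id)) (c_snd c_id)
    have e1 : Computable fun p : (ℕ × ℕ) × ℕ => ent p.1.2 (p.2 + 1) :=
      c_ent (c_snd (c_fst c_id)) (c_succ (c_snd c_id))
    have g1 : Computable fun p : (ℕ × ℕ) × ℕ => gl (L p.1.1) p.2 :=
      c_gl (hL.comp (c_fst (c_fst c_id))) (c_snd c_id)
    have b1 : ComputablePred fun p : (ℕ × ℕ) × ℕ =>
        B (Nat.pair 2 (gl (L p.1.1) p.2).1) (ent p.1.2 p.2) (ent p.1.2 (p.2 + 1)) :=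
      computablePred_comp (P := fun q : ℕ × ℕ × ℕ => B q.1 q.2.1 q.2.2) hBc
        (c_pair (c_npair (c_const 2) (c_fst g1)) (c_pair e0 e1))
    have b2 : ComputablePred fun p : (ℕ × ℕ) × ℕ =>
        B (Nat.pair 2 (gl (L p.1.1) p.2).1) (ent p.1.2 (p.2 + 1)) (ent p.1.2 p.2) :=
      computablePred_comp (P := fun q : ℕ × ℕ × ℕ => B q.1 q.2.1 q.2.2) hBc
        (c_pair (c_npair (c_const 2) (c_fst g1)) (c_pair e1 e0))
    refine p_and (p_eq (c_ent (c_snd c_id) (c_const 0))
      ((hZ.comp (c_ec hd)).comp (c_fst c_id))) (p_ball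
      (Computable.list_length.comp (hL.comp (c_fst c_id))) (p_and (p_imp
      (p_of_bool (c_snd g1)) b1) (p_imp ?_ b2)))
    exact p_eqb (c_snd g1) (c_const false)
  have hlam : ∀ n, ∀ k < (L n).length, Lam d (ec d n) (gl (L n) k).1 := by
    intro n k hk
    rw [gl_of_lt hk]
    exact (el_vd d n).2 _ (List.getElem_mem hk)
  have hvt : ∀ n k, Val d (ec d n) (FreeGroup.mk ((L n).take k)) := fun n k =>
    mk_mem fun x hx => (el_vd d n).2 x (List.mem_of_mem_take hx)
  have hvf : ∀ n k, Val d (ec d n) (F (ec d n) * FreeGroup.mk ((L n).take k)) := fun n k =>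
    (hF.val _).mul (hvt n k)
  have hstep : ∀ n, ∀ k < (L n).length,
      ((gl (L n) k).2 = true →
        F (ec d n) * FreeGroup.mk ((L n).take (k + 1)) =
          F (ec d n) * FreeGroup.mk ((L n).take k) * FreeGroup.of (gl (L n) k).1) ∧
      ((gl (L n) k).2 = false →
        F (ec d n) * FreeGroup.mk ((L n).take (k + 1)) =
          F (ec d n) * FreeGroup.mk ((L n).take k) * (FreeGroup.of (gl (L n) k).1)⁻¹) := by
    intro n k hk
    rw [take_succ' hk]
    constructor
    · intro h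
      have : gl (L n) k = ((gl (L n) k).1, true) := Prod.ext rfl h
      rw [this, mul_assoc]
      rfl
    · intro h
      have : gl (L n) k = ((gl (L n) k).1, false) := Prod.ext rfl h
      rw [this, mk_false, mul_assoc]
  have hex : ∀ n, ∃ m, Q n m := by
    intro n
    obtain ⟨m, hm⟩ := exists_ent ((L n).length + 1) fun k =>
      G (ec d n) (F (ec d n) * FreeGroup.mk ((L n).take k))
    refine ⟨m, ?_, fun k hk => ?_⟩
    · rw [hm 0 (by omega), List.take_zero]
      show G _ (F _ * 1) = _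
      rw [mul_one]
    · rw [hm k (by omega), hm (k + 1) (by omega)]
      obtain ⟨h1, h2⟩ := hstep n k hk
      constructor
      · intro h
        rw [h1 h]
        exact hG.mk_two (hvf n k) (hlam n k hk)
      · intro h
        have h3 := hG.mk_two (hvf n (k + 1)) (hlam n k hk)
        have h4 : F (ec d n) * FreeGroup.mk ((L n).take (k + 1)) *
            FreeGroup.of (gl (L n) k).1 = F (ec d n) * FreeGroup.mk ((L n).take k) := by
          rw [h2 h, inv_mul_cancel_right]
        rwa [h4] at h3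
  have huniq : ∀ n m, Q n m → ∀ k ≤ (L n).length,
      ent m k = G (ec d n) (F (ec d n) * FreeGroup.mk ((L n).take k)) := by
    intro n m hm k
    induction k with
    | zero =>
      intro _
      rw [hm.1, List.take_zero]
      show _ = G _ (F _ * 1)
      rw [mul_one]
    | succ k ih =>
      intro hk
      have h1 := ih (by omega)
      obtain ⟨h2, h3⟩ := hstep n k (by omega)
      cases hb : (gl (L n) k).2 with
      | true =>
        have h4 := (hm.2 k (by omega)).1 hb
        rw [h1] at h4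
        rw [(hG.two (hvf n k) h4).2, h2 hb]
      | false =>
        have h4 := (hm.2 k (by omega)).2 hb
        rw [h1] at h4
        rw [(hG.two' (hvf n k) h4).2, h3 hb]
  have hc := c_least hQ hex
  refine (c_ent hc (Computable.list_length.comp hL)).of_eq fun n => ?_
  have h1 : Q n (sInf {m | Q n m}) := Nat.sInf_mem (s := {m | Q n m}) (hex n)
  rw [huniq n _ h1 _ (le_refl _), List.take_length]
  rfl

theorem d_vis (hd : DtC d) (g : ℕ → ℕ) (e : ℕ) : ComputablePred fun s => vis d.toDat g s e := by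
  induction e with
  | zero =>
    refine (p_eq (c_const 0) (c_const 0)).of_eq fun s => ?_
    exact ⟨fun _ i hi => by omega, fun _ => rfl⟩
  | succ e ih =>
    refine (p_and ih (p_eq (hd.O.comp (c_pair c_id (c_const e))) (c_const (g e)))).of_eq
      fun s => ?_
    constructor
    · rintro ⟨h1, h2⟩ i hi
      rcases Nat.lt_succ_iff_lt_or_eq.1 hi with h | h
      · exact h1 i h
      · rw [h]; exact h2
    · intro h
      exact ⟨fun i hi => h i (by omega), h e (by omega)⟩

theorem d_Rs (hd : DtC d) (g : ℕ → ℕ) (e N : ℕ) : ComputablePred (Rs d g e N) :=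
  p_and (p_le (c_const N) c_id) (p_and (d_vis hd g e)
    (p_eq (hd.O.comp (c_pair c_id (c_const e))) (c_const 1)))

theorem d_Rt (hd : DtC d) (g : ℕ → ℕ) (e : ℕ) : ComputablePred (Rt d.toDat g e) :=
  p_and (d_vis hd g e) (p_and (p_eq (hd.O.comp (c_pair c_id (c_const e))) (c_const 1))
    (p_lt (c_const (e + 1)) hd.J))

/-- the search for the base point of the limit flow at the cut `m` -/
def Sr (d : Dt) (g : ℕ → ℕ) (e N m0 : ℕ) (B : Str) (z0 m t s' a l b w : ℕ) : Prop :=
  (pv (Rs d g e N) s' t ∧ m ≤ s') ∧ ent a 0 = z0 ∧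
    (∀ k < m - m0, B (Nat.pair 3 0) (ent a (k + 1)) (ent a k)) ∧
    ent b 0 = ent a (m - m0) ∧ ent b l = cy (d.C t e - 1) m ∧
    ∀ k < l, (¬ Rt d.toDat g e (ent w k).unpair.1 ∧ s' < anc d.pa m (ent w k).unpair.1) ∧
      (B (Nat.pair 2 (ent w k)) (ent b k) (ent b (k + 1)) ∨
        B (Nat.pair 2 (ent w k)) (ent b (k + 1)) (ent b k))

theorem p_Sr (hd : DtC d) (hBc : IsComp B) (g : ℕ → ℕ) (e N m0 z0 : ℕ) {α : Type}
    [Primcodable α] {m t s' a l b w : α → ℕ} (hm : Computable m) (ht : Computable t)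
    (hs' : Computable s') (ha : Computable a) (hl : Computable l) (hb : Computable b)
    (hw : Computable w) : ComputablePred fun x =>
      Sr d g e N m0 B z0 (m x) (t x) (s' x) (a x) (l x) (b x) (w x) := by
  have hR := d_Rs hd g e N
  have h1 : ComputablePred fun x => pv (Rs d g e N) (s' x) (t x) := by
    unfold pv
    refine p_and (computablePred_comp hR hs') (p_and (computablePred_comp hR ht)
      (p_and (p_lt hs' ht) ?_))
    have h2 : ComputablePred fun x => ∀ y < t x, s' x < y → ¬ Rs d g e N y :=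
      p_ball ht (p_imp (p_lt (c_l hs') c_r) (p_not (computablePred_comp hR c_r)))
    exact h2.of_eq fun x => ⟨fun h y h3 h4 => h y h4 h3, fun h y h3 h4 => h y h4 h3⟩
  have hBB : ∀ {β : Type} [Primcodable β] {f g h : β → ℕ}, Computable f → Computable g →
      Computable h → ComputablePred fun x => B (f x) (g x) (h x) := fun hf hg hh =>
    computablePred_comp (P := fun q : ℕ × ℕ × ℕ => B q.1 q.2.1 q.2.2) hBc
      (c_pair hf (c_pair hg hh))
  have h2 : ComputablePred fun x => ∀ k < m x - m0,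
      B (Nat.pair 3 0) (ent (a x) (k + 1)) (ent (a x) k) :=
    p_ball (c_sub hm (c_const m0)) (hBB (c_const _) (c_ent (c_l ha) (c_succ c_r))
      (c_ent (c_l ha) c_r))
  have hwk : Computable fun p : α × ℕ => ent (w p.1) p.2 := c_ent (c_l hw) c_r
  have hbk : Computable fun p : α × ℕ => ent (b p.1) p.2 := c_ent (c_l hb) c_r
  have hbk' : Computable fun p : α × ℕ => ent (b p.1) (p.2 + 1) := c_ent (c_l hb) (c_succ c_r)
  have h3 : ComputablePred fun x => ∀ k < l x,
      (¬ Rt d.toDat g e (ent (w x) k).unpair.1 ∧ s' x < anc d.pa (m x) (ent (w x) k).unpair.1) ∧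
      (B (Nat.pair 2 (ent (w x) k)) (ent (b x) k) (ent (b x) (k + 1)) ∨
        B (Nat.pair 2 (ent (w x) k)) (ent (b x) (k + 1)) (ent (b x) k)) := by
    refine p_ball hl (p_and (p_and (p_not (computablePred_comp (d_Rt hd g e) (c_up1 hwk)))
      (p_lt (c_l hs') (d_anc hd (c_l hm) (c_up1 hwk)))) (p_or
      (hBB (c_npair (c_const 2) hwk) hbk hbk') (hBB (c_npair (c_const 2) hwk) hbk' hbk)))
  have hC : Computable fun x => cy (d.C (t x) e - 1) (m x) :=
    c_cy (c_sub (hd.C.comp (c_pair ht (c_const e))) (c_const 1)) hm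
  unfold Sr
  exact p_and (p_and h1 (p_le hm hs')) (p_and (p_eq (c_ent ha (c_const 0)) (c_const z0))
    (p_and h2 (p_and (p_eq (c_ent hb (c_const 0)) (c_ent ha (c_sub hm (c_const m0))))
      (p_and (p_eq (c_ent hb hl) hC) h3))))

section
variable {P : Pm} {g : ℕ → ℕ} {e N m0 : ℕ}
  (hS : Spec P d) (hT : TH P.T prn) (L : Lrg d g e N m0) (hG : CI d i B G)
  (H : Rsp d g e N (fun s => cM (d.C s e - 1)) (yt hG e))
  (hy : ∀ s m, Rs d g e N s → m ≤ cM (d.C s e - 1) → G m (yt hG e s m) = cy (d.C s e - 1) m)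
  (hF : Flw d F)
  (hk : ∀ s' t m, pv (Rs d g e N) s' t → m0 ≤ m → m ≤ s' →
    ∃ κ ∈ Sb (Kl d g e s' m), yt hG e t m = F m * κ)

include hS hT L hG H hy hF hk in
theorem sr_sound {m t s' a l b w : ℕ} (hm : m0 ≤ m)
    (h : Sr d g e N m0 B (G m0 (F m0)) m t s' a l b w) : ent a (m - m0) = G m (F m) := by
  obtain ⟨⟨h1, h2⟩, h3, h4, h5, h6, h7⟩ := h
  have hp := hS.pt hT
  have key : ∀ k, k ≤ m - m0 → ∃ x, Val d (m0 + k) x ∧ ent a k = G (m0 + k) x ∧
      fold d m0 x = F m0 := by
    intro k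
    induction k with
    | zero => intro _; exact ⟨F m0, hF.val m0, h3, fold_id (hF.val m0)⟩
    | succ k ih =>
      intro hk
      obtain ⟨x, hx1, hx2, hx3⟩ := ih (by omega)
      have h8 := h4 k (by omega)
      obtain ⟨c', w', h9, h10⟩ := hG.surj (ent a (k + 1))
      rw [hx2, ← h10] at h8
      obtain ⟨h11, h12⟩ := relG_three.1 ((hG.rel _ _ _ _ _ h9 hx1).2 h8)
      subst h11
      refine ⟨w', h9, h10.symm, ?_⟩
      rw [← fold_fold hp (show m0 ≤ m0 + k by omega) (Nat.le_succ (m0 + k)) h9, ← h12, hx3]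
  obtain ⟨x, hx1, hx2, hx3⟩ := key (m - m0) (le_refl _)
  have hmm : m0 + (m - m0) = m := by omega
  rw [hmm] at hx1 hx2
  have hcut := H.cut s' t h1
  have hr : Relation.ReflTransGen (Stp B fun l => ¬ Rt d.toDat g e l.unpair.1 ∧
      s' < anc d.pa m l.unpair.1) (ent b 0) (ent b l) :=
    reach_of_seq (r := fun l x y => (¬ Rt d.toDat g e l.unpair.1 ∧
      s' < anc d.pa m l.unpair.1) ∧ (B (Nat.pair 2 l) x y ∨ B (Nat.pair 2 l) y x))
      (z := ent b) (w := ent w) h7
  rw [h5, h6, hx2, ← hy t m h1.2.1 (by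
    show m ≤ cM (d.C t e - 1)
    have : cM (d.C t e - 1) = s' := hcut
    omega)] at hr
  obtain ⟨n, hn, h8⟩ := reach_sound hG hx1 hr
  obtain ⟨κ', hκ, h9⟩ := hk s' t m h1 hm h2
  have hyv : Val d m (yt hG e t m) := H.val t m h1.2.1 (by
    show m ≤ cM (d.C t e - 1)
    have : cM (d.C t e - 1) = s' := hcut
    omega)
  have h10 := (hG.inj _ _ _ _ hyv (hx1.mul (Sb_mono (fun _ h => h.1) hn)) h8).2
  have h11 : x = F m * (κ' * n⁻¹) := by
    rw [← mul_assoc, ← h9, h10, mul_inv_cancel_right]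
  have h12 : κ' * n⁻¹ ∈ Sb (Kl d g e s' m) := mul_mem hκ (inv_mem hn)
  have h13 : fold d m0 (κ' * n⁻¹) = 1 := by
    have h14 := hx3
    rw [h11, fold_mul, hF.down hp hm] at h14
    exact mul_eq_left.1 h14
  have h14 := map_one_of_inj (fun l l' hl hl' h => kl_inj hS hT L h1.1 hm h2 hl hl' h) h12 h13
  rw [hx2, h11, h14, mul_one]

include hG H hy hF hk in
theorem sr_complete {m : ℕ} (hm : m0 ≤ m) :
    ∃ t s' a l b w, Sr d g e N m0 B (G m0 (F m0)) m t s' a l b w := by
  obtain ⟨a1, ha1, ha2⟩ := H.inf m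
  obtain ⟨b1, hb1, hb2⟩ := H.inf (a1 + 1)
  obtain ⟨s', h1, haa⟩ := exists_pv ha2 hb2 (by omega)
  have hcut := H.cut s' b1 h1
  obtain ⟨κ', hκ, h2⟩ := hk s' b1 m h1 hm (by omega)
  obtain ⟨a, ha⟩ := exists_ent (m - m0 + 1) fun k => G (m0 + k) (F (m0 + k))
  have hr := reach_complete hG (S := fun l => ¬ Rt d.toDat g e l.unpair.1 ∧
      s' < anc d.pa m l.unpair.1) hκ (hF.val m)
  rw [← h2, hy b1 m h1.2.1 (by
    show m ≤ cM (d.C b1 e - 1)
    have : cM (d.C b1 e - 1) = s' := hcut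
    omega)] at hr
  obtain ⟨l, z, wl, hz0, hzl, hzs⟩ := seq_of_reach (r := fun l x y =>
    (¬ Rt d.toDat g e l.unpair.1 ∧ s' < anc d.pa m l.unpair.1) ∧
      (B (Nat.pair 2 l) x y ∨ B (Nat.pair 2 l) y x)) hr
  obtain ⟨b, hb⟩ := exists_ent (l + 1) z
  obtain ⟨w, hw⟩ := exists_ent l wl
  refine ⟨b1, s', a, l, b, w, ⟨h1, by omega⟩, ?_, fun k hk' => ?_, ?_, ?_, fun k hk' => ?_⟩
  · rw [ha 0 (by omega)]; rfl
  · rw [ha k (by omega), ha (k + 1) (by omega)]
    have := hG.mk_three (x := 0) (hF.val (m0 + k + 1))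
    rwa [hF.fold] at this
  · rw [hb 0 (by omega), ha (m - m0) (by omega), hz0]
    have hmm : m0 + (m - m0) = m := by omega
    rw [hmm]
  · rw [hb l (by omega), hzl]
  · rw [hw k hk', hb k (by omega), hb (k + 1) (by omega)]
    exact hzs k hk'

include hS hT L hG H hy hF hk in
/-- the base points of the limit flow are computable -/
theorem c_base (hd : DtC d) (hBc : IsComp B) : Computable fun c => G c (F c) := by
  let Q : ℕ → ℕ → Prop := fun k q => Sr d g e N m0 B (G m0 (F m0)) (m0 + k) q.unpair.1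
    q.unpair.2.unpair.1 q.unpair.2.unpair.2.unpair.1 q.unpair.2.unpair.2.unpair.2.unpair.1
    q.unpair.2.unpair.2.unpair.2.unpair.2.unpair.1
    q.unpair.2.unpair.2.unpair.2.unpair.2.unpair.2
  have hQ : ComputablePred fun p : ℕ × ℕ => Q p.1 p.2 := by
    have q : Computable fun p : ℕ × ℕ => p.2 := c_snd c_id
    exact p_Sr hd hBc g e N m0 (G m0 (F m0)) (c_add (c_const m0) (c_fst c_id)) (c_up1 q)
      (c_up1 (c_up2 q)) (c_up1 (c_up2 (c_up2 q))) (c_up1 (c_up2 (c_up2 (c_up2 q))))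
      (c_up1 (c_up2 (c_up2 (c_up2 (c_up2 q))))) (c_up2 (c_up2 (c_up2 (c_up2 (c_up2 q)))))
  have hex : ∀ k, ∃ q, Q k q := by
    intro k
    obtain ⟨t, s', a, l, b, w, h⟩ := sr_complete hG H hy hF hk (show m0 ≤ m0 + k by omega)
    refine ⟨Nat.pair t (Nat.pair s' (Nat.pair a (Nat.pair l (Nat.pair b w)))), ?_⟩
    show Sr d g e N m0 B (G m0 (F m0)) (m0 + k) _ _ _ _ _ _
    simp only [Nat.unpair_pair]
    exact h
  have hc := c_least hQ hex
  have hA : Computable fun k => ent (sInf {q | Q k q}).unpair.2.unpair.2.unpair.1 k :=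
    c_ent (c_up1 (c_up2 (c_up2 hc))) c_id
  have hval : ∀ k, ent (sInf {q | Q k q}).unpair.2.unpair.2.unpair.1 k =
      G (m0 + k) (F (m0 + k)) := by
    intro k
    have h1 : Q k (sInf {q | Q k q}) := Nat.sInf_mem (s := {q | Q k q}) (hex k)
    have h2 := sr_sound hS hT L hG H hy hF hk (show m0 ≤ m0 + k by omega) h1
    rwa [Nat.add_sub_cancel_left] at h2
  refine c_modify (f := fun c => ent (sInf {q | Q (c - m0) q}).unpair.2.unpair.2.unpair.1
    (c - m0)) (hA.comp (c_sub c_id (c_const m0))) m0 fun v hv => ?_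
  have := hval (v - m0)
  rw [show m0 + (v - m0) = v by omega] at this
  exact this.symm

end

/-- every computable copy is computably isomorphic to one of the structures -/
theorem copies {P : Pm} (hP : PmC P) (hT : TH P.T prn) {j : Fin (κ + 1)} {B : Str}
    (hB : IsCopy (As (con P) j) B) : ∃ i : Fin (κ + 1), CompIso (As (con P) i) B := by
  obtain ⟨hBc, f, hf⟩ := hB
  have hS := con_spec P
  have hd := con_comp hP
  have hG := ci_of_iso hf
  obtain ⟨c, hc⟩ : ∃ c : Code, ∀ a, (fun a : ℕ => B a.unpair.1 a.unpair.2.unpair.1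
      a.unpair.2.unpair.2) a ↔ (Code.eval c (encode a)).Dom := by
    refine sigma1_code (ComputablePred.sigma ?_)
    exact computablePred_comp (P := fun q : ℕ × ℕ × ℕ => B q.1 q.2.1 q.2.2) hBc
      (c_pair (c_up1 c_id) (c_pair (c_up1 (c_up2 c_id)) (c_up2 (c_up2 c_id))))
  set e := encode c with he
  have hBe : ∀ i x y, B i x y ↔
      (Code.eval (ofNat Code e) (Nat.pair i (Nat.pair x y))).Dom := by
    intro i x y
    have := hc (Nat.pair i (Nat.pair x y))
    simp only [Nat.unpair_pair, Encodable.encode_nat] at this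
    rw [this, he, ofNat_encode]
  obtain ⟨g, hg⟩ := exists_tp (d := (con P).toDat) hS.O_le
  obtain ⟨N, hN⟩ := hg.stable e
  obtain ⟨m1, hm1⟩ := uu_bound hS hT hg e
  have L : Lrg (con P) g e N (N + m1) :=
    ⟨hN, fun v hv => by have := hm1 v hv; omega, by omega⟩
  obtain ⟨H, hy⟩ := exists_rsp' hS hG hBe hg hN
  obtain ⟨F, hF, hk⟩ := exists_flow hS hT L H
  have hZ := c_base hS hT L hG H hy hF hk hd hBc
  refine ⟨j - Multiplicative.toAdd (dg κ (F 0)), ?_⟩
  have hG' := hG.shift hF (i := j - Multiplicative.toAdd (dg κ (F 0))) (sub_add_cancel _ _)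
  obtain ⟨f', h1, h2⟩ := hG'.toIso
  exact ⟨f', h1, (walk hd hBc hG hF hZ).of_eq fun n => (h2 n).symm⟩

end Pool.Agent.H668
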