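import Mathlib
import Pool.Agent.H668.Iso

set_option autoImplicit false

namespace Pool.Agent.H668

open Encodable Denumerable Nat.Partrec Pool.Agent.Helper941 Pool.Agent.Helper941.IsoProb
open Pool.Agent.Helper941.Zeta
open Pool.Agent.Helper941.Dim hiding entry row row_zero row_succ row_length row_get nxt hist
  hist_succ hist_length hist_get hh getc_hist con c_entry c_row c_nxt c_hist c_hh con_O con_C
  con_J con_pa hh_row con_ent con_ent' getc_ext getc_ext' entry_eq deq_con con_spec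
  el idx el_valid idx_el el_idx c_idx c_el As as_comp

/-- parameters with a unique path `p` -/
structure Good (P : Pm) (p : ℕ → ℕ) : Prop where
  pc : PmC P
  th : TH P.T prn
  mem : ∀ i, P.T (nod p i)
  uniq : ∀ l : ℕ → ℕ, l 0 = 0 → (∀ k, 1 ≤ l (k + 1)) → (∀ k, prn (l (k + 1)) = l k) →
    (∀ k, P.T (l k)) → ∀ k, l k = nod p k
  lt : ∀ y n, P.cq y n < P.Q

/-- the true claims -/
def Dc (P : Pm) (p : ℕ → ℕ) (y : ℕ) : ℕ := P.cq y (p y)

variable {d : Dt} {P : Pm} {p g : ℕ → ℕ}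

theorem t_pf (hT : TH P.T prn) {j : ℕ} (h : P.T j) {n : ℕ} (hn : n ≤ len j) :
    P.T (nod (dig j) n) := by
  have key : ∀ k, k ≤ len j → P.T (nod (dig j) (len j - k)) := by
    intro k
    induction k with
    | zero => intro _; rw [Nat.sub_zero, nod_dig]; exact h
    | succ k ih =>
      intro hk
      have h1 := ih (by omega)
      have e : len j - k = (len j - (k + 1)) + 1 := by omega
      rw [e] at h1
      have h2 := hT.up _ (nod_pos _ _) h1
      rwa [prn_nod] at h2
  have := key (len j - n) (by omega)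
  rwa [show len j - (len j - n) = n by omega] at this

theorem lab_pf (hS : Spec P d) (hT : TH P.T prn) {x a : ℕ} (hx : ¬ d.J x = 0)
    (h : An d.pa x a) : ¬ d.J a = 0 ∧ Pf (d.J a - 1) (d.J x - 1) ∧ Pf (d.X a) (d.X x) := by
  obtain ⟨k, h1, h2, h3, h4⟩ := hS.on_an hT (on_self hx) h
  have h5 : d.J a = k + 1 := h2.1
  exact ⟨by omega, by rw [h5, Nat.add_sub_cancel]; exact h4, h3⟩

theorem an_pa {pa : ℕ → ℕ} {x a : ℕ} (h : An pa x a) (hne : a ≠ x) : An pa (pa x) a := by
  obtain ⟨n, hn⟩ := h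
  cases n with
  | zero => exact (hne hn.symm).elim
  | succ n =>
    rw [Function.iterate_succ_apply] at hn
    exact ⟨n, hn⟩

/-- along a chain of nodes the claims are true -/
theorem chain_true (hS : Spec P d) (hp : Good P p) {a : ℕ → ℕ} (ha : ∀ k, k < a k)
    (hJ : ∀ k, ¬ d.J (a k) = 0) (hA : ∀ k, An d.pa (a (k + 1)) (a k)) (y : ℕ) :
    ∃ k0, ∀ k, k0 ≤ k → y < len (d.X (a k)) ∧ dig (d.X (a k)) y = Dc P p y := by
  have hT := hp.th
  have hPT := hS.pt hT
  have hA' : ∀ k l, k ≤ l → An d.pa (a l) (a k) := by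
    intro k l hkl
    induction l, hkl using Nat.le_induction with
    | base => exact An.refl _
    | succ l _ ih => exact (hA l).trans ih
  have hpf : ∀ k l, k ≤ l → Pf (d.J (a k) - 1) (d.J (a l) - 1) := fun k l hkl =>
    (lab_pf hS hT (hJ l) (hA' k l hkl)).2.1
  have hlen : ∀ n, ∃ k, n ≤ len (d.J (a k) - 1) := by
    intro n
    induction n with
    | zero => exact ⟨0, Nat.zero_le _⟩
    | succ n ih =>
      obtain ⟨k, hk⟩ := ih
      set l := k + a k with hl
      have h1 : a k ≠ a l := by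
        have := ha l
        omega
      have h2 := an_pa (hA' k l (by omega)) h1
      have h3 : 1 ≤ a l := by have := ha l; omega
      obtain ⟨j, hj⟩ : ∃ j, d.J (a l) = j + 1 := ⟨d.J (a l) - 1, by have := hJ l; omega⟩
      have hc := hS.child hT h3 hj
      have h4 : d.J (d.pa (a l)) = prn j + 1 := hc.on.1
      have h5 := (lab_pf hS hT (by omega) h2).2.1
      rw [h4, Nat.add_sub_cancel] at h5
      have h6 := len_prn hc.pos
      refine ⟨l, ?_⟩
      rw [hj, Nat.add_sub_cancel]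
      have := h5.1
      omega
  choose kk hkk using fun y => hlen (y + 1)
  let f : ℕ → ℕ := fun y => dig (d.J (a (kk y)) - 1) y
  have hf : ∀ k y, y < len (d.J (a k) - 1) → dig (d.J (a k) - 1) y = f y := by
    intro k y hy
    have h1 := hkk y
    rcases Nat.le_total k (kk y) with h | h
    · exact (hpf k (kk y) h).2 y hy
    · exact ((hpf (kk y) k h).2 y (by omega)).symm
  have hTf : ∀ n, P.T (nod f n) := by
    intro n
    obtain ⟨k, hk⟩ := hlen n
    have h1 : nod f n = nod (dig (d.J (a k) - 1)) n := by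
      have h2 := nod_ext (f := f) (j := nod (dig (d.J (a k) - 1)) n) (fun i hi => by
        rw [len_nod] at hi
        rw [dig_nod _ hi]
        exact hf k i (by omega))
      rw [len_nod] at h2
      exact h2.symm
    rw [h1]
    refine t_pf hT ?_ hk
    obtain ⟨j, hj⟩ : ∃ j, d.J (a k) = j + 1 := ⟨d.J (a k) - 1, by have := hJ k; omega⟩
    have hc := hS.child hT (show 1 ≤ a k by have := ha k; omega) hj
    rw [hj, Nat.add_sub_cancel]
    exact hc.T
  have hfp : ∀ y, f y = p y := by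
    intro y
    have h1 := hp.uniq (nod f) (nod_zero f) (fun k => nod_pos f k) (fun k => prn_nod f k) hTf
      (y + 1)
    rw [← dig_nod f (Nat.lt_succ_self y), h1, dig_nod p (Nat.lt_succ_self y)]
  obtain ⟨k0, hk0⟩ := hlen (y + 1)
  refine ⟨k0, fun k hk => ?_⟩
  obtain ⟨j, hj⟩ : ∃ j, d.J (a k) = j + 1 := ⟨d.J (a k) - 1, by have := hJ k; omega⟩
  have hc := hS.child hT (show 1 ≤ a k by have := ha k; omega) hj
  have h1 := (hpf k0 k hk).1
  have h2 := hf k y (by omega)
  rw [hj, Nat.add_sub_cancel] at h1 h2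
  have h3 : len j ≤ len (d.X (a k)) := hc.lf.1.1
  refine ⟨by omega, ?_⟩
  rw [hc.cs.1 y (by omega), h2, hfp]
  rfl

/-- the letters of a coherent family have true claims -/
theorem flow_claims (hS : Spec P d) (hp : Good P p) {t : ℕ → Gm} (ht : Flw d t) {c l : ℕ}
    (hl : supp (t c) l) (y : ℕ) (hy : y < c) :
    dig (d.X l.unpair.1) y = Dc P p y := by
  classical
  have hT := hp.th
  have hPT := hS.pt hT
  have hnext : ∀ m l, supp (t m) l → ∃ l', supp (t (m + 1)) l' ∧ rep d m l' = l := by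
    intro m l h
    rw [← ht.fold m] at h
    exact supp_map h
  choose! nx hnx1 hnx2 using hnext
  let lam : ℕ → ℕ := fun k => Nat.rec l (fun k x => nx (c + k) x) k
  have hlam : ∀ k, supp (t (c + k)) (lam k) := by
    intro k
    induction k with
    | zero => exact hl
    | succ k ih => exact hnx1 _ _ ih
  have hlamS : ∀ k, lam (k + 1) = nx (c + k) (lam k) := fun k => rfl
  have hrep : ∀ k, rep d (c + k) (lam (k + 1)) = lam k := fun k => by
    rw [hlamS]
    exact hnx2 _ _ (hlam k)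
  have hLam : ∀ k, Lam d (c + k) (lam k) := fun k => supp_of_mem (ht.val _) (hlam k)
  have hE : ∀ k, E d (c + k) (lam (k + 1)) (lam k) := by
    intro k
    have h1 := (rep_W ((hLam (k + 1)).1.mono (show c + k ≤ c + (k + 1) by omega))).2
    rwa [hrep] at h1
  let a : ℕ → ℕ := fun k => anc d.pa (c + k) (lam k).unpair.1
  have hsp : ∀ k, c + k < a k ∧ d.pa (a k) ≤ c + k ∧ An d.pa (lam k).unpair.1 (a k) :=
    fun k => anc_spec hPT.lt (hLam k).1.2.1
  have hak : ∀ k, anc d.pa (c + k) (a (k + 1)) = a k := by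
    intro k
    show anc d.pa (c + k) (anc d.pa (c + (k + 1)) (lam (k + 1)).unpair.1) = a k
    rw [anc_anc hPT.lt hPT.zero (by omega) (hLam (k + 1)).1.2.1]
    exact (hE k).1
  have hA : ∀ k, An d.pa (a (k + 1)) (a k) := by
    intro k
    have h1 := (anc_spec hPT.lt (show c + k < a (k + 1) by have := (hsp (k + 1)).1; omega)).2.2
    rwa [hak] at h1
  have hJ : ∀ k, ¬ d.J (a k) = 0 := fun k => (lab_pf hS hT (hLam k).1.1 (hsp k).2.2).1
  obtain ⟨k, hk⟩ := chain_true hS hp (a := a) (fun k => by have := (hsp k).1; omega) hJ hA y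
  obtain ⟨h1, h2⟩ := hk k (le_refl k)
  have h3 : ∀ k, dig (d.X (lam k).unpair.1) y = dig (d.X l.unpair.1) y := by
    intro k
    induction k with
    | zero => rfl
    | succ k ih => rw [← ih]; exact (hE k).2 y (by omega)
  rw [← h3 k, ← h2]
  exact ((lab_pf hS hT (hLam k).1.1 (hsp k).2.2).2.2.2 y h1).symm

/-- the chain of true nodes on the path -/
structure Pth (d : Dt) (P : Pm) (p g : ℕ → ℕ) (v : ℕ → ℕ) : Prop where
  pers : ∀ n, Pers d.toDat g (v n) (nod p n)
  X : ∀ n, ∃ L, d.X (v n) = nod (Dc P p) L ∧ n ≤ L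
  pos : ∀ n, 1 ≤ v (n + 1)
  pa : ∀ n, d.pa (v (n + 1)) = v n

theorem exists_pth (hS : Spec P d) (hp : Good P p) (hg : TP d.toDat g) :
    ∃ v, Pth d P p g v := by
  have hT := hp.th
  choose L N hL using fun n => exists_LL hg (nod p n)
  have hn : ∀ n, n ≤ L n := by
    intro n
    obtain ⟨s, hs, hv⟩ := hg.inf (nod p n) (N n)
    have h := (hL n s hs hv).1.1
    rwa [len_nod] at h
  have h1 : ∀ n, ∃ v, Pers d.toDat g v (nod p n) ∧ d.X v = nod (Dc P p) (L n) := by
    intro n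
    refine pers_ex hS hg (hp.mem n) ⟨N n, hL n⟩ (len_nod _ _) ⟨fun y hy => ?_, fun y hy => ?_⟩
    · rw [len_nod] at hy
      have := hn n
      rw [dig_nod _ (show y < L n by omega), dig_nod _ hy]
      rfl
    · rw [len_nod] at hy
      rw [dig_nod _ hy]
      exact hp.lt _ _
  choose v hv hX using h1
  have h2 : ∀ n, 1 ≤ v (n + 1) ∧ Pers d.toDat g (d.pa (v (n + 1))) (nod p n) := by
    intro n
    have := pers_pa hS hT (hv (n + 1)) (nod_pos p n)
    rwa [prn_nod] at this
  refine ⟨v, hv, fun n => ⟨L n, hX n, hn n⟩, fun n => (h2 n).1, fun n => ?_⟩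
  refine pers_uniq hS hT hg (h2 n).2 (hv n) ?_
  have hc := hS.child hT (h2 n).1 (hv (n + 1)).1
  have hpf : Pf (d.X (d.pa (v (n + 1)))) (d.X (v (n + 1))) := hc.pf
  obtain ⟨s, hs, hvs⟩ := hg.inf (nod p n) (N n + d.pa (v (n + 1)))
  have h3 := pers_lf hS hT (h2 n).2 (by omega) hvs
  have h4 := lf_uniq h3 (hL n s (by omega) hvs)
  have h5 := nod_ext (f := Dc P p) (j := d.X (d.pa (v (n + 1)))) (fun i hi => by
    rw [hpf.2 i hi, hX (n + 1), dig_nod]
    have := hpf.1
    rw [hX (n + 1), len_nod] at this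
    omega)
  rw [hX n, h5, h4]

theorem Pth.lt (hS : Spec P d) (hp : Good P p) {v : ℕ → ℕ} (h : Pth d P p g v) (n : ℕ) :
    v n < v (n + 1) := by
  have := (hS.pt hp.th).lt _ (h.pos n)
  rwa [h.pa] at this

theorem Pth.ge (hS : Spec P d) (hp : Good P p) {v : ℕ → ℕ} (h : Pth d P p g v) (n : ℕ) :
    n ≤ v n := by
  induction n with
  | zero => exact Nat.zero_le _
  | succ n ih => have := h.lt hS hp n; omega

theorem Pth.an {v : ℕ → ℕ} (h : Pth d P p g v) {m n : ℕ}
    (hmn : m ≤ n) : An d.pa (v n) (v m) := by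
  induction n, hmn using Nat.le_induction with
  | base => exact An.refl _
  | succ n _ ih =>
    refine An.trans ⟨1, ?_⟩ ih
    exact h.pa n

theorem Pth.anc_eq' (hS : Spec P d) (hp : Good P p) {v : ℕ → ℕ} (h : Pth d P p g v)
    {c m n : ℕ} (hm : c < v m) (hn : c < v n) :
    anc d.pa c (v m) = anc d.pa c (v n) := by
  have hPT := hS.pt hp.th
  rcases Nat.le_total m n with h1 | h1
  · exact (anc_desc hPT.lt hPT.zero (h.an h1) hm).symm
  · exact anc_desc hPT.lt hPT.zero (h.an h1) hn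

/-- `l` is a code of the path letter at the cut `c` -/
def PL (d : Dt) (P : Pm) (p v : ℕ → ℕ) (c l : ℕ) : Prop :=
  W d c l ∧ (∀ n, c < v n → anc d.pa c l.unpair.1 = anc d.pa c (v n)) ∧
    ∀ y < c, dig (d.X l.unpair.1) y = Dc P p y

theorem pl_exists (hS : Spec P d) (hp : Good P p) (hg : TP d.toDat g) {v : ℕ → ℕ}
    (h : Pth d P p g v) (c : ℕ) : ∃ l, PL d P p v c l := by
  obtain ⟨τ, hτ⟩ := pers_St hg (h.pers (c + 1))
  obtain ⟨L, hL1, hL2⟩ := h.X (c + 1)
  have hge := h.ge hS hp (c + 1)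
  refine ⟨Nat.pair (v (c + 1)) τ, ⟨?_, ?_, ?_, ?_⟩, fun n hn => ?_, fun y hy => ?_⟩
  · rw [Nat.unpair_pair]
    have := (h.pers (c + 1)).1
    show ¬ d.J (v (c + 1)) = 0
    omega
  · rw [Nat.unpair_pair]
    show c < v (c + 1)
    omega
  · rw [Nat.unpair_pair]
    show c ≤ len (d.X (v (c + 1)))
    rw [hL1, len_nod]
    omega
  · rw [Nat.unpair_pair]
    exact hτ τ (le_refl τ)
  · rw [Nat.unpair_pair]
    exact h.anc_eq' hS hp (by omega) hn
  · rw [Nat.unpair_pair]
    show dig (d.X (v (c + 1))) y = _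
    rw [hL1, dig_nod _ (by omega)]

theorem pl_E (hS : Spec P d) (hp : Good P p) {v : ℕ → ℕ}
    (h : Pth d P p g v) {c l l' : ℕ} (hl : PL d P p v c l) (hl' : PL d P p v c l') :
    E d c l l' := by
  have hge := h.ge hS hp (c + 1)
  refine ⟨?_, fun y hy => ?_⟩
  · rw [hl.2.1 (c + 1) (by omega), hl'.2.1 (c + 1) (by omega)]
  · rw [hl.2.2 y hy, hl'.2.2 y hy]

theorem pl_succ (hS : Spec P d) (hp : Good P p) {v : ℕ → ℕ}
    (h : Pth d P p g v) {c l : ℕ} (hl : PL d P p v (c + 1) l) : PL d P p v c l := by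
  have hPT := hS.pt hp.th
  have hge := h.ge hS hp (c + 2)
  refine ⟨hl.1.mono (Nat.le_succ c), fun n hn => ?_, fun y hy => hl.2.2 y (by omega)⟩
  rw [h.anc_eq' hS hp hn (show c < v (c + 2) by omega),
    ← anc_anc hPT.lt hPT.zero (Nat.le_succ c) hl.1.2.1,
    ← anc_anc hPT.lt hPT.zero (Nat.le_succ c) (show c + 1 < v (c + 2) by omega),
    hl.2.1 (c + 2) (by omega)]

/-- the flow along the path -/
theorem exists_pflow (hS : Spec P d) (hp : Good P p) (hg : TP d.toDat g) :
    ∃ q : ℕ → ℕ, (∀ c, Lam d c (q c)) ∧ Flw d fun c => FreeGroup.of (q c) := by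
  obtain ⟨v, h⟩ := exists_pth hS hp hg
  choose l hl using pl_exists hS hp hg h
  refine ⟨fun c => rep d c (l c), fun c => rep_Lam (hl c).1, fun c =>
    Val.of (rep_Lam (hl c).1), fun c => ?_⟩
  show FreeGroup.map (rep d c) (FreeGroup.of (rep d (c + 1) (l (c + 1)))) = _
  rw [FreeGroup.map.of, rep_rep (hS.pt hp.th) (hl (c + 1)).1 (Nat.le_succ c),
    rep_eq ((hl (c + 1)).1.mono (Nat.le_succ c)) (hl c).1
      (pl_E hS hp h (pl_succ hS hp h (hl (c + 1))) (hl c))]

/-! ### isomorphisms between the structures -/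

variable {κ : ℕ}

theorem ci_self (d : Dt) (i : Fin (κ + 1)) : CI d i (As d i) (em d) where
  rel := fun sy c w c' w' hw hw' => by
    show _ ↔ RelG d i sy _ _ _ _
    rw [ec_em hw, ew_em hw, ec_em hw', ew_em hw']
  inj := fun c w c' w' hw hw' e =>
    ⟨by rw [← ec_em hw, ← ec_em hw', e], by rw [← ew_em hw, ← ew_em hw', e]⟩
  surj := fun z => ⟨ec d z, ew d z, e_val d z, em_ec d z⟩

theorem dg_pow (l n : ℕ) :
    Multiplicative.toAdd (dg κ (FreeGroup.of l ^ n)) = n • (1 : Fin (κ + 1)) := by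
  rw [map_pow, dg_of, toAdd_pow, toAdd_ofAdd]

theorem as_iso (hS : Spec P d) (hp : Good P p) (hg : TP d.toDat g) (i j : Fin (κ + 1)) :
    ∃ f : ℕ ≃ ℕ, IsIso (As d i) (As d j) f := by
  obtain ⟨q, _, hq⟩ := exists_pflow hS hp hg
  have h1 := (ci_self d j).shift (hq.pow (j - i).val) (i := i) (by
    rw [dg_pow, nsmul_one_fin _ (j - i).isLt]
    exact add_sub_cancel i j)
  obtain ⟨f, hf, _⟩ := h1.toIso
  exact ⟨f, hf⟩

theorem dg_fold (c : ℕ) (w : Gm) : dg κ (fold d c w) = dg κ w := by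
  refine Sb_ind (p := fun w => dg κ (fold d c w) = dg κ w) ?_ ?_ ?_ ?_ (mem_top w)
  · intro a _
    show dg κ (FreeGroup.map _ (FreeGroup.of a)) = _
    rw [FreeGroup.map.of, dg_of, dg_of]
  · rw [fold_one]
  · intro x y _ _ h1 h2
    rw [fold_mul, map_mul, map_mul, h1, h2]
  · intro x _ h1
    rw [fold_inv, map_inv, map_inv, h1]

/-- every isomorphism between the structures is given by a coherent family -/
theorem iso_flow (hS : Spec P d) (hp : Good P p) (hg : TP d.toDat g) {i j : Fin (κ + 1)}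
    {f : ℕ ≃ ℕ} (hf : IsIso (As d i) (As d j) f) : ∃ t : ℕ → Gm, Flw d t ∧
      (∀ c, i + Multiplicative.toAdd (dg κ (t c)) = j) ∧
      ∀ n, ec d (f n) = ec d n ∧ ew d (f n) = t (ec d n) * ew d n := by
  have hG := ci_of_iso hf
  set G : ℕ → Gm → ℕ := fun c w => f (em d c w) with hGd
  have hself := ci_self d j
  have hec : ∀ c w, Val d c w → ec d (G c w) = c := by
    intro c w hw
    have h1 := hG.mk_one hw
    have h2 : RelG d j (Nat.pair 1 c) (ec d (G c w)) (ew d (G c w)) (ec d (G c w))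
      (ew d (G c w)) := h1
    exact (relG_one.1 h2).2.2
  have hmul : ∀ c n, n ∈ Sb (Lam d c) → ∀ w, Val d c w →
      ew d (G c (w * n)) = ew d (G c w) * n := by
    intro c n hn
    refine Sb_ind (p := fun n => ∀ w, Val d c w → ew d (G c (w * n)) = ew d (G c w) * n)
      ?_ ?_ ?_ ?_ hn
    · intro l hl w hw
      have h1 := hG.mk_two hw hl
      have h2 : RelG d j (Nat.pair 2 l) (ec d (G c w)) (ew d (G c w))
        (ec d (G c (w * FreeGroup.of l))) (ew d (G c (w * FreeGroup.of l))) := h1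
      exact (relG_two.1 h2).2.2
    · intro w _
      rw [mul_one, mul_one]
    · intro x y hx _ h1 h2 w hw
      rw [← mul_assoc, h2 _ (hw.mul hx), h1 w hw, mul_assoc]
    · intro x hx h1 w hw
      have h2 := h1 (w * x⁻¹) (hw.mul (inv_mem hx))
      rw [inv_mul_cancel_right] at h2
      rw [h2, mul_inv_cancel_right]
  let t : ℕ → Gm := fun c => ew d (G c 1)
  have ht : ∀ c w, Val d c w → ew d (G c w) = t c * w := by
    intro c w hw
    have := hmul c w hw 1 (Val.one d c)
    rwa [one_mul] at this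
  have htv : ∀ c, Val d c (t c) := by
    intro c
    have h1 := e_val d (G c 1)
    rwa [hec c 1 (Val.one d c)] at h1
  have hfl : Flw d t := by
    refine ⟨htv, fun c => ?_⟩
    have h1 := hG.mk_three (x := 0) (Val.one d (c + 1))
    rw [fold_one] at h1
    have h2 : RelG d j (Nat.pair 3 0) (ec d (G (c + 1) 1)) (ew d (G (c + 1) 1))
      (ec d (G c 1)) (ew d (G c 1)) := h1
    have h3 := (relG_three.1 h2).2
    rw [hec c 1 (Val.one d c)] at h3
    exact h3.symm
  obtain ⟨q, hq1, _⟩ := exists_pflow hS hp hg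
  have h0 : i + Multiplicative.toAdd (dg κ (t 0)) = j := by
    set w : Gm := FreeGroup.of (q 0) ^ i.val with hw
    have hwv : Val d 0 w := pow_mem (of_mem (hq1 0)) _
    have hdw : dg κ w = Multiplicative.ofAdd i := by
      apply Multiplicative.toAdd.injective
      rw [hw, dg_pow, nsmul_one_fin _ i.isLt, toAdd_ofAdd]
    have h1 : RelG d i (Nat.pair 0 0) 0 w 0 w := relG_zero.2 ⟨rfl, rfl, rfl, hdw⟩
    have h2 := (hG.rel _ _ _ _ _ hwv hwv).1 h1
    have h3 : RelG d j (Nat.pair 0 0) (ec d (G 0 w)) (ew d (G 0 w)) (ec d (G 0 w))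
      (ew d (G 0 w)) := h2
    have h4 := (relG_zero.1 h3).2.2.2
    rw [ht 0 w hwv, map_mul, hdw] at h4
    have h5 := congrArg Multiplicative.toAdd h4
    rw [toAdd_mul, toAdd_ofAdd, toAdd_ofAdd] at h5
    exact (add_comm i _).trans h5
  have hdc : ∀ c, dg κ (t c) = dg κ (t 0) := by
    intro c
    induction c with
    | zero => rfl
    | succ c ih => rw [← ih, ← hfl.fold c, dg_fold]
  refine ⟨t, hfl, fun c => by rw [hdc]; exact h0, fun n => ?_⟩
  have h1 : f n = G (ec d n) (ew d n) := by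
    show f n = f (em d (ec d n) (ew d n))
    rw [em_ec]
  rw [h1]
  exact ⟨hec _ _ (e_val d n), ht _ _ (e_val d n)⟩

/-! ### the relation -/

/-- the relation on the structure of index `i` -/
def Rl (d : Dt) (P : Pm) (p : ℕ → ℕ) (i : Fin (κ + 1)) (n : ℕ) : Prop :=
  ¬ ec d n = 0 ∧ ac κ (fun l => dig (d.X l.unpair.1) (ec d n - 1)) (ew d n) (0, false) =
    pt κ (Dc P p (ec d n - 1)) i

theorem rl_iso (hS : Spec P d) (hp : Good P p) (hg : TP d.toDat g) {i j : Fin (κ + 1)}
    {f : ℕ ≃ ℕ} (hf : IsIso (As d i) (As d j) f) (n : ℕ) :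
    Rl d P p i n ↔ Rl d P p j (f n) := by
  obtain ⟨t, ht, hij, h1⟩ := iso_flow hS hp hg hf
  obtain ⟨h2, h3⟩ := h1 n
  unfold Rl
  rw [h2, h3]
  refine and_congr_right fun h4 => ?_
  have h5 : ∀ l, supp (t (ec d n)) l →
      dig (d.X l.unpair.1) (ec d n - 1) = Dc P p (ec d n - 1) := fun l hl =>
    flow_claims hS hp ht hl _ (by omega)
  have h6 := ac_pt (κ := κ) (cl := fun l => dig (d.X l.unpair.1) (ec d n - 1)) h5
    (mem_supp (t (ec d n))) i
  rw [hij] at h6
  rw [map_mul, Equiv.Perm.mul_apply, ← h6]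
  exact (Equiv.injective _).eq_iff.symm

end Pool.Agent.H668
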