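import Mathlib
import Pool.Graph.R_seed8.Helper743.Oracle
import Pool.Agent.H668.Defs
import Pool.Agent.H668.Flow

set_option autoImplicit false

namespace Pool.Agent.H668

open Encodable Denumerable Nat.Partrec Pool.Agent.Helper941 Pool.Agent.Helper941.IsoProb
open Pool.Agent.Helper941.Zeta
open Pool.Agent.Helper743 (TR RecT)
open Pool.Agent.Helper941.Dim hiding entry row row_zero row_succ row_length row_get nxt hist
  hist_succ hist_length hist_get hh getc_hist con c_entry c_row c_nxt c_hist c_hh con_O con_C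
  con_J con_pa hh_row con_ent con_ent' getc_ext getc_ext' entry_eq deq_con con_spec
  el idx el_valid idx_el el_idx c_idx c_el As as_comp Sig

/-- truth-table reductions with one query -/
theorem tr_tt {X Y A B : ℕ → Prop} {f : ℕ → ℕ} (hf : Computable f) (hA : ComputablePred A)
    (hB : ComputablePred B) (h : ∀ n, X n ↔ ((Y (f n) ∧ A n) ∨ (¬ Y (f n) ∧ B n))) :
    TR (ch X) (ch Y) := by
  classical
  let D : ℕ → ℕ := fun w => if (w.unpair.2 = 1 ∧ A w.unpair.1) ∨
    (¬ w.unpair.2 = 1 ∧ B w.unpair.1) then 1 else 0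
  have hD : Computable D := by
    have h1 : ComputablePred fun w : ℕ => w.unpair.2 = 1 := p_eq (c_up2 c_id) (c_const 1)
    exact c_ite (p_or (p_and h1 (computablePred_comp hA (c_up1 c_id)))
      (p_and (p_not h1) (computablePred_comp hB (c_up1 c_id)))) (c_const 1) (c_const 0)
  have h1 : RecT {((ch Y : ℕ → ℕ) : ℕ →. ℕ)} fun n => D (Nat.pair n (ch Y (f n))) :=
    RecT.comp (Pool.Agent.Helper743.Computable.recT hD)
      (RecT.pair (Pool.Agent.Helper743.Computable.recT c_id)
        (RecT.comp (TR.refl _) (Pool.Agent.Helper743.Computable.recT hf)))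
  have h2 : (fun n => D (Nat.pair n (ch Y (f n)))) = ch X := by
    funext n
    have hY : ch Y (f n) = 1 ↔ Y (f n) := by
      unfold ch
      by_cases hy : Y (f n)
      · rw [if_pos hy]; exact ⟨fun _ => hy, fun _ => rfl⟩
      · rw [if_neg hy]; exact ⟨fun h' => absurd h' (by norm_num), fun h' => absurd h' hy⟩
    show (if (_ ∧ _) ∨ (_ ∧ _) then 1 else 0) = ch X n
    simp only [Nat.unpair_pair]
    unfold ch at hY ⊢
    by_cases hx : X n
    · rw [if_pos hx, if_pos]
      rw [hY]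
      exact (h n).1 hx
    · rw [if_neg hx, if_neg]
      rw [hY]
      exact fun hc => hx ((h n).2 hc)
  rw [h2] at h1
  exact h1

theorem deg_eq {X Y : ℕ → Prop} (h : TR (ch X) (ch Y)) (h' : TR (ch Y) (ch X)) :
    deg X = deg Y := by
  unfold deg toAntisymmetrization
  refine Quotient.sound ⟨?_, ?_⟩
  · exact Pool.Agent.Helper743.TR_iff.1 h
  · exact Pool.Agent.Helper743.TR_iff.1 h'

theorem p_true {α : Type} [Primcodable α] : ComputablePred fun _ : α => True :=
  (p_eq (c_const 0) (c_const 0)).of_eq fun _ => ⟨fun _ => trivial, fun _ => rfl⟩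

theorem p_false {α : Type} [Primcodable α] : ComputablePred fun _ : α => False :=
  (p_not p_true).of_eq fun _ => not_true

theorem tr_comp {X Y : ℕ → Prop} {f : ℕ → ℕ} (hf : Computable f) (h : ∀ n, X n ↔ Y (f n)) :
    TR (ch X) (ch Y) :=
  tr_tt hf p_true p_false fun n => by rw [h n]; tauto

variable {κ : ℕ}

/-- one signed letter acting on a state -/
def lst1 (κ : ℕ) (x : ℕ × Bool) (s : Sta κ) : Sta κ :=
  if x.2 = true then (s.1 + 1, (s.2 ^^ x.1.testBit s.1) ^^ x.1.testBit (s.1 + 1 : Fin (κ + 1)))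
  else (s.1 - 1, (s.2 ^^ x.1.testBit s.1) ^^ x.1.testBit (s.1 - 1 : Fin (κ + 1)))

theorem sa_inv (a : ℕ) (s : Sta κ) : (sa κ a)⁻¹ s =
    (s.1 - 1, (s.2 ^^ a.testBit s.1) ^^ a.testBit (s.1 - 1 : Fin (κ + 1))) := rfl

/-- the action of a list of claims -/
def lac (κ : ℕ) (L : List (ℕ × Bool)) : Sta κ := L.foldr (lst1 κ) (0, false)

theorem ac_mk (cl : ℕ → ℕ) (L : List (ℕ × Bool)) : ac κ cl (FreeGroup.mk L) (0, false) =
    lac κ (L.map fun x => (cl x.1, x.2)) := by
  induction L with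
  | nil => rfl
  | cons x l ih =>
    rw [mk_cons, map_mul, Equiv.Perm.mul_apply, ih]
    obtain ⟨a, b⟩ := x
    cases b with
    | true =>
      have h1 : (FreeGroup.mk [(a, true)] : Gm) = FreeGroup.of a := rfl
      rw [h1, ac_of, sa_apply]
      rfl
    | false =>
      rw [mk_false, map_inv, ac_of, sa_inv]
      rfl

theorem pr_lst1 (κ : ℕ) : Primrec₂ (lst1 κ) := by
  have hb : Primrec fun p : (ℕ × Bool) × Sta κ => p.1.2 := Primrec.snd.comp Primrec.fst
  have ha : Primrec fun p : (ℕ × Bool) × Sta κ => p.1.1 := Primrec.fst.comp Primrec.fst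
  have hs : Primrec fun p : (ℕ × Bool) × Sta κ => p.2.1 := Primrec.fst.comp Primrec.snd
  have ht : Primrec fun p : (ℕ × Bool) × Sta κ => p.2.2 := Primrec.snd.comp Primrec.snd
  have hs1 : Primrec fun p : (ℕ × Bool) × Sta κ => p.2.1 + 1 :=
    (Primrec.dom_finite (fun i : Fin (κ + 1) => i + 1)).comp hs
  have hs2 : Primrec fun p : (ℕ × Bool) × Sta κ => p.2.1 - 1 :=
    (Primrec.dom_finite (fun i : Fin (κ + 1) => i - 1)).comp hs
  have hx : ∀ {f g : (ℕ × Bool) × Sta κ → Bool}, Primrec f → Primrec g →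
      Primrec fun p => (f p ^^ g p) := fun hf hg => (Primrec.dom_bool₂ xor).comp hf hg
  have htb : ∀ {f : (ℕ × Bool) × Sta κ → Fin (κ + 1)}, Primrec f →
      Primrec fun p : (ℕ × Bool) × Sta κ => p.1.1.testBit (f p : ℕ) := fun hf =>
    primrec_testBit.comp ha (Primrec.fin_val.comp hf)
  have h1 : Primrec fun p : (ℕ × Bool) × Sta κ =>
      ((p.2.1 + 1, (p.2.2 ^^ p.1.1.testBit p.2.1) ^^
        p.1.1.testBit (p.2.1 + 1 : Fin (κ + 1))) : Sta κ) :=
    Primrec.pair hs1 (hx (hx ht (htb hs)) (htb hs1))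
  have h2 : Primrec fun p : (ℕ × Bool) × Sta κ =>
      ((p.2.1 - 1, (p.2.2 ^^ p.1.1.testBit p.2.1) ^^
        p.1.1.testBit (p.2.1 - 1 : Fin (κ + 1))) : Sta κ) :=
    Primrec.pair hs2 (hx (hx ht (htb hs)) (htb hs2))
  exact Primrec.ite (Primrec.eq.comp hb (Primrec.const true)) h1 h2

theorem pr_lac (κ : ℕ) : Primrec (lac κ) :=
  Primrec.list_foldr (f := fun L : List (ℕ × Bool) => L) (g := fun _ => ((0, false) : Sta κ))
    (h := fun _ q => lst1 κ q.1 q.2) Primrec.id (Primrec.const (0, false))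
    ((pr_lst1 κ).comp (Primrec.fst.comp Primrec.snd) (Primrec.snd.comp Primrec.snd))

section
variable {d : Dt} {P : Pm} {p g : ℕ → ℕ}

/-- the state of the element `n` -/
noncomputable def sn (κ : ℕ) (d : Dt) (n : ℕ) : Sta κ :=
  ac κ (fun l => dig (d.X l.unpair.1) (ec d n - 1)) (ew d n) (0, false)

theorem c_sn (hd : DtC d) : Computable (sn κ d) := by
  have h1 : Computable fun n => (lw (el d n).unpair.2).map
      fun x => (dig (d.X x.1.unpair.1) (ec d n - 1), x.2) :=
    c_lmap (f := fun n l => dig (d.X l.unpair.1) (ec d n - 1)) (c_lel hd)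
      (c_dig (hd.X.comp (c_up1 c_r)) (c_sub ((c_ec hd).comp (c_fst c_id)) (c_const 1)))
  refine ((pr_lac κ).to_comp.comp h1).of_eq fun n => ?_
  exact (ac_mk (fun l => dig (d.X l.unpair.1) (ec d n - 1)) (lw (el d n).unpair.2)).symm

/-- the bits of the true claims -/
def Bt (P : Pm) (p : ℕ → ℕ) (i : Fin (κ + 1)) (y : ℕ) : Prop :=
  (Dc P p y).testBit i = true

theorem rl_iff (i : Fin (κ + 1)) (n : ℕ) : Rl d P p i n ↔
    (Bt P p i (ec d n - 1) ∧ (¬ ec d n = 0 ∧ sn κ d n = (i, true))) ∨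
    (¬ Bt P p i (ec d n - 1) ∧ (¬ ec d n = 0 ∧ sn κ d n = (i, false))) := by
  unfold Rl Bt
  show _ ∧ sn κ d n = pt κ _ i ↔ _
  unfold pt
  cases h : (Dc P p (ec d n - 1)).testBit i
  · simp
  · simp

theorem rl_le (hd : DtC d) (i : Fin (κ + 1)) : TR (ch (Rl d P p i)) (ch (Bt P p i)) := by
  have h1 : ComputablePred fun n => ¬ ec d n = 0 := p_not (p_eq (c_ec hd) (c_const 0))
  exact tr_tt (c_sub (c_ec hd) (c_const 1))
    (p_and h1 (eq_comp (c_sn hd) (c_const ((i, true) : Sta κ))))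
    (p_and h1 (eq_comp (c_sn hd) (c_const ((i, false) : Sta κ)))) (rl_iff i)

theorem pr_rep (l : ℕ → ℕ) (hl : Computable l) (m : ℕ) :
    Computable fun x => List.replicate m (l x, true) := by
  induction m with
  | zero => exact c_const []
  | succ m ih =>
    exact Computable.list_cons.comp (c_pair hl (c_const true)) ih

theorem rl_ge (hS : Spec P d) (hp : Good P p) (hg : TP d.toDat g) (hd : DtC d)
    (i : Fin (κ + 1)) : TR (ch (Bt P p i)) (ch (Rl d P p i)) := by
  have hex : ∀ x : ℕ, ∃ l, Lam d (x + 1) l := by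
    obtain ⟨q, hq, _⟩ := exists_pflow hS hp hg
    exact fun x => ⟨q (x + 1), hq (x + 1)⟩
  have hl := c_least (P := fun x l : ℕ => Lam d (x + 1) l)
    (d_Lam hd (c_succ (c_l c_id)) c_r) hex
  have hlm : ∀ x, Lam d (x + 1) (sInf {l | Lam d (x + 1) l}) := fun x =>
    Nat.sInf_mem (s := {l | Lam d (x + 1) l}) (hex x)
  obtain ⟨lx, hlx⟩ : ∃ lx : ℕ → ℕ, lx = fun x => sInf {l | Lam d (x + 1) l} := ⟨_, rfl⟩
  rw [← hlx] at hl
  have hlm' : ∀ x, Lam d (x + 1) (lx x) := fun x => by rw [hlx]; exact hlm x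
  let w : ℕ → Gm := fun x => FreeGroup.of (lx x) ^ i.val
  have hw : ∀ x, Val d (x + 1) (w x) := fun x => pow_mem (of_mem (hlm' x)) _
  let n : ℕ → ℕ := fun x => em d (x + 1) (w x)
  have hn : Computable n := by
    have h1 : Computable fun x => idx d (Nat.pair (x + 1)
        (cwd (List.replicate i.val (lx x, true)))) :=
      (c_idx hd).comp (c_npair (c_succ c_id) (pr_cwd.to_comp.comp (pr_rep lx hl _)))
    refine h1.of_eq fun x => ?_
    show _ = idx d (cd (x + 1) (FreeGroup.of (lx x) ^ i.val))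
    unfold cd
    rw [FreeGroup.toWord_of_pow]
  have hec : ∀ x, ec d (n x) = x + 1 := fun x => ec_em (hw x)
  have hst : ∀ x, sn κ d (n x) = (i, ((dig (d.X (lx x).unpair.1) x).testBit 0 ^^
      (dig (d.X (lx x).unpair.1) x).testBit i)) := by
    intro x
    unfold sn
    rw [hec, show ew d (n x) = w x from ew_em (hw x), Nat.add_sub_cancel]
    show ac κ _ (FreeGroup.of (lx x) ^ i.val) (0, false) = _
    rw [ac_pow, nsmul_one_fin _ i.isLt, zero_add]
    refine Prod.ext rfl ?_
    show ((false ^^ (dig (d.X (lx x).unpair.1) x).testBit ((0 : Fin (κ + 1)) : ℕ)) ^^ _) = _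
    rw [Bool.false_xor]
    rfl
  have hc : Computable fun x => (((dig (d.X (lx x).unpair.1) x).testBit 0 ^^
      (dig (d.X (lx x).unpair.1) x).testBit i) : Bool) := by
    have h1 : Computable fun x => dig (d.X (lx x).unpair.1) x :=
      c_dig (hd.X.comp (c_up1 hl)) c_id
    exact c_bxor (c_testBit h1 (c_const 0)) (c_testBit h1 (c_const i.val))
  refine tr_tt (X := Bt P p i) (Y := Rl d P p i) hn (A := fun x =>
    ((dig (d.X (lx x).unpair.1) x).testBit 0 ^^
      (dig (d.X (lx x).unpair.1) x).testBit i) = true) (B := fun x =>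
    ((dig (d.X (lx x).unpair.1) x).testBit 0 ^^
      (dig (d.X (lx x).unpair.1) x).testBit i) = false) (p_of_bool hc)
    (p_eqb hc (c_const false)) fun x => ?_
  have h1 : Rl d P p i (n x) ↔ ((dig (d.X (lx x).unpair.1) x).testBit 0 ^^
      (dig (d.X (lx x).unpair.1) x).testBit i) = (Dc P p x).testBit i := by
    unfold Rl
    show _ ∧ sn κ d (n x) = pt κ _ i ↔ _
    rw [hst, hec, Nat.add_sub_cancel]
    unfold pt
    simp
  rw [h1]
  unfold Bt
  cases (Dc P p x).testBit i <;> cases ((dig (d.X (lx x).unpair.1) x).testBit 0 ^^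
      (dig (d.X (lx x).unpair.1) x).testBit i) <;> simp

theorem deg_rl (hS : Spec P d) (hp : Good P p) (hg : TP d.toDat g) (hd : DtC d)
    (i : Fin (κ + 1)) : deg (Rl d P p i) = deg (Bt P p i) :=
  deg_eq (rl_le hd i) (rl_ge hS hp hg hd i)

end

/-! ### the parameters for arithmetical sets -/

theorem exists_mask (es : Fin (κ + 1) → ℕ) (a : ℕ) :
    ∃ X : ℕ, (∀ i : Fin (κ + 1), X.testBit i = true ↔ es i = a) ∧ X < 2 ^ (κ + 1) := by
  obtain ⟨X, hX⟩ := exists_bits (fun u => ∃ h : u < κ + 1, es ⟨u, h⟩ = a) (κ + 1)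
    (fun u h => h.1)
  refine ⟨X, fun i => ?_, ?_⟩
  · rw [hX]
    exact ⟨fun ⟨_, h⟩ => h, fun h => ⟨i.isLt, h⟩⟩
  · refine Nat.lt_pow_two_of_testBit X fun u hu => ?_
    by_contra hc
    simp only [Bool.not_eq_false] at hc
    obtain ⟨h, _⟩ := (hX u).1 hc
    omega

/-- the bits of the indices equal to `a` -/
noncomputable def mask (es : Fin (κ + 1) → ℕ) (a : ℕ) : ℕ := (exists_mask es a).choose

theorem mask_bit (es : Fin (κ + 1) → ℕ) (a : ℕ) (i : Fin (κ + 1)) :
    (mask es a).testBit i = true ↔ es i = a := (exists_mask es a).choose_spec.1 i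

theorem mask_lt (es : Fin (κ + 1) → ℕ) (a : ℕ) : mask es a < 2 ^ (κ + 1) :=
  (exists_mask es a).choose_spec.2

theorem c_mask (es : Fin (κ + 1) → ℕ) : Computable (mask es) := by
  refine c_modify (c_const 0) (1 + ∑ i : Fin (κ + 1), es i) fun a ha => ?_
  refine eq_zero_of fun u => ?_
  by_cases hu : u < κ + 1
  · by_contra hc
    simp only [Bool.not_eq_false] at hc
    have h1 := (mask_bit es a ⟨u, hu⟩).1 hc
    have h2 : es ⟨u, hu⟩ ≤ ∑ i : Fin (κ + 1), es i :=
      Finset.single_le_sum (f := es) (fun _ _ => Nat.zero_le _) (Finset.mem_univ _)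
    omega
  · have h1 := mask_lt es a
    exact Nat.testBit_lt_two_pow (lt_of_lt_of_le h1 (Nat.pow_le_pow_right (by norm_num)
      (by omega)))

open Classical in
/-- the parameters for the sets `Un K (es i, _)` -/
noncomputable def PK (K : ℕ) (es : Fin (κ + 1) → ℕ) : Pm where
  T := TT K
  cq y n := if y.unpair.1 = K ∧ ¬ n = 0 then mask es y.unpair.2.unpair.1 else 0
  Q := 2 ^ (κ + 1)

theorem good_PK (K : ℕ) (es : Fin (κ + 1) → ℕ) : Good (PK K es) (pth K) where
  pc := by
    classical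
    refine ⟨p_TT K, ?_⟩
    exact c_ite (p_and (p_eq (c_up1 (c_fst c_id)) (c_const K))
      (p_not (p_eq (c_snd c_id) (c_const 0))))
      ((c_mask es).comp (c_up1 (c_up2 (c_fst c_id)))) (c_const 0)
  th := th_TT K
  mem := pth_T K
  uniq := fun _ h0 h1 h2 h3 k => path_unique h0 h1 h2 h3 k
  lt := by
    classical
    intro y n
    show (if y.unpair.1 = K ∧ ¬ n = 0 then mask es y.unpair.2.unpair.1 else 0) < 2 ^ (κ + 1)
    split_ifs
    · exact mask_lt es _
    · exact Nat.two_pow_pos _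

theorem bt_PK (K : ℕ) (es : Fin (κ + 1) → ℕ) (i : Fin (κ + 1)) (y : ℕ) :
    Bt (PK K es) (pth K) i y ↔ y.unpair.1 = K ∧ es i = y.unpair.2.unpair.1 ∧
      Un K (es i, y.unpair.2.unpair.2) := by
  classical
  unfold Bt Dc
  show (if y.unpair.1 = K ∧ ¬ pth K y = 0 then mask es y.unpair.2.unpair.1 else 0).testBit i =
    true ↔ _
  by_cases h1 : y.unpair.1 = K
  · have h2 : ¬ pth K y = 0 ↔ Un K (y.unpair.2.unpair.1, y.unpair.2.unpair.2) := by
      rw [← fk_un, Nat.pair_unpair, ← pth_pair (le_refl K), ← h1, Nat.pair_unpair]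
    by_cases h3 : Un K (y.unpair.2.unpair.1, y.unpair.2.unpair.2)
    · rw [if_pos ⟨h1, h2.2 h3⟩, mask_bit]
      constructor
      · intro h
        exact ⟨h1, h, by rw [h]; exact h3⟩
      · rintro ⟨_, h, _⟩
        exact h
    · rw [if_neg fun h => h3 (h2.1 h.2), Nat.zero_testBit]
      constructor
      · intro h
        exact Bool.noConfusion h
      · rintro ⟨_, h, h4⟩
        rw [h] at h4
        exact (h3 h4).elim
  · rw [if_neg fun h => h1 h.1, Nat.zero_testBit]
    constructor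
    · intro h
      exact Bool.noConfusion h
    · rintro ⟨h, _⟩
      exact (h1 h).elim

theorem deg_bt (K : ℕ) (es : Fin (κ + 1) → ℕ) (i : Fin (κ + 1)) {X : ℕ → Prop}
    (hX : ∀ x, X x ↔ Un K (es i, x)) : deg (Bt (PK K es) (pth K) i) = deg X := by
  refine deg_eq ?_ ?_
  · refine tr_tt (f := fun y => y.unpair.2.unpair.2) (A := fun y => y.unpair.1 = K ∧
      es i = y.unpair.2.unpair.1) (B := fun _ => False) (c_up2 (c_up2 c_id))
      (p_and (p_eq (c_up1 c_id) (c_const K)) (p_eq (c_const _) (c_up1 (c_up2 c_id)))) p_false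
      fun y => ?_
    rw [bt_PK, hX]
    tauto
  · refine tr_comp (f := fun x => Nat.pair K (Nat.pair (es i) x))
      (c_npair (c_const K) (c_npair (c_const _) c_id)) fun x => ?_
    rw [bt_PK, hX]
    simp only [Nat.unpair_pair, true_and]

end Pool.Agent.H668
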