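import Pool.Agent.H724.EZ.Stm5

/-! The path in `M`, commensurated subgroups (project EZ of helper724; helper668, a variation of
helper733's proof of MPATH). -/

set_option autoImplicit false
set_option linter.unusedSectionVars false

namespace Pool.Agent.H668.EZ5

open Pool.Agent.H724.EZ

section
variable {M : Type} [Group M]

theorem hv_app_le (Λ L : List (M × Bool)) {t : ℕ} (ht : t ≤ Λ.length) :
    hv (Λ ++ L) t = hv Λ t := by
  unfold hv
  rw [List.take_append_of_le_length ht]

theorem bn_app_le (Λ L : List (M × Bool)) {t : ℕ} (ht : t ≤ Λ.length) :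
    bn (Λ ++ L) t = bn Λ t := by
  unfold bn
  rw [List.take_append_of_le_length ht]

theorem take_app_add (Λ L : List (M × Bool)) (u : ℕ) :
    (Λ ++ L).take (Λ.length + u) = Λ ++ L.take u := by
  rw [List.take_append, List.take_of_length_le (by omega), Nat.add_sub_cancel_left]

theorem hv_app_add (Λ L : List (M × Bool)) (u : ℕ) :
    hv (Λ ++ L) (Λ.length + u) = hv Λ Λ.length * hv L u := by
  unfold hv
  rw [take_app_add, List.take_length, List.map_append, List.prod_append]

theorem bn_app_add (Λ L : List (M × Bool)) (u : ℕ) :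
    bn (Λ ++ L) (Λ.length + u) = bn Λ Λ.length + bn L u := by
  unfold bn
  rw [take_app_add, List.take_length, List.filter_append, List.length_append]

theorem bn_le (Λ : List (M × Bool)) (t : ℕ) : bn Λ t ≤ bn Λ Λ.length := by
  unfold bn
  rw [List.take_length]
  exact ((List.take_sublist t Λ).filter _).length_le

theorem mid_take (l : List M) (x : M) {u : ℕ} (hu : u ≤ l.length) :
    ((l.map fun b => (b, false)) ++ [(x, true)]).take u = (l.take u).map fun b => (b, false) := by
  rw [List.take_append_of_le_length (by simpa using hu), List.map_take]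

theorem hv_mid (l : List M) (x : M) {u : ℕ} (hu : u ≤ l.length) :
    hv ((l.map fun b => (b, false)) ++ [(x, true)]) u = (l.take u).prod := by
  unfold hv
  rw [mid_take l x hu, List.map_map]
  congr 1
  exact List.map_id'' (fun _ => rfl) _

theorem bn_mid (l : List M) (x : M) {u : ℕ} (hu : u ≤ l.length) :
    bn ((l.map fun b => (b, false)) ++ [(x, true)]) u = 0 := by
  unfold bn
  rw [mid_take l x hu, List.length_eq_zero_iff, List.filter_eq_nil_iff]
  intro a ha
  obtain ⟨b, -, rfl⟩ := List.mem_map.1 ha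
  simp

theorem hv_end (l : List M) (x : M) :
    hv ((l.map fun b => (b, false)) ++ [(x, true)]) (l.length + 1) = l.prod * x := by
  unfold hv
  rw [List.take_of_length_le (by simp), List.map_append, List.prod_append, List.map_map]
  congr 1
  · congr 1
    exact List.map_id'' (fun _ => rfl) _
  · simp

theorem bn_end (l : List M) (x : M) :
    bn ((l.map fun b => (b, false)) ++ [(x, true)]) (l.length + 1) = 1 := by
  unfold bn
  rw [List.take_of_length_le (by simp), List.filter_append, List.length_append]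
  have h1 : (l.map fun b => (b, false)).filter (fun a : M × Bool => a.2) = [] := by
    rw [List.filter_eq_nil_iff]
    intro a ha
    obtain ⟨b, -, rfl⟩ := List.mem_map.1 ha
    simp
  rw [h1]
  simp

end

theorem list_of_mem {M : Type} [Group M] {B : Finset M} (hB : ∀ b ∈ B, b⁻¹ ∈ B) {x : M}
    (hx : x ∈ Subgroup.closure (B : Set M)) : ∃ l : List M, (∀ b ∈ l, b ∈ B) ∧ l.prod = x := by
  induction hx using Subgroup.closure_induction with
  | mem x hx => exact ⟨[x], by simpa using hx, by simp⟩
  | one => exact ⟨[], by simp, rfl⟩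
  | mul x y _ _ hx hy =>
    obtain ⟨l, h1, h2⟩ := hx
    obtain ⟨l', h1', h2'⟩ := hy
    refine ⟨l ++ l', fun b hb => ?_, by rw [List.prod_append, h2, h2']⟩
    rcases List.mem_append.1 hb with hb | hb
    · exact h1 b hb
    · exact h1' b hb
  | inv x _ hx =>
    obtain ⟨l, h1, h2⟩ := hx
    refine ⟨(l.map fun b => b⁻¹).reverse, fun b hb => ?_, ?_⟩
    · rw [List.mem_reverse, List.mem_map] at hb
      obtain ⟨c, hc, rfl⟩ := hb
      exact hB c (h1 c hc)
    · rw [← h2, List.prod_inv_reverse]

theorem ext_list {M : Type} [Group M] {B : Finset M} (hB : ∀ b ∈ B, b⁻¹ ∈ B) {Φ : Set M}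
    (hΦ : Φ.Finite) {x s : M} (hesc : Esc B Φ x) {F : Set M} (hF : F.Finite) {D : Set M}
    (hD : D.Finite) (hDB : ∀ d ∈ D, d ∈ Subgroup.closure (B : Set M))
    (hcom : ∀ u ∈ Subgroup.closure (B : Set M), ∃ d ∈ D,
      s * (u * d) * s⁻¹ ∈ Subgroup.closure (B : Set M)) :
    ∃ l : List M, (∀ b ∈ l, b ∈ B) ∧ (∀ t ≤ l.length, x * (l.take t).prod ∉ Φ) ∧
      x * l.prod ∉ F ∧ s * l.prod * s⁻¹ ∈ Subgroup.closure (B : Set M) := by
  classical
  have hw : ∀ d : M, ∃ w : List M, d ∈ D → (∀ b ∈ w, b ∈ B) ∧ w.prod = d := by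
    intro d
    by_cases hd : d ∈ D
    · obtain ⟨w, h1, h2⟩ := list_of_mem hB (hDB d hd)
      exact ⟨w, fun _ => ⟨h1, h2⟩⟩
    · exact ⟨[], fun h => absurd h hd⟩
  choose w hw using hw
  have hF1 : (⋃ d ∈ D, ⋃ u ∈ (Finset.range ((w d).length + 1) : Set ℕ),
      (fun y : M => y * ((w d).take u).prod) ⁻¹' (F ∪ Φ)).Finite := by
    refine hD.biUnion fun d _ => ?_
    refine (Finset.finite_toSet _).biUnion fun u _ => ?_
    exact (hF.union hΦ).preimage (mul_left_injective _).injOn
  obtain ⟨l, hl1, hl2, hl3⟩ := hesc _ hF1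
  have hl4 : ∀ d ∈ D, ∀ u ≤ (w d).length, x * l.prod * ((w d).take u).prod ∉ F ∪ Φ := by
    intro d hd u hu h
    refine hl3 ?_
    refine Set.mem_iUnion₂.2 ⟨d, hd, Set.mem_iUnion₂.2 ⟨u, ?_, h⟩⟩
    exact Finset.mem_coe.2 (Finset.mem_range.2 (by omega))
  have hcl : l.prod ∈ Subgroup.closure (B : Set M) :=
    Subgroup.list_prod_mem _ fun b hb => Subgroup.subset_closure (hl1 b hb)
  obtain ⟨d, hd, hd2⟩ := hcom _ hcl
  obtain ⟨hw1, hw2⟩ := hw d hd
  refine ⟨l ++ w d, ?_, ?_, ?_, ?_⟩
  · intro b hb
    rcases List.mem_append.1 hb with hb | hb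
    · exact hl1 b hb
    · exact hw1 b hb
  · intro t ht
    by_cases h1 : t ≤ l.length
    · rw [List.take_append_of_le_length h1]
      exact hl2 t h1
    · rw [List.length_append] at ht
      rw [List.take_append, List.take_of_length_le (by omega), List.prod_append, ← mul_assoc]
      exact fun h => hl4 d hd (t - l.length) (by omega) (Or.inr h)
  · rw [List.prod_append, ← mul_assoc]
    have h2 := hl4 d hd (w d).length le_rfl
    rw [List.take_length] at h2
    exact fun h => h2 (Or.inl h)
  · rw [List.prod_append, hw2]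
    exact hd2

theorem mpath5 : S_MPATH5 := by
  rintro ⟨hE, hF⟩ M G Q _ _ _ j hj Q0 hQ0 B hB hinf π hπB lift hlift hcom hcl5 E m S hS0 hSm hSE
  have hπ : ∀ x ∈ Subgroup.closure (B : Set M), π x = 1 := by
    intro x hx
    have h1 : Subgroup.closure (B : Set M) ≤ π.ker := by
      rw [Subgroup.closure_le]
      exact fun b hb => MonoidHom.mem_ker.2 (hπB b hb)
    exact MonoidHom.mem_ker.1 (h1 hx)
  obtain ⟨hF1, hF2, hF3⟩ := hF j hj Q0 hQ0
  obtain ⟨hE1, hE2⟩ := hE B hB hinf
  have key : ∀ i ≤ m, ∃ Λ : List (M × Bool), bn Λ Λ.length = i ∧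
      (∀ a ∈ Λ, a.1 ∈ B ∨ ∃ e ∈ E, a.1 = lift e) ∧
      (∀ t ≤ Λ.length, π (hv Λ t) = S (bn Λ t)) ∧
      (∀ t ≤ Λ.length, hv Λ t ∉ Fb j Q0 Λ (bn Λ t)) ∧
      Esc B (Fb j Q0 Λ i) (hv Λ Λ.length) ∧
      ∃ k ∈ Subgroup.closure (B : Set M), ∃ s ∈ Subgroup.closure (Set.range lift),
        hv Λ Λ.length = k * s := by
    intro i
    induction i with
    | zero =>
      intro _
      refine ⟨[], rfl, by simp, ?_, ?_, ?_, 1, one_mem _, 1, one_mem _, (mul_one 1).symm⟩
      · intro t ht
        have ht0 : t = 0 := by simpa using ht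
        subst ht0
        have h1 : hv ([] : List (M × Bool)) 0 = 1 := rfl
        have h2 : bn ([] : List (M × Bool)) 0 = 0 := rfl
        rw [h1, h2, map_one, hS0]
      · intro t ht
        have ht0 : t = 0 := by simpa using ht
        subst ht0
        have h2 : bn ([] : List (M × Bool)) 0 = 0 := rfl
        rw [h2, hF3 [] 0 (by omega)]
        exact Set.notMem_empty _
      · rw [hF3 [] 0 (by omega)]
        exact hE2 _
    | succ i ih =>
      intro him
      obtain ⟨Λ, h1, h2, h3, h4, h5, k, hk, s, hs, hks⟩ := ih (by omega)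
      set x := hv Λ Λ.length with hx
      set e := (S i)⁻¹ * S (i + 1) with he
      have heE : e ∈ E := hSE i (by omega)
      set Φ := Fb j Q0 Λ (i + 1) with hΦ
      have hΦf : Φ.Finite := hF1 Λ (i + 1)
      have hinj : Function.Injective (fun y : M => y * lift e) := mul_left_injective _
      have hFf : {y : M | y * lift e ∈ Φ ∨ ¬ Esc B Φ (y * lift e)}.Finite := by
        have h6 : {y : M | y * lift e ∈ Φ ∨ ¬ Esc B Φ (y * lift e)} =
            (fun y : M => y * lift e) ⁻¹' (Φ ∪ {y | ¬ Esc B Φ y}) := rfl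
        rw [h6]
        exact (hΦf.union (hE1 Φ hΦf)).preimage hinj.injOn
      obtain ⟨D, hD1, hD2, hD3⟩ := hcom s hs
      obtain ⟨l, hl1, hl2, hl3, hl5⟩ := ext_list hB (hF1 Λ i) h5 hFf hD1 hD2 hD3
      have hl4 : x * l.prod * lift e ∉ Φ ∧ Esc B Φ (x * l.prod * lift e) := by
        have h6 : ¬ (x * l.prod * lift e ∈ Φ ∨ ¬ Esc B Φ (x * l.prod * lift e)) := hl3
        push Not at h6
        exact h6
      have hcl : ∀ u, (l.take u).prod ∈ Subgroup.closure (B : Set M) := by
        intro u
        refine Subgroup.list_prod_mem _ fun b hb => ?_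
        exact Subgroup.subset_closure (hl1 b (List.mem_of_mem_take hb))
      have hπl : ∀ u, π ((l.take u).prod) = 1 := fun u => hπ _ (hcl u)
      have hπx : π x = S i := by
        rw [hx, h3 _ le_rfl, h1]
      set L2 : List (M × Bool) := (l.map fun b => (b, false)) ++ [(lift e, true)] with hL2
      have hL2l : L2.length = l.length + 1 := by simp [hL2]
      have hlen : (Λ ++ L2).length = Λ.length + (l.length + 1) := by
        rw [List.length_append, hL2l]
      have hFeq : ∀ c ≤ i + 1, Fb j Q0 (Λ ++ L2) c = Fb j Q0 Λ c := by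
        intro c hc
        exact hF2 Λ L2 c (by rw [h1]; exact hc)
      have hend1 : hv (Λ ++ L2) (Λ.length + (l.length + 1)) = x * l.prod * lift e := by
        rw [hv_app_add, hL2, hv_end, ← hx, mul_assoc]
      have hend2 : bn (Λ ++ L2) (Λ.length + (l.length + 1)) = i + 1 := by
        rw [bn_app_add, hL2, bn_end, h1]
      have hπe : π (x * l.prod * lift e) = S (i + 1) := by
        have h6 := hπl l.length
        rw [List.take_length] at h6
        rw [map_mul, map_mul, h6, hπx, hlift, he, mul_one, mul_inv_cancel_left]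
      -- the three cases
      have hcases : ∀ t ≤ (Λ ++ L2).length, t ≤ Λ.length ∨
          (∃ u ≤ l.length, t = Λ.length + u) ∨ t = Λ.length + (l.length + 1) := by
        intro t ht
        rw [hlen] at ht
        by_cases h6 : t ≤ Λ.length
        · exact Or.inl h6
        by_cases h7 : t ≤ Λ.length + l.length
        · exact Or.inr (Or.inl ⟨t - Λ.length, by omega, by omega⟩)
        · exact Or.inr (Or.inr (by omega))
      refine ⟨Λ ++ L2, ?_, ?_, ?_, ?_, ?_, k * (s * l.prod * s⁻¹), mul_mem hk hl5, s * lift e,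
        mul_mem hs (Subgroup.subset_closure ⟨e, rfl⟩), ?_⟩
      · rw [hlen, hend2]
      · intro a ha
        rcases List.mem_append.1 ha with ha | ha
        · exact h2 a ha
        rcases List.mem_append.1 ha with ha | ha
        · obtain ⟨b, hb, rfl⟩ := List.mem_map.1 ha
          exact Or.inl (hl1 b hb)
        · rw [List.mem_singleton] at ha
          subst ha
          exact Or.inr ⟨e, heE, rfl⟩
      · intro t ht
        rcases hcases t ht with h6 | ⟨u, hu, rfl⟩ | rfl
        · rw [hv_app_le _ _ h6, bn_app_le _ _ h6]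
          exact h3 t h6
        · rw [hv_app_add, bn_app_add, hL2, hv_mid l _ hu, bn_mid l _ hu, map_mul, hπl, ← hx, hπx,
            h1, mul_one, add_zero]
        · rw [hend1, hend2, hπe]
      · intro t ht
        rcases hcases t ht with h6 | ⟨u, hu, rfl⟩ | rfl
        · rw [hv_app_le _ _ h6, bn_app_le _ _ h6, hFeq _ (by have := bn_le Λ t; omega)]
          exact h4 t h6
        · rw [hv_app_add, bn_app_add, hL2, hv_mid l _ hu, bn_mid l _ hu, ← hL2, h1, add_zero,
            hFeq _ (by omega)]
          exact hl2 u hu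
        · rw [hend1, hend2, hFeq _ le_rfl]
          exact hl4.1
      · rw [hlen, hend1, hFeq _ le_rfl]
        exact hl4.2
      · rw [hlen, hend1, hks]
        group
  obtain ⟨Λ, h1, h2, h3, h4, -, k, hk, s, hs, hks⟩ := key m le_rfl
  refine ⟨Λ, h1, h2, h3, h4, ?_⟩
  have h5 := h3 _ le_rfl
  rw [h1, hSm, hks, map_mul, hπ k hk, one_mul] at h5
  rw [hks]
  exact mul_mem hk (hcl5 s hs h5)

end Pool.Agent.H668.EZ5

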