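import Pool.Agent.H724.EZ.Stm3

/-!
# Prefixes of a word of blocks with varying letters (helper668; the proof follows that of POS by
helper139)
-/

set_option autoImplicit false

namespace Pool.Agent.H668.EZ2

open Pool.Agent.TH719.ED Pool.Agent.H724.EZ

theorem blk_split {G : Type} (Cs : List (List G)) (z : ℕ) (h : blk Cs z < Cs.length) :
    ∃ (C : List G) (k : ℕ), Cs[blk Cs z]? = some C ∧ k < C.length ∧
      z = ((Cs.take (blk Cs z)).flatten).length + k ∧
      Cs.flatten.take z = (Cs.take (blk Cs z)).flatten ++ C.take k := by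
  induction Cs generalizing z with
  | nil => exact absurd h (Nat.not_lt_zero _)
  | cons C Cs ih =>
    by_cases hz : z < C.length
    · have hb : blk (C :: Cs) z = 0 := by rw [blk, if_pos hz]
      rw [hb]
      refine ⟨C, z, rfl, hz, by simp, ?_⟩
      rw [List.take_zero, List.flatten_nil, List.nil_append, List.flatten_cons,
        List.take_append_of_le_length hz.le]
    · have hb : blk (C :: Cs) z = blk Cs (z - C.length) + 1 := by
        rw [blk, if_neg hz, Nat.add_comm]
      rw [hb] at h ⊢
      rw [List.length_cons] at h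
      obtain ⟨C', k, h1, h2, h3, h4⟩ := ih (z - C.length) (by omega)
      refine ⟨C', k, ?_, h2, ?_, ?_⟩
      · rw [List.getElem?_cons_succ]
        exact h1
      · rw [List.take_succ_cons, List.flatten_cons, List.length_append]
        omega
      · rw [List.take_succ_cons, List.flatten_cons, List.flatten_cons, List.append_assoc, ← h4,
          List.take_append]
        rw [List.take_of_length_le (by omega : C.length ≤ z)]

theorem range_map_succ {G : Type} (f : ℕ → List G) (N : ℕ) :
    ((List.range (N + 1)).map f).flatten =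
      f 0 ++ ((List.range N).map (fun t => f (t + 1))).flatten := by
  rw [List.range_succ_eq_map, List.map_cons, List.map_map, List.flatten_cons]
  rfl

theorem fam_take {G : Type} (ew : List G) (N : ℕ) : ∀ (f : ℕ → List G) (k : ℕ),
    ∃ (N' : ℕ) (u : List G), N' ≤ N ∧ (k = 0 → N' = 0 ∧ u = []) ∧
      ((∃ t k', u = (f t).take k') ∨ (∃ k', u = ew.take k')) ∧
      (((List.range N).map f).flatten ++ ew).take k =
        ((List.range N').map f).flatten ++ u := by
  induction N with
  | zero =>
    intro f k
    refine ⟨0, ew.take k, le_refl _, ?_, Or.inr ⟨k, rfl⟩, by simp⟩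
    rintro rfl
    exact ⟨rfl, List.take_zero⟩
  | succ N ih =>
    intro f k
    by_cases hk : k ≤ (f 0).length
    · refine ⟨0, (f 0).take k, Nat.zero_le _, ?_, Or.inl ⟨0, k, rfl⟩, ?_⟩
      · rintro rfl
        exact ⟨rfl, List.take_zero⟩
      · rw [range_map_succ, List.append_assoc, List.take_append_of_le_length hk]
        simp
    · obtain ⟨N', u, h1, -, h3, h4⟩ := ih (fun t => f (t + 1)) (k - (f 0).length)
      refine ⟨N' + 1, u, by omega, fun h0 => by omega, ?_, ?_⟩
      · rcases h3 with ⟨t, k', h⟩ | h
        · exact Or.inl ⟨t + 1, k', h⟩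
        · exact Or.inr h
      · rw [range_map_succ, List.append_assoc, List.take_append, h4,
          List.take_of_length_le (by omega : (f 0).length ≤ k), range_map_succ, List.append_assoc]

theorem csl_length {G : Type} (kw : ℕ → List G) (n : ℕ → ℕ) (ew : ℕ → List G) (m : ℕ) :
    (CslV kw n ew m).length = m := by
  rw [CslV, List.length_map, List.length_range]

theorem csl_take {G : Type} (kw : ℕ → List G) (n : ℕ → ℕ) (ew : ℕ → List G) (m p : ℕ)
    (hp : p ≤ m) : (CslV kw n ew m).take p = CslV kw n ew p := by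
  rw [CslV, CslV, ← List.map_take, List.take_range, Nat.min_eq_left hp]

theorem csl_get {G : Type} (kw : ℕ → List G) (n : ℕ → ℕ) (ew : ℕ → List G) (m p : ℕ)
    (hp : p < m) : (CslV kw n ew m)[p]? = some (blkV kw n ew p) := by
  rw [CslV, List.getElem?_map, List.getElem?_range hp]
  rfl

theorem pos2 : S_POS2 := by
  intro G kw n ew m z _ _ hz
  obtain ⟨Cs, hCs⟩ : ∃ Cs, Cs = CslV kw n ew m := ⟨_, rfl⟩
  have hlen : Cs.length = m := by rw [hCs, csl_length]
  have hle : blk Cs z ≤ m := by rw [← hlen]; exact blk_le_length Cs z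
  rw [← hCs] at hz ⊢
  rcases Nat.lt_or_ge (blk Cs z) m with hlt | hge
  · obtain ⟨C, k, h1, h2, h3, h4⟩ := blk_split Cs z (by rw [hlen]; exact hlt)
    have h5 : C = blkV kw n ew (blk Cs z) := by
      have h6 : Cs[blk Cs z]? = some (blkV kw n ew (blk Cs z)) := by
        have h7 := csl_get kw n ew m (blk Cs z) hlt
        rw [← hCs] at h7
        exact h7
      rw [h1] at h6
      exact Option.some.inj h6
    obtain ⟨N', u, g1, g2, g3, g4⟩ := fam_take (ew (blk Cs z)) (n (blk Cs z))
      (fun t => kw (∑ k ∈ Finset.range (blk Cs z), n k + t)) k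
    refine ⟨N', u, g1, fun h0 => g2 (by omega), ?_, fun h0 => absurd h0 (Nat.ne_of_lt hlt), ?_⟩
    · rcases g3 with ⟨t, k', hk'⟩ | ⟨k', hk'⟩
      · exact Or.inl ⟨_, k', hk'⟩
      · exact Or.inr ⟨blk Cs z, hlt, k', hk'⟩
    · have h8 : Cs.take (blk Cs z) = CslV kw n ew (blk Cs z) := by
        have h9 := csl_take kw n ew m (blk Cs z) hle
        rw [← hCs] at h9
        exact h9
      rw [h4, h5, h8, List.append_assoc, ← g4]
      rfl
  · have hb : blk Cs z = m := le_antisymm hle hge
    have htot : Cs.flatten.length ≤ z := by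
      rcases Nat.eq_zero_or_pos m with h0 | h0
      · have h1 : Cs = [] := List.length_eq_zero_iff.1 (by rw [hlen, h0])
        rw [h1]
        exact Nat.zero_le _
      · have h1 := (lt_blk_iff Cs (m - 1) z).1 (by omega)
        have h2 : Cs.take (m - 1 + 1) = Cs := by
          rw [Nat.sub_add_cancel h0]
          exact List.take_of_length_le (by omega)
        rw [h2] at h1
        exact h1.2
    refine ⟨0, [], Nat.zero_le _, fun _ => ⟨rfl, rfl⟩, Or.inl ⟨0, 0, List.take_zero.symm⟩,
      fun _ => ⟨rfl, rfl⟩, ?_⟩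
    rw [hb, List.take_of_length_le htot, ← hCs]
    simp

end Pool.Agent.H668.EZ2

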