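import Mathlib
import Pool.Agent.H668.Deg

set_option autoImplicit false

namespace Pool.Agent.H668

open Encodable Denumerable Nat.Partrec Pool.Agent.Helper941 Pool.Agent.Helper941.IsoProb
open Pool.Agent.Helper941.Zeta
open Pool.Agent.Helper743 (TR RecT)
open Pool.Agent.Helper941.Dim hiding entry row row_zero row_succ row_length row_get nxt hist
  hist_succ hist_length hist_get hh getc_hist con c_entry c_row c_nxt c_hist c_hh con_O con_C
  con_J con_pa hh_row con_ent con_ent' getc_ext getc_ext' entry_eq deq_con con_spec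
  el idx el_valid idx_el el_idx c_idx c_el As as_comp Sig

/-- The ternary relation coding a sequence of binary relations: the even numbers are the
indices (with their successor relation), and the odd numbers are the elements. -/
def T3 (S : ℕ → ℕ → ℕ → Prop) (x y z : ℕ) : Prop :=
  (x % 2 = 0 ∧ y = x + 2 ∧ z = x) ∨
  (x % 2 = 0 ∧ y % 2 = 1 ∧ z % 2 = 1 ∧ S (x / 2) (y / 2) (z / 2)) ∨
  (x % 2 = 1 ∧ y = x ∧ z = x)

/-- the relation on the elements -/
def R3 (R : ℕ → Prop) (x : ℕ) : Prop := x % 2 = 1 ∧ R (x / 2)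

theorem t3_diag (S : ℕ → ℕ → ℕ → Prop) (x : ℕ) : T3 S x x x ↔ x % 2 = 1 := by
  unfold T3
  constructor
  · rintro (⟨h, h1, _⟩ | ⟨h, h1, _⟩ | ⟨h, _⟩) <;> omega
  · intro h
    exact Or.inr (Or.inr ⟨h, rfl, rfl⟩)

theorem t3_succ (S : ℕ → ℕ → ℕ → Prop) {x y : ℕ} (hx : x % 2 = 0) :
    T3 S x y x ↔ y = x + 2 := by
  unfold T3
  constructor
  · rintro (⟨_, h, _⟩ | ⟨_, _, h, _⟩ | ⟨h, _⟩)
    · exact h
    · omega
    · omega
  · intro h
    exact Or.inl ⟨hx, h, rfl⟩

theorem t3_rel (S : ℕ → ℕ → ℕ → Prop) (i a b : ℕ) :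
    T3 S (2 * i) (2 * a + 1) (2 * b + 1) ↔ S i a b := by
  unfold T3
  have h1 : 2 * i / 2 = i := by omega
  have h2 : (2 * a + 1) / 2 = a := by omega
  have h3 : (2 * b + 1) / 2 = b := by omega
  rw [h1, h2, h3]
  constructor
  · rintro (⟨_, h, _⟩ | ⟨_, _, _, h⟩ | ⟨h, _⟩)
    · omega
    · exact h
    · omega
  · intro h
    exact Or.inr (Or.inl ⟨by omega, by omega, by omega, h⟩)

theorem p_eqmod {α : Type} [Primcodable α] {f : α → ℕ} (hf : Computable f) (r : ℕ) :
    ComputablePred fun a => f a % 2 = r := p_eq (c_mod2 hf) (c_const r)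

theorem p_T3 {B : Str} (hB : IsComp B) :
    ComputablePred fun q : ℕ × ℕ × ℕ => T3 B q.1 q.2.1 q.2.2 := by
  have x : Computable fun q : ℕ × ℕ × ℕ => q.1 := c_fst c_id
  have y : Computable fun q : ℕ × ℕ × ℕ => q.2.1 := c_fst (c_snd c_id)
  have z : Computable fun q : ℕ × ℕ × ℕ => q.2.2 := c_snd (c_snd c_id)
  unfold T3
  exact p_or (p_and (p_eqmod x 0) (p_and (p_eq y (c_add x (c_const 2))) (p_eq z x)))
    (p_or (p_and (p_eqmod x 0) (p_and (p_eqmod y 1) (p_and (p_eqmod z 1)
      (computablePred_comp (P := fun q : ℕ × ℕ × ℕ => B q.1 q.2.1 q.2.2) hB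
        (c_pair (c_div2 x) (c_pair (c_div2 y) (c_div2 z)))))))
      (p_and (p_eqmod x 1) (p_and (p_eq y x) (p_eq z x))))

/-- the relation of a sequence of binary relations read off a computable copy -/
theorem constr_of_copy {S B : Str} (hB : IsComp B) {f : ℕ ≃ ℕ} (hf : IsIso B S f)
    (R : ℕ → Prop) : ∃ c : Constr (T3 S), deg (fun n => R3 R (c.nu n)) =
      deg fun n => R (f n) := by
  let ν : ℕ → ℕ := fun n => if n % 2 = 0 then n else 2 * f (n / 2) + 1
  have he : ∀ n, n % 2 = 0 → ν n = n := fun n h => if_pos h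
  have ho : ∀ n, ¬ n % 2 = 0 → ν n = 2 * f (n / 2) + 1 := fun n h => if_neg h
  have hinj : Function.Injective ν := by
    intro a b h
    by_cases ha : a % 2 = 0 <;> by_cases hb : b % 2 = 0
    · rwa [he a ha, he b hb] at h
    · rw [he a ha, ho b hb] at h; omega
    · rw [ho a ha, he b hb] at h; omega
    · rw [ho a ha, ho b hb] at h
      have := f.injective (show f (a / 2) = f (b / 2) by omega)
      omega
  have hsurj : Function.Surjective ν := by
    intro y
    by_cases hy : y % 2 = 0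
    · exact ⟨y, he y hy⟩
    · refine ⟨2 * f.symm (y / 2) + 1, ?_⟩
      rw [ho _ (by omega), show (2 * f.symm (y / 2) + 1) / 2 = f.symm (y / 2) by omega,
        f.apply_symm_apply]
      omega
  have hT : ∀ a b c, T3 S (ν a) (ν b) (ν c) ↔ T3 B a b c := by
    intro a b c
    have hmod : ∀ n, ν n % 2 = n % 2 := by
      intro n
      by_cases h : n % 2 = 0
      · rw [he n h]
      · rw [ho n h]; omega
    have hdiv : ∀ n, n % 2 = 1 → ν n / 2 = f (n / 2) := by
      intro n h
      rw [ho n (by omega)]; omega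
    unfold T3
    rw [hmod, hmod, hmod]
    refine or_congr ?_ (or_congr ?_ ?_)
    · refine and_congr_right fun h1 => ?_
      rw [he a h1, hinj.eq_iff' (he a h1)]
      refine and_congr ?_ Iff.rfl
      rw [← he (a + 2) (by omega), hinj.eq_iff, he (a + 2) (by omega)]
    · refine and_congr_right fun h1 => and_congr_right fun h2 => and_congr_right fun h3 => ?_
      rw [he a h1, hdiv b h2, hdiv c h3, hf]
    · rw [hinj.eq_iff, hinj.eq_iff]
  refine ⟨⟨ν, hsurj, ?_, ?_⟩, ?_⟩
  · exact (p_eq (c_fst c_id) (c_snd c_id)).of_eq fun q => hinj.eq_iff.symm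
  · exact (p_T3 hB).of_eq fun q => (hT q.1 q.2.1 q.2.2).symm
  · refine deg_eq ?_ ?_
    · refine tr_tt (f := fun n => n / 2) (A := fun n => n % 2 = 1) (B := fun _ => False)
        (c_div2 c_id) (p_eqmod c_id 1) p_false fun n => ?_
      show R3 R (ν n) ↔ _
      unfold R3
      by_cases h : n % 2 = 0
      · rw [he n h]
        constructor
        · rintro ⟨h1, _⟩; omega
        · rintro (⟨_, h1⟩ | ⟨_, h1⟩)
          · omega
          · exact h1.elim
      · rw [ho n h]
        have h1 : (2 * f (n / 2) + 1) / 2 = f (n / 2) := by omega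
        rw [h1]
        constructor
        · rintro ⟨_, h2⟩
          exact Or.inl ⟨h2, by omega⟩
        · rintro (⟨h2, _⟩ | ⟨_, h2⟩)
          · exact ⟨by omega, h2⟩
          · exact h2.elim
    · refine tr_comp (f := fun n => 2 * n + 1) (c_succ (c_mul (c_const 2) c_id)) fun n => ?_
      show _ ↔ R3 R (ν (2 * n + 1))
      unfold R3
      rw [ho _ (by omega), show (2 * n + 1) / 2 = n by omega,
        show (2 * f n + 1) / 2 = f n by omega]
      constructor
      · intro h; exact ⟨by omega, h⟩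
      · rintro ⟨_, h⟩; exact h

/-- every constructivization comes from a computable copy -/
theorem copy_of_constr {S : Str} (c : Constr (T3 S)) (R : ℕ → Prop) :
    ∃ (B : Str) (f : ℕ ≃ ℕ), IsComp B ∧ IsIso B S f ∧
      deg (fun n => R3 R (c.nu n)) = deg fun n => R (f n) := by
  classical
  obtain ⟨ν, hν⟩ : ∃ ν : ℕ → ℕ, ν = c.nu := ⟨_, rfl⟩
  have hsurj : Function.Surjective ν := by rw [hν]; exact c.surj
  have heq : ComputablePred fun p : ℕ × ℕ => ν p.1 = ν p.2 := by rw [hν]; exact c.eq_comp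
  have hrel : ComputablePred fun q : ℕ × ℕ × ℕ => T3 S (ν q.1) (ν q.2.1) (ν q.2.2) := by
    rw [hν]; exact c.rel_comp
  rw [← hν]
  have hodd : ComputablePred fun n => ν n % 2 = 1 := by
    have h1 := computablePred_comp hrel (f := fun n : ℕ => (n, n, n))
      (c_pair c_id (c_pair c_id c_id))
    exact h1.of_eq fun n => t3_diag S (ν n)
  -- the indices
  obtain ⟨z0, hz0⟩ := hsurj 0
  have hnx : ∀ a : ℕ, ∃ n, ν a % 2 = 1 ∨ T3 S (ν a) (ν n) (ν a) := by
    intro a
    by_cases h : ν a % 2 = 1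
    · exact ⟨0, Or.inl h⟩
    · obtain ⟨n, hn⟩ := hsurj (ν a + 2)
      exact ⟨n, Or.inr ((t3_succ S (by omega)).2 hn)⟩
  have hnxc := c_least (P := fun a n : ℕ => ν a % 2 = 1 ∨ T3 S (ν a) (ν n) (ν a))
    (p_or (computablePred_comp hodd (c_fst c_id)) (computablePred_comp hrel
      (f := fun p : ℕ × ℕ => (p.1, p.2, p.1)) (c_pair (c_fst c_id) (c_pair (c_snd c_id)
        (c_fst c_id))))) hnx
  obtain ⟨nx, hnxd⟩ : ∃ nx : ℕ → ℕ, nx = fun a =>
    sInf {n | ν a % 2 = 1 ∨ T3 S (ν a) (ν n) (ν a)} := ⟨_, rfl⟩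
  rw [← hnxd] at hnxc
  have hnx2 : ∀ a, ν a % 2 = 0 → ν (nx a) = ν a + 2 := by
    intro a ha
    have h1 : ν a % 2 = 1 ∨ T3 S (ν a) (ν (nx a)) (ν a) := by
      rw [hnxd]
      exact Nat.sInf_mem (s := {n | ν a % 2 = 1 ∨ T3 S (ν a) (ν n) (ν a)}) (hnx a)
    rcases h1 with h1 | h1
    · omega
    · exact (t3_succ S ha).1 h1
  let zi : ℕ → ℕ := fun i => Nat.rec z0 (fun _ a => nx a) i
  have hzi : ∀ i, ν (zi i) = 2 * i := by
    intro i
    induction i with
    | zero => exact hz0
    | succ i ih =>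
      show ν (nx (zi i)) = _
      rw [hnx2 _ (by omega), ih]
      omega
  have hzc : Computable zi := by
    have h1 : Computable fun i : ℕ => (Nat.rec z0 (fun _ a => nx a) i : ℕ) :=
      Computable.nat_rec (f := fun i : ℕ => i) (g := fun _ : ℕ => z0)
        (h := fun (_ : ℕ) (q : ℕ × ℕ) => nx q.2) c_id (c_const z0)
        (hnxc.comp (c_snd (c_snd c_id)))
    exact h1
  -- the elements
  let D : ℕ → Prop := fun n => ν n % 2 = 1 ∧ ∀ m < n, ¬ ν m = ν n
  have hD : ComputablePred D := p_and hodd (p_ball (f := fun n : ℕ => n)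
    (P := fun n m => ¬ ν m = ν n) c_id
      (p_not (computablePred_comp heq (c_pair (c_snd c_id) (c_fst c_id)))))
  have hDinj : ∀ a b, D a → D b → ν a = ν b → a = b := by
    intro a b ha hb h
    rcases lt_trichotomy a b with h1 | h1 | h1
    · exact absurd h (hb.2 a h1)
    · exact h1
    · exact absurd h.symm (ha.2 b h1)
  have hDsurj : ∀ y, ∃ n, D n ∧ ν n = 2 * y + 1 := by
    intro y
    have hy := hsurj (2 * y + 1)
    refine ⟨Nat.find hy, ⟨?_, ?_⟩, Nat.find_spec hy⟩
    · rw [Nat.find_spec hy]; omega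
    · intro m hm h
      exact Nat.find_min hy hm (h.trans (Nat.find_spec hy))
  have hinf : {n | D n}.Infinite := by
    choose f hf1 hf2 using hDsurj
    have hinj : Function.Injective f := fun a b h => by
      have h1 := hf2 a
      rw [h, hf2 b] at h1
      omega
    exact (Set.infinite_range_of_injective hinj).mono (by rintro _ ⟨y, rfl⟩; exact hf1 y)
  have hcount : Computable fun n => Nat.count D n := by
    have h : Computable fun n : ℕ =>
        (Nat.rec 0 (fun m y => if D m then y + 1 else y) n : ℕ) := by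
      refine Computable.nat_rec (f := fun n : ℕ => n) (g := fun _ : ℕ => 0)
        (h := fun (_ : ℕ) (q : ℕ × ℕ) => if D q.1 then q.2 + 1 else q.2)
        Computable.id (Computable.const 0) ?_
      exact c_ite (P := fun p : ℕ × (ℕ × ℕ) => D p.2.1)
        (computablePred_comp hD (c_fst (c_snd c_id)))
        (c_succ (c_snd (c_snd c_id))) (c_snd (c_snd c_id))
    refine h.of_eq fun n => ?_
    induction n with
    | zero => simp
    | succ n ih =>
      rw [Nat.count_succ]
      show (if D n then _ + 1 else _) = _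
      rw [ih]
      split_ifs <;> simp
  have hex : ∀ k : ℕ, ∃ n, D n ∧ Nat.count D n = k := fun k =>
    ⟨Nat.nth D k, Nat.nth_mem_of_infinite hinf k, Nat.count_nth_of_infinite hinf k⟩
  obtain ⟨s, hs1, hs2, hsc⟩ : ∃ s : ℕ → ℕ, (∀ k, D (s k)) ∧ (∀ k, Nat.count D (s k) = k) ∧
      Computable s := by
    refine ⟨fun k => sInf {n | D n ∧ Nat.count D n = k}, fun k => ?_, fun k => ?_, ?_⟩
    · exact (Nat.sInf_mem (s := {n | D n ∧ Nat.count D n = k}) (hex k)).1
    · exact (Nat.sInf_mem (s := {n | D n ∧ Nat.count D n = k}) (hex k)).2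
    · exact c_least (P := fun k n => D n ∧ Nat.count D n = k)
        (p_and (computablePred_comp hD (c_snd c_id))
          (p_eq (hcount.comp (c_snd c_id)) (c_fst c_id))) hex
  have hs3 : ∀ n, D n → s (Nat.count D n) = n := fun n hn =>
    Nat.count_injective (hs1 _) hn (hs2 _)
  have hbij : Function.Bijective (fun k => ν (s k) / 2) := by
    constructor
    · intro a b h
      have ha := (hs1 a).1
      have hb := (hs1 b).1
      have h0 : ν (s a) / 2 = ν (s b) / 2 := h
      have h1 := hDinj _ _ (hs1 a) (hs1 b) (by omega)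
      rw [← hs2 a, ← hs2 b, h1]
    · intro y
      obtain ⟨n, hn, hy⟩ := hDsurj y
      refine ⟨Nat.count D n, ?_⟩
      show ν (s (Nat.count D n)) / 2 = y
      rw [hs3 n hn, hy]
      omega
  let f : ℕ ≃ ℕ := Equiv.ofBijective _ hbij
  have hf : ∀ k, ν (s k) = 2 * f k + 1 := by
    intro k
    show ν (s k) = 2 * (ν (s k) / 2) + 1
    have := (hs1 k).1
    omega
  obtain ⟨q, hq, hqc⟩ : ∃ q : ℕ → ℕ, (∀ n, ν n % 2 = 1 → ν (s (q n)) = ν n) ∧
      Computable q := by
    have hex2 : ∀ n : ℕ, ∃ k, ν n % 2 = 1 → ν (s k) = ν n := by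
      intro n
      by_cases h : ν n % 2 = 1
      · obtain ⟨k, hk⟩ := hbij.2 (ν n / 2)
        refine ⟨k, fun _ => ?_⟩
        have h1 : ν (s k) / 2 = ν n / 2 := hk
        have := (hs1 k).1
        omega
      · exact ⟨0, fun h' => (h h').elim⟩
    refine ⟨fun n => sInf {k | ν n % 2 = 1 → ν (s k) = ν n}, fun n => ?_, ?_⟩
    · exact Nat.sInf_mem (s := {k | ν n % 2 = 1 → ν (s k) = ν n}) (hex2 n)
    · exact c_least (P := fun n k => ν n % 2 = 1 → ν (s k) = ν n)
        (p_imp (computablePred_comp hodd (c_fst c_id)) (computablePred_comp heq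
          (c_pair (hsc.comp (c_snd c_id)) (c_fst c_id)))) hex2
  refine ⟨fun i x y => T3 S (ν (zi i)) (ν (s x)) (ν (s y)), f, ?_, ?_, ?_⟩
  · exact computablePred_comp hrel (c_pair (hzc.comp (c_fst c_id))
      (c_pair (hsc.comp (c_fst (c_snd c_id))) (hsc.comp (c_snd (c_snd c_id)))))
  · intro i x y
    show T3 S (ν (zi i)) (ν (s x)) (ν (s y)) ↔ _
    rw [hzi, hf, hf]
    exact t3_rel S i (f x) (f y)
  · refine deg_eq ?_ ?_
    · refine tr_tt (f := q) (A := fun n => ν n % 2 = 1) (B := fun _ => False) hqc hodd p_false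
        fun n => ?_
      unfold R3
      by_cases h : ν n % 2 = 1
      · have h1 := hq n h
        rw [hf] at h1
        have h2 : ν n / 2 = f (q n) := by omega
        rw [h2]
        tauto
      · tauto
    · refine tr_comp (f := s) hsc fun n => ?_
      show _ ↔ R3 R (ν (s n))
      unfold R3
      rw [hf, show (2 * f n + 1) / 2 = f n by omega]
      constructor
      · intro h; exact ⟨by omega, h⟩
      · rintro ⟨_, h⟩; exact h

theorem sig_iff' (n : ℕ) : ∀ {α : Type} [Primcodable α] (X : α → Prop),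
    Sig n X ↔ Sigma0 n X := by
  induction n with
  | zero => intro α _ X; exact Iff.rfl
  | succ n ih =>
    intro α _ X
    constructor
    · rintro ⟨Q, hQ, h⟩
      exact ⟨Q, (ih Q).1 hQ, h⟩
    · rintro ⟨Q, hQ, h⟩
      exact ⟨Q, (ih Q).2 hQ, h⟩

theorem sigma_mono {n m : ℕ} (h : n ≤ m) {X : ℕ → Prop} (hX : Sigma0 n X) : Sigma0 m X := by
  induction m, h using Nat.le_induction with
  | base => exact hX
  | succ m _ ih => exact ih.succ

theorem iso_trans {A B C : Str} {f g : ℕ ≃ ℕ} (hf : IsIso A B f) (hg : IsIso B C g) :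
    IsIso A C (f.trans g) := fun i x y => (hf i x y).trans (hg i _ _)

theorem iso_symm {A B : Str} {f : ℕ ≃ ℕ} (hf : IsIso A B f) : IsIso B A f.symm :=
  fun i x y => by rw [hf, f.apply_symm_apply, f.apply_symm_apply]

variable {κ : ℕ}

/-- the degree spectrum for a finite family of arithmetical sets -/
theorem spectrum (K : ℕ) (es : Fin (κ + 1) → ℕ) (X : Fin (κ + 1) → ℕ → Prop)
    (hX : ∀ i x, X i x ↔ Un K (es i, x)) :
    ∃ (S : ℕ → ℕ → ℕ → Prop) (R : ℕ → Prop), Nonempty (Constr S) ∧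
      DgSp S R = Set.range fun i => deg (X i) := by
  have hp := good_PK K es
  set P := PK K es with hPd
  have hS := con_spec P
  have hd := con_comp hp.pc
  obtain ⟨g, hg⟩ := exists_tp (d := (con P).toDat) hS.O_le
  have hdeg : ∀ i : Fin (κ + 1), deg (Rl (con P) P (pth K) i) = deg (X i) := fun i =>
    (deg_rl hS hp hg hd i).trans (deg_bt K es i (hX i))
  have hex : ∀ i : Fin (κ + 1), ∃ c : Constr (T3 (As (con P) (0 : Fin (κ + 1)))),
      deg (fun n => R3 (Rl (con P) P (pth K) (0 : Fin (κ + 1))) (c.nu n)) = deg (X i) := by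
    intro i
    obtain ⟨f, hf⟩ := as_iso hS hp hg i (0 : Fin (κ + 1))
    obtain ⟨c, hc⟩ := constr_of_copy (as_comp hd i) hf
      (Rl (con P) P (pth K) (0 : Fin (κ + 1)))
    refine ⟨c, ?_⟩
    rw [hc, ← hdeg i]
    congr 1
    funext n
    exact propext (rl_iso hS hp hg hf n).symm
  refine ⟨T3 (As (con P) (0 : Fin (κ + 1))), R3 (Rl (con P) P (pth K) (0 : Fin (κ + 1))),
    ⟨(hex 0).choose⟩, ?_⟩
  ext a
  constructor
  · rintro ⟨c, rfl⟩
    obtain ⟨B, f, hB, hf, h1⟩ := copy_of_constr c (Rl (con P) P (pth K) (0 : Fin (κ + 1)))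
    obtain ⟨i, h, hh, hhc⟩ := copies hp.pc hp.th (j := (0 : Fin (κ + 1))) (B := B)
      ⟨hB, f.symm, iso_symm hf⟩
    refine ⟨i, ?_⟩
    show deg (X i) = _
    rw [h1, ← hdeg i]
    have h2 : IsIso (As (con P) i) (As (con P) (0 : Fin (κ + 1))) (h.trans f) :=
      iso_trans hh hf
    have h3 := rl_iso hS hp hg h2
    refine deg_eq ?_ ?_
    · exact tr_comp (f := h) hhc fun n => h3 n
    · refine tr_comp (f := h.symm) (computable_symm hhc) fun n => ?_
      rw [h3]
      show _ ↔ Rl (con P) P (pth K) 0 (f (h (h.symm n)))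
      rw [h.apply_symm_apply]
  · rintro ⟨i, rfl⟩
    obtain ⟨c, hc⟩ := hex i
    exact ⟨c, hc.symm⟩

end Pool.Agent.H668
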